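import Pool.Agent.Work.MP_5955e5_nt.B.LimProd

/-!
# Cell RV, block (b6): the limit of `Psi` from the limit of the two-loop part (helper12)
-/

set_option autoImplicit false

open Complex MeasureTheory Filter Topology

namespace Pool.RV

theorem tendsto_Psi_of (hT : ∃ D : ℂ, Tendsto (fun w : ℝ => (w : ℂ) ^ 3 * Tplus w
      - D * (w : ℂ) ^ 3) atTop (𝓝 ((7 * Real.pi ^ 3 / 18 * zeta3 : ℝ) : ℂ))) :
    ∃ D : ℂ, Tendsto (fun w : ℝ => Psi w - D * (w : ℂ) ^ 3) atTop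
      (𝓝 ((7 * Real.pi ^ 3 / 36 * zeta3 : ℝ) : ℂ)) := by
  obtain ⟨D, hD⟩ := hT
  refine ⟨D - 19 * row 4 2 0 0 1, ?_⟩
  have h := (hD.add tendsto_prod).sub tendsto_K42_sum
  refine (h.congr (fun w => ?_)).trans_eq ?_
  · rw [Psi]
    ring
  · congr 1
    push_cast
    ring

end Pool.RV
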