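import Pool.Agent.Work.MP_5955e5_nt.B.LimDefs
import Pool.Agent.Work.MP_5955e5_nt.QDefs

/-!
# Cell RV, block (b6): the values of `z2` and `L3` (helper12)
-/

set_option autoImplicit false

open Complex MeasureTheory Filter Topology

namespace Pool.RV

/-- `1 + e(3m/6)` -/
theorem two_char (m : ℤ) : 1 + e6 3 m = if 2 ∣ m then 2 else 0 := by
  have hd : e6 3 1 = -1 := by
    rw [e6]
    have : 2 * (Real.pi : ℂ) * I * ((3 * 1 : ℤ) : ℂ) / 6 = Real.pi * I := by push_cast; ring
    rw [this, exp_pi_mul_I]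
  rw [e6_zpow, hd]
  split_ifs with h
  · obtain ⟨k, rfl⟩ := h
    rw [zpow_mul]
    norm_num
  · have ho : Odd m := by
      rw [← Int.not_even_iff_odd]
      intro he
      exact h he.two_dvd
    rw [ho.neg_one_zpow]
    norm_num

theorem e6_mul_right (j m n : ℤ) : e6 j (m * n) = e6 (j * m) n := by
  rw [e6, e6, show j * (m * n) = j * m * n by ring]

/-- `1 + e(2m/6) + e(4m/6)` -/
theorem three_char (m : ℤ) : 1 + e6 2 m + e6 4 m = if 3 ∣ m then 3 else 0 := by
  have h4 : e6 4 m = e6 2 m ^ 2 := by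
    rw [show (4 : ℤ) = 2 + 2 by norm_num, e6_add_left, sq]
  have h6 : e6 2 m ^ 3 = 1 := by
    rw [pow_succ, sq, ← e6_add_left, ← e6_add_left]
    exact e6_of_dvd (by norm_num) m
  rw [h4]
  split_ifs with h
  · have : e6 2 m = 1 := by
      rw [e6_comm]
      obtain ⟨k, rfl⟩ := h
      rw [e6_comm, e6_mul_right]
      exact e6_of_dvd (by norm_num) k
    rw [this]
    norm_num
  · have hne : e6 2 m ≠ 1 := by
      intro h1
      apply h
      have h2 : e6 (2 * m) 1 = 1 := by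
        rw [← e6_mul_right, mul_one]
        exact h1
      rw [e6_one_eq_one_iff] at h2
      omega
    have h7 : (e6 2 m - 1) * (1 + e6 2 m + e6 2 m ^ 2) = 0 := by
      linear_combination h6
    exact (mul_eq_zero.mp h7).resolve_left (sub_ne_zero.mpr hne)

theorem tsum_mult {d : ℤ} (hd : d ≠ 0) (f : ℤ → ℂ) :
    ∑' m : ℤ, (if d ∣ m then f m else 0) = ∑' m : ℤ, f (d * m) := by
  have hinj : Function.Injective (fun m : ℤ => d * m) := mul_right_injective₀ hd
  rw [← hinj.tsum_eq (f := fun m : ℤ => if d ∣ m then f m else 0)]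
  · exact tsum_congr (fun m => by rw [if_pos (dvd_mul_right d m)])
  · intro m hm
    by_contra hne
    apply hm
    simp only
    rw [if_neg]
    rintro ⟨k, rfl⟩
    exact hne ⟨k, rfl⟩

/-- distribution by 2 for a homogeneous function -/
theorem dist2 {g : ℤ → ℂ} {c : ℂ} (hg : ∀ m, g (2 * m) = c * g m)
    (hs : Summable fun m => ‖g m‖) (i : ℤ) :
    (∑' m, e6 i m * g m) + ∑' m, e6 (i + 3) m * g m = 2 * c * ∑' m, e6 (2 * i) m * g m := by
  have hsum : ∀ j : ℤ, Summable fun m => e6 j m * g m := by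
    intro j
    refine Summable.of_norm (hs.congr (fun m => ?_))
    rw [norm_mul, norm_e6, one_mul]
  rw [← (hsum i).tsum_add (hsum (i + 3)), ← tsum_mul_left]
  have e1 : ∀ m, e6 i m * g m + e6 (i + 3) m * g m = if 2 ∣ m then 2 * (e6 i m * g m) else 0 := by
    intro m
    have h := two_char m
    rw [e6_add_left]
    split_ifs with hd
    · rw [if_pos hd] at h
      linear_combination (e6 i m * g m) * h
    · rw [if_neg hd] at h
      linear_combination (e6 i m * g m) * h
  rw [tsum_congr e1, tsum_mult (by norm_num)]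
  refine tsum_congr (fun m => ?_)
  rw [hg, e6_mul_right, mul_comm i 2]
  ring

/-- distribution by 3 for a homogeneous function -/
theorem dist3 {g : ℤ → ℂ} {c : ℂ} (hg : ∀ m, g (3 * m) = c * g m)
    (hs : Summable fun m => ‖g m‖) (i : ℤ) :
    (∑' m, e6 i m * g m) + (∑' m, e6 (i + 2) m * g m) + ∑' m, e6 (i + 4) m * g m
      = 3 * c * ∑' m, e6 (3 * i) m * g m := by
  have hsum : ∀ j : ℤ, Summable fun m => e6 j m * g m := by
    intro j
    refine Summable.of_norm (hs.congr (fun m => ?_))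
    rw [norm_mul, norm_e6, one_mul]
  rw [← (hsum i).tsum_add (hsum (i + 2)), ← ((hsum i).add (hsum (i + 2))).tsum_add (hsum (i + 4)),
    ← tsum_mul_left]
  have e1 : ∀ m, e6 i m * g m + e6 (i + 2) m * g m + e6 (i + 4) m * g m
      = if 3 ∣ m then 3 * (e6 i m * g m) else 0 := by
    intro m
    have h := three_char m
    rw [e6_add_left, e6_add_left]
    split_ifs with hd
    · rw [if_pos hd] at h
      linear_combination (e6 i m * g m) * h
    · rw [if_neg hd] at h
      linear_combination (e6 i m * g m) * h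
  rw [tsum_congr e1, tsum_mult (by norm_num)]
  refine tsum_congr (fun m => ?_)
  rw [hg, e6_mul_right, mul_comm i 3]
  ring

/-- the function of `L3` -/
noncomputable def g3 (m : ℤ) : ℂ := (((|(m : ℝ)| ^ 3)⁻¹ : ℝ) : ℂ)

theorem norm_g3 (m : ℤ) : ‖g3 m‖ = (|(m : ℝ)| ^ 3)⁻¹ := by
  rw [g3, norm_real, Real.norm_of_nonneg (by positivity)]

theorem summable_g3 : Summable fun m : ℤ => ‖g3 m‖ := by
  simp only [norm_g3]
  have h := Real.summable_abs_int_rpow (b := 3) (by norm_num)
  refine h.congr (fun m => ?_)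
  rw [Real.rpow_neg (abs_nonneg _)]
  norm_num

theorem summable_e6_g3 (j : ℤ) : Summable fun m : ℤ => e6 j m * g3 m := by
  refine Summable.of_norm (summable_g3.congr (fun m => ?_))
  rw [norm_mul, norm_e6, one_mul]

theorem L3_eq (j : ℤ) : L3 j = ∑' m, e6 j m * g3 m := rfl

theorem L3_neg (j : ℤ) : L3 (-j) = L3 j := by
  rw [L3_eq, L3_eq, ← (Equiv.neg ℤ).tsum_eq]
  refine tsum_congr (fun m => ?_)
  simp only [Equiv.neg_apply]
  rw [e6_neg_left, e6_neg_right, inv_inv, g3, g3]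
  simp

theorem L3_add_six (j : ℤ) : L3 (j + 6) = L3 j := by
  rw [L3_eq, L3_eq]
  refine tsum_congr (fun m => ?_)
  rw [e6_add_left, e6_of_dvd (dvd_refl 6) m, mul_one]

theorem L3_dist2 (i : ℤ) : L3 i + L3 (i + 3) = 1 / 4 * L3 (2 * i) := by
  have h := dist2 (g := g3) (c := 1 / 8) (fun m => by
    rw [g3, g3]
    push_cast
    rw [abs_mul, abs_two]
    push_cast
    rw [mul_pow, mul_inv]
    norm_num) summable_g3 i
  rw [← L3_eq, ← L3_eq, ← L3_eq] at h
  rw [h]
  ring

theorem L3_dist3 (i : ℤ) : L3 i + L3 (i + 2) + L3 (i + 4) = 1 / 9 * L3 (3 * i) := by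
  have h := dist3 (g := g3) (c := 1 / 27) (fun m => by
    rw [g3, g3]
    push_cast
    rw [abs_mul, abs_of_pos (by norm_num : (0 : ℝ) < 3)]
    push_cast
    rw [mul_pow, mul_inv]
    norm_num) summable_g3 i
  rw [← L3_eq, ← L3_eq, ← L3_eq, ← L3_eq] at h
  rw [h]
  ring

theorem L3_zero : L3 0 = 2 * (zeta3 : ℂ) := by
  have hs : Summable fun n : ℕ => 1 / ((n : ℝ) + 1) ^ 3 := by
    have h1 := (summable_nat_add_iff 1).mpr (Real.summable_one_div_nat_pow.mpr
      (by norm_num : 1 < 3))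
    simpa using h1
  have h1 : HasSum (fun n : ℕ => g3 ((n : ℤ) + 1)) (zeta3 : ℂ) := by
    have h2 := hs.hasSum
    have h3 : HasSum (fun n : ℕ => ((1 / ((n : ℝ) + 1) ^ 3 : ℝ) : ℂ)) (zeta3 : ℂ) := by
      rw [zeta3]
      exact_mod_cast h2
    refine h3.congr_fun (fun n => ?_) |> fun h => h
    rw [g3]
    push_cast
    rw [abs_of_pos (by positivity), one_div]
    push_cast
    ring
  have h0 : g3 0 = 0 := by simp [g3]
  have h4 : HasSum (fun n : ℕ => g3 (n : ℤ)) (zeta3 : ℂ) := by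
    rw [← hasSum_nat_add_iff' 1]
    simpa [h0] using h1
  have h5 : HasSum (fun n : ℕ => g3 (-(n : ℤ))) (zeta3 : ℂ) := by
    refine h4.congr_fun (fun n => ?_) |> fun h => h
    simp [g3]
  have h6 := HasSum.of_nat_of_neg h4 h5
  rw [h0, sub_zero] at h6
  rw [L3_eq]
  have e : (fun m : ℤ => e6 0 m * g3 m) = g3 := by
    funext m; rw [e6_zero_left, one_mul]
  rw [e, h6.tsum_eq]
  ring

theorem L3_three : L3 3 = -(3 / 2) * (zeta3 : ℂ) := by
  have h := L3_dist2 0
  rw [zero_add, mul_zero, L3_zero] at h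
  linear_combination h

theorem L3_four : L3 4 = L3 2 := by
  rw [← L3_neg 4, ← L3_add_six (-4)]
  norm_num

theorem L3_two : L3 2 = -(8 / 9) * (zeta3 : ℂ) := by
  have h := L3_dist3 0
  rw [zero_add, zero_add, mul_zero, L3_zero, L3_four] at h
  linear_combination h / 2

theorem L3_one : L3 1 = 2 / 3 * (zeta3 : ℂ) := by
  have h := L3_dist2 1
  norm_num at h
  rw [L3_four, L3_two] at h
  linear_combination h

/-- the function of `z2` -/
noncomputable def gz (n : ℤ) : ℂ := ((n : ℂ) ^ 2)⁻¹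

theorem summable_gz : Summable fun m : ℤ => ‖gz m‖ := by
  have h := Real.summable_one_div_int_pow.mpr (by norm_num : 1 < 2)
  refine h.congr (fun m => ?_)
  rw [gz, norm_inv, norm_pow, norm_intCast, one_div, sq_abs]

theorem z2_eq (j : ℤ) : z2 j = ∑' m, e6 j m * gz m := rfl

theorem z2_zero : z2 0 = ((Real.pi ^ 2 / 3 : ℝ) : ℂ) := by
  have h1 : HasSum (fun n : ℕ => gz (n : ℤ)) ((Real.pi ^ 2 / 6 : ℝ) : ℂ) := by
    have h2 : HasSum (fun n : ℕ => ((1 / (n : ℝ) ^ 2 : ℝ) : ℂ)) ((Real.pi ^ 2 / 6 : ℝ) : ℂ) := by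
      exact_mod_cast hasSum_zeta_two
    refine h2.congr_fun (fun n => ?_) |> fun h => h
    rw [gz]
    push_cast
    rw [one_div]
  have h5 : HasSum (fun n : ℕ => gz (-(n : ℤ))) ((Real.pi ^ 2 / 6 : ℝ) : ℂ) := by
    refine h1.congr_fun (fun n => ?_) |> fun h => h
    simp [gz]
  have h6 := HasSum.of_nat_of_neg h1 h5
  have h0 : gz 0 = 0 := by simp [gz]
  rw [h0, sub_zero] at h6
  rw [z2_eq]
  have e : (fun m : ℤ => e6 0 m * gz m) = gz := by
    funext m; rw [e6_zero_left, one_mul]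
  rw [e, h6.tsum_eq]
  push_cast
  ring

theorem z2_three : z2 3 = ((-(Real.pi ^ 2 / 6) : ℝ) : ℂ) := by
  have h := dist2 (g := gz) (c := 1 / 4) (fun m => by
    rw [gz, gz]
    push_cast
    rw [mul_pow, mul_inv]
    norm_num) summable_gz 0
  rw [zero_add, mul_zero, ← z2_eq, ← z2_eq, z2_zero] at h
  push_cast at h ⊢
  linear_combination h

end Pool.RV
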