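import Pool.Agent.Work.MP_5955e5_nt.B.LimT
import Pool.Agent.Work.MP_5955e5_nt.B.LimVal

/-!
# Cell RV, block (b6): limit of `w³ T₊(w)` at infinity, up to a multiple of `w³` (helper16)
-/

set_option autoImplicit false

open Complex MeasureTheory Filter Topology

namespace Pool.RV

open Pool.RV.LimTw

lemma L3_m1 : L3 (-1) = 2 / 3 * (zeta3 : ℂ) := by rw [L3_neg, L3_one]

lemma L3_m3 : L3 (-3) = -(3 / 2) * (zeta3 : ℂ) := by rw [L3_neg, L3_three]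

/-- sum of the constants of the seven pairs of `T₊` -/
lemma cT_sum : 4 * cT (0, 0) (1, 0) + 2 * cT (0, 0) (3, 0) + cT (1, 0) (1, 0) + 6 * cT (1, 0) (4, 0)
    - 4 * cT (1, 3) (2, 3) + 4 * cT (1, 3) (4, 3) + 6 * cT (2, 0) (3, 0)
    = ((7 * Real.pi ^ 3 / 18 * zeta3 : ℝ) : ℂ) := by
  have d0 : (6 : ℤ) ∣ 0 := by decide
  have d3 : ¬ ((6 : ℤ) ∣ 3) := by decide
  simp only [cT, sub_self, zero_sub, if_pos d0, if_neg d3]
  norm_num [L3_m1, L3_m3, L3_one, L3_zero, L3_three, L3_two, L3_four, z2_zero, z2_three]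
  ring

theorem tendsto_Tplus : ∃ D : ℂ,
    Tendsto (fun w : ℝ => (w : ℂ) ^ 3 * Tplus w - D * (w : ℂ) ^ 3) atTop
      (𝓝 ((7 * Real.pi ^ 3 / 18 * zeta3 : ℝ) : ℂ)) := by
  refine ⟨4 * PT 0 (0, 0) (1, 0) 1 + 2 * PT 0 (0, 0) (3, 0) 1 + PT 0 (1, 0) (1, 0) 1
    + 6 * PT 0 (1, 0) (4, 0) 1 - 4 * PT 0 (1, 3) (2, 3) 1 + 4 * PT 0 (1, 3) (4, 3) 1
    + 6 * PT 0 (2, 0) (3, 0) 1, ?_⟩
  rw [← cT_sum]
  have h1 := (tendsto_T (0, 0) (1, 0)).const_mul 4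
  have h2 := (tendsto_T (0, 0) (3, 0)).const_mul 2
  have h3 := (tendsto_T (1, 0) (1, 0))
  have h4 := (tendsto_T (1, 0) (4, 0)).const_mul 6
  have h5 := (tendsto_T (1, 3) (2, 3)).const_mul 4
  have h6 := (tendsto_T (1, 3) (4, 3)).const_mul 4
  have h7 := (tendsto_T (2, 0) (3, 0)).const_mul 6
  have h := (((((h1.add h2).add h3).add h4).sub h5).add h6).add h7
  refine h.congr (fun w => ?_)
  rw [Tplus]
  ring

end Pool.RV
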