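import Pool.Agent.Work.MP_5955e5_nt.B.Asm
import Pool.Agent.Work.MP_5955e5_nt.B.LimPsi
import Pool.Agent.Work.MP_5955e5_nt.B.LimTp

/-!
# Cell RV: block (b), the line formula at `w0`
-/

set_option autoImplicit false

open Complex MeasureTheory Filter Topology

namespace Pool.RV

/-- BLOCK (b), with the integrability of the derivative as a hypothesis (from block (e)) -/
theorem block_b (hint : IntegrableOn (fun u => u * ee u * lx u) (Set.Ioi w0)) (h : lx w0 = 0) :
    ((w0 : ℂ) ^ 3) * Tplus w0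
      = (w0 : ℂ) ^ 3 * (4 * K 4 2 (0, 0) w0 + 6 * K 4 2 (1, 0) w0 + 9 * K 4 2 (2, 0) w0)
        + (16 * Real.pi ^ 5 / 3 * (∫ u in Set.Ioi w0, u * ee u * lx u) : ℝ)
        + (7 * Real.pi ^ 3 / 36 * zeta3 : ℝ) :=
  block_b_of (tendsto_Psi_of tendsto_Tplus) hint h

end Pool.RV
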