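import Pool.Agent.Work.MP_5955e5_nt.QDefs

/-!
# Cell RV, module (b8): integrability of `u * eqs u * lxq u` on `(w₀, ∞)`
-/

set_option autoImplicit false

open Complex MeasureTheory Filter Topology

namespace Pool.RV

theorem w0_pos : 0 < w0 := by rw [w0]; positivity

/-- the nome at `w`, without sign -/
noncomputable def rr (w : ℝ) : ℝ := Real.exp (-2 * Real.pi * w)

theorem rr_pos (w : ℝ) : 0 < rr w := Real.exp_pos _

theorem rr_lt_one {w : ℝ} (hw : 0 < w) : rr w < 1 := by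
  rw [rr, Real.exp_lt_one_iff]
  have := Real.pi_pos
  nlinarith [mul_pos this hw]

theorem rr_mono {w u : ℝ} (h : w ≤ u) : rr u ≤ rr w := by
  rw [rr, rr]
  apply Real.exp_le_exp.mpr
  have := Real.pi_pos
  nlinarith [mul_le_mul_of_nonneg_left h this.le]

theorem rr_pow_le {w u : ℝ} (h : w ≤ u) {N : ℕ} (hN : 1 ≤ N) :
    rr u ^ N ≤ rr u * (rr w ^ (N - 1)) := by
  obtain ⟨M, rfl⟩ : ∃ M, N = M + 1 := ⟨N - 1, by omega⟩
  rw [pow_succ, Nat.add_sub_cancel, mul_comm]
  exact mul_le_mul_of_nonneg_left (pow_le_pow_left₀ (rr_pos u).le (rr_mono h) _) (rr_pos u).le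

/-- the coefficient of the double series -/
noncomputable def ecf (m : ℕ) : ℝ :=
  if (m + 1) % 2 = 1 then (if (m + 1) % 3 = 0 then (-8 : ℝ) else 1) else 0

theorem abs_ecf (m : ℕ) : |ecf m| ≤ 8 := by
  rw [ecf]
  split_ifs <;> norm_num

noncomputable def eterm (x : ℕ × ℕ) (w : ℝ) : ℝ :=
  ecf x.1 * (x.2 + 1 : ℝ) ^ 3 * (-rr w) ^ ((x.1 + 1) * (x.2 + 1))

theorem eqs_eq (w : ℝ) : eqs w = ∑' x : ℕ × ℕ, eterm x w := rfl

theorem abs_eterm (x : ℕ × ℕ) {w u : ℝ} (hw : 0 < w) (h : w ≤ u) :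
    |eterm x u| ≤ rr u * (8 * (x.2 + 1 : ℝ) ^ 3 * (rr w ^ x.1 * rr w ^ x.2)) := by
  rw [eterm, abs_mul, abs_mul, abs_pow, abs_pow, abs_neg, abs_of_pos (rr_pos u)]
  have h1 : |((x.2 : ℝ) + 1)| = x.2 + 1 := abs_of_pos (by positivity)
  rw [h1]
  have hN : 1 ≤ (x.1 + 1) * (x.2 + 1) := Nat.succ_le_of_lt (by positivity)
  have h2 := rr_pow_le h hN
  have h3 : rr w ^ ((x.1 + 1) * (x.2 + 1) - 1) ≤ rr w ^ (x.1 + x.2) := by
    apply pow_le_pow_of_le_one (rr_pos w).le (rr_lt_one hw).le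
    have : (x.1 + 1) * (x.2 + 1) = x.1 * x.2 + x.1 + x.2 + 1 := by ring
    rw [this]
    have : 0 ≤ x.1 * x.2 := Nat.zero_le _
    omega
  have h4 : rr u ^ ((x.1 + 1) * (x.2 + 1)) ≤ rr u * (rr w ^ x.1 * rr w ^ x.2) := by
    rw [← pow_add]
    exact h2.trans (mul_le_mul_of_nonneg_left h3 (rr_pos u).le)
  calc |ecf x.1| * ((x.2 : ℝ) + 1) ^ 3 * rr u ^ ((x.1 + 1) * (x.2 + 1))
      ≤ 8 * ((x.2 : ℝ) + 1) ^ 3 * (rr u * (rr w ^ x.1 * rr w ^ x.2)) := by
        apply mul_le_mul _ h4 (by have := rr_pos u; positivity) (by positivity)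
        exact mul_le_mul_of_nonneg_right (abs_ecf _) (by positivity)
    _ = _ := by ring

theorem summable_emaj {w : ℝ} (hw : 0 < w) :
    Summable (fun x : ℕ × ℕ => 8 * (x.2 + 1 : ℝ) ^ 3 * (rr w ^ x.1 * rr w ^ x.2)) := by
  have h1 : Summable (fun m : ℕ => rr w ^ m) :=
    summable_geometric_of_lt_one (rr_pos w).le (rr_lt_one hw)
  have h2 : Summable (fun k : ℕ => 8 * ((k : ℝ) + 1) ^ 3 * rr w ^ k) := by
    have h3 : Summable (fun k : ℕ => ((k + 1 : ℕ) : ℝ) ^ 3 * rr w ^ (k + 1)) := by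
      have := summable_pow_mul_geometric_of_norm_lt_one 3 (r := rr w)
        (by rw [Real.norm_of_nonneg (rr_pos w).le]; exact rr_lt_one hw)
      exact (summable_nat_add_iff 1).mpr this
    have h4 := h3.mul_left (8 / rr w)
    refine h4.congr (fun k => ?_)
    have := (rr_pos w).ne'
    push_cast
    rw [pow_succ (rr w)]
    field_simp
  have h5 := h1.mul_of_nonneg h2 (fun m => by have := rr_pos w; positivity)
    (fun k => by have := rr_pos w; positivity)
  refine h5.congr (fun x => ?_)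
  ring

theorem eterm_cont (x : ℕ × ℕ) : Continuous (eterm x) := by
  unfold eterm rr
  fun_prop

theorem continuousOn_eqs {w : ℝ} (hw : 0 < w) : ContinuousOn eqs (Set.Ici w) := by
  have : eqs = fun u => ∑' x : ℕ × ℕ, eterm x u := by funext u; exact eqs_eq u
  rw [this]
  apply continuousOn_tsum (u := fun x : ℕ × ℕ => 8 * (x.2 + 1 : ℝ) ^ 3 * (rr w ^ x.1 * rr w ^ x.2))
    (fun x => (eterm_cont x).continuousOn) (summable_emaj hw)
  intro x u hu
  rw [Real.norm_eq_abs]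
  refine (abs_eterm x hw hu).trans ?_
  have h1 : rr u ≤ 1 := (rr_lt_one (hw.trans_le hu)).le
  have h2 : (0:ℝ) ≤ 8 * (x.2 + 1 : ℝ) ^ 3 * (rr w ^ x.1 * rr w ^ x.2) := by
    have := rr_pos w; positivity
  nlinarith

theorem abs_eqs_le {w : ℝ} (hw : 0 < w) : ∃ C : ℝ, ∀ u, w ≤ u → |eqs u| ≤ C * rr u := by
  refine ⟨∑' x : ℕ × ℕ, 8 * (x.2 + 1 : ℝ) ^ 3 * (rr w ^ x.1 * rr w ^ x.2), fun u hu => ?_⟩
  rw [eqs_eq, ← Real.norm_eq_abs]
  rw [mul_comm, ← tsum_mul_left]
  apply tsum_of_norm_bounded ((summable_emaj hw).mul_left (rr u)).hasSum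
  intro x
  rw [Real.norm_eq_abs]
  exact abs_eterm x hw hu

theorem abs_log_one_add {x r : ℝ} (hx : |x| ≤ r) (hr : r < 1) :
    |Real.log (1 + x)| ≤ |x| / (1 - r) := by
  have hr0 : 0 ≤ r := (abs_nonneg x).trans hx
  have h1 : 0 < 1 - r := by linarith
  have h2 := abs_le.mp hx
  have h3 : 0 < 1 + x := by linarith [h2.1]
  rw [abs_le]
  constructor
  · have h4 := Real.one_sub_inv_le_log_of_pos h3
    have h5 : -(|x| / (1 - r)) ≤ 1 - (1 + x)⁻¹ := by
      have h6 : 1 - (1 + x)⁻¹ = x / (1 + x) := by field_simp; ring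
      rw [h6]
      have h7 : -(|x| / (1 + x)) ≤ x / (1 + x) := by
        rw [← neg_div]
        exact div_le_div_of_nonneg_right (neg_abs_le x) h3.le
      have h8 : |x| / (1 + x) ≤ |x| / (1 - r) :=
        div_le_div_of_nonneg_left (abs_nonneg x) h1 (by linarith [h2.1])
      linarith
    linarith
  · have h4 := Real.log_le_sub_one_of_pos h3
    have h5 : x ≤ |x| / (1 - r) := by
      rw [le_div_iff₀ h1]
      have := le_abs_self x
      nlinarith [abs_nonneg x]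
    linarith

noncomputable def lterm (j n : ℕ) (w : ℝ) : ℝ := Real.log (1 + (-rr w) ^ (j * (n + 1)))

theorem abs_rr_pow (u : ℝ) (N : ℕ) : |(-rr u) ^ N| = rr u ^ N := by
  rw [abs_pow, abs_neg, abs_of_pos (rr_pos u)]

theorem abs_lterm {j : ℕ} (hj : 1 ≤ j) (n : ℕ) {w u : ℝ} (hw : 0 < w) (h : w ≤ u) :
    |lterm j n u| ≤ rr w ^ n * (1 / (1 - rr w)) := by
  have h0 : (1 : ℕ) ≤ j * (n + 1) := Nat.succ_le_of_lt (by positivity)
  have h1 : |(-rr u) ^ (j * (n + 1))| ≤ rr w := by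
    rw [abs_rr_pow]
    calc rr u ^ (j * (n + 1)) ≤ rr u ^ 1 :=
          pow_le_pow_of_le_one (rr_pos u).le (rr_lt_one (hw.trans_le h)).le h0
      _ ≤ rr w := by rw [pow_one]; exact rr_mono h
  have h2 := abs_log_one_add h1 (rr_lt_one hw)
  rw [lterm]
  refine h2.trans ?_
  rw [abs_rr_pow, div_eq_mul_one_div]
  have h3 : 0 < 1 - rr w := by linarith [rr_lt_one hw]
  apply mul_le_mul_of_nonneg_right _ (by positivity)
  calc rr u ^ (j * (n + 1)) ≤ rr u ^ n := by
        apply pow_le_pow_of_le_one (rr_pos u).le (rr_lt_one (hw.trans_le h)).le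
        nlinarith
    _ ≤ rr w ^ n := pow_le_pow_left₀ (rr_pos u).le (rr_mono h) _

theorem one_add_rr_pow_pos {w : ℝ} (hw : 0 < w) {N : ℕ} (hN : 1 ≤ N) : 0 < 1 + (-rr w) ^ N := by
  have h1 : |(-rr w) ^ N| < 1 := by
    rw [abs_rr_pow]
    calc rr w ^ N ≤ rr w ^ 1 := pow_le_pow_of_le_one (rr_pos w).le (rr_lt_one hw).le hN
      _ < 1 := by rw [pow_one]; exact rr_lt_one hw
  linarith [(abs_lt.mp h1).1]

theorem lterm_cont {j : ℕ} (hj : 1 ≤ j) (n : ℕ) {w : ℝ} (hw : 0 < w) :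
    ContinuousOn (lterm j n) (Set.Ici w) := by
  unfold lterm
  apply ContinuousOn.log
  · unfold rr
    fun_prop
  · intro u hu
    have hN : (1 : ℕ) ≤ j * (n + 1) := Nat.succ_le_of_lt (by positivity)
    exact (one_add_rr_pow_pos (hw.trans_le hu) hN).ne'

theorem lxq_eq (w : ℝ) : lxq w = Real.log 8 - Real.pi * w
    + 3 * ∑' n : ℕ, lterm 1 n w + 3 * ∑' n : ℕ, lterm 3 n w := by
  rw [lxq]
  simp only [lterm, rr, one_mul]

theorem summable_lmaj {w : ℝ} (hw : 0 < w) :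
    Summable (fun n : ℕ => rr w ^ n * (1 / (1 - rr w))) :=
  (summable_geometric_of_lt_one (rr_pos w).le (rr_lt_one hw)).mul_right _

theorem continuousOn_lxq {w : ℝ} (hw : 0 < w) : ContinuousOn lxq (Set.Ici w) := by
  have h1 : ∀ j : ℕ, 1 ≤ j → ContinuousOn (fun u => ∑' n : ℕ, lterm j n u) (Set.Ici w) := by
    intro j hj
    apply continuousOn_tsum (fun n => lterm_cont hj n hw) (summable_lmaj hw)
    intro n u hu
    rw [Real.norm_eq_abs]
    exact abs_lterm hj n hw hu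
  have h2 : lxq = fun u => Real.log 8 - Real.pi * u
    + 3 * ∑' n : ℕ, lterm 1 n u + 3 * ∑' n : ℕ, lterm 3 n u := by
    funext u; exact lxq_eq u
  rw [h2]
  have h3 := h1 1 le_rfl
  have h4 := h1 3 (by norm_num)
  fun_prop

theorem abs_lxq_le {w : ℝ} (hw : 0 < w) : ∃ C : ℝ, ∀ u, w ≤ u → |lxq u| ≤ C + Real.pi * u := by
  set S : ℝ := ∑' n : ℕ, rr w ^ n * (1 / (1 - rr w)) with hS
  refine ⟨Real.log 8 + 6 * S, fun u hu => ?_⟩
  have h1 : ∀ j : ℕ, 1 ≤ j → |∑' n : ℕ, lterm j n u| ≤ S := by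
    intro j hj
    rw [← Real.norm_eq_abs]
    apply tsum_of_norm_bounded (summable_lmaj hw).hasSum
    intro n
    rw [Real.norm_eq_abs]
    exact abs_lterm hj n hw hu
  have h2 := abs_le.mp (h1 1 le_rfl)
  have h3 := abs_le.mp (h1 3 (by norm_num))
  have h4 : 0 < Real.log 8 := Real.log_pos (by norm_num)
  have h5 : 0 < Real.pi * u := mul_pos Real.pi_pos (hw.trans_le hu)
  rw [lxq_eq, abs_le]
  constructor <;> linarith [h2.1, h2.2, h3.1, h3.2]

/-- (b8) -/
theorem integrableOn_eqs_lxq {w : ℝ} (hw : 0 < w) :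
    IntegrableOn (fun u => u * eqs u * lxq u) (Set.Ioi w) := by
  obtain ⟨C1, h1⟩ := abs_eqs_le hw
  obtain ⟨C2, h2⟩ := abs_lxq_le hw
  apply integrable_of_isBigO_exp_neg (b := 1) one_pos
  · exact (continuousOn_id.mul (continuousOn_eqs hw)).mul (continuousOn_lxq hw)
  · have hC1 : 0 ≤ C1 := by
      have := (abs_nonneg _).trans (h1 w le_rfl)
      by_contra hneg
      push Not at hneg
      nlinarith [rr_pos w]
    have hC2 : 0 ≤ C2 + Real.pi * w := (abs_nonneg _).trans (h2 w le_rfl)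
    -- `u * (C2 + π u) * exp (-2 π u) = O(exp (-u))`
    rw [Asymptotics.isBigO_iff]
    refine ⟨C1 * (|C2| + Real.pi), ?_⟩
    filter_upwards [eventually_ge_atTop w, eventually_ge_atTop 1] with u hu hu1
    have hu0 : 0 < u := by linarith
    rw [Real.norm_eq_abs, Real.norm_of_nonneg (Real.exp_pos _).le, abs_mul, abs_mul,
      abs_of_pos hu0]
    have h3 := h1 u hu
    have h4 := h2 u hu
    have h5 : |lxq u| ≤ (|C2| + Real.pi) * u := by
      have h6 : |C2| ≤ |C2| * u := le_mul_of_one_le_right (abs_nonneg _) hu1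
      nlinarith [le_abs_self C2]
    have h7 : u * u ≤ Real.exp (2 * u) := by
      have h8 : u ≤ Real.exp u := by linarith [Real.add_one_le_exp u]
      calc u * u ≤ Real.exp u * Real.exp u :=
            mul_le_mul h8 h8 hu0.le (Real.exp_pos _).le
        _ = Real.exp (2 * u) := by rw [← Real.exp_add]; ring_nf
    have h9 : rr u * Real.exp (2 * u) ≤ Real.exp (-1 * u) := by
      rw [rr, ← Real.exp_add]
      apply Real.exp_le_exp.mpr
      nlinarith [Real.pi_gt_three]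
    calc u * |eqs u| * |lxq u| ≤ u * (C1 * rr u) * ((|C2| + Real.pi) * u) := by
          apply mul_le_mul (mul_le_mul_of_nonneg_left h3 hu0.le) h5 (abs_nonneg _)
          have := rr_pos u
          positivity
      _ = C1 * (|C2| + Real.pi) * (rr u * (u * u)) := by ring
      _ ≤ C1 * (|C2| + Real.pi) * (rr u * Real.exp (2 * u)) := by
          apply mul_le_mul_of_nonneg_left _ (by have := Real.pi_pos; positivity)
          exact mul_le_mul_of_nonneg_left h7 (rr_pos u).le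
      _ ≤ _ := by
          apply mul_le_mul_of_nonneg_left h9 (by have := Real.pi_pos; positivity)

end Pool.RV
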