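import Pool.Agent.Work.MP_5955e5_nt.B.DerPsi
import Pool.Agent.Work.MP_5955e5_nt.B.Integ

/-!
# Cell RV, block (b): assembly of the line formula at `w0` (helper23, helper16)
-/

set_option autoImplicit false

open Complex MeasureTheory Filter Topology

namespace Pool.RV



theorem Kx_eq_zero (h : lx w0 = 0) : Kx 1 1 w0 = 0 := by
  rw [lx] at h
  have h1 : -(3 * w0 / (4 * Real.pi)) ≠ 0 := by
    have := w0_pos
    have := Real.pi_pos
    have : 0 < 3 * w0 / (4 * Real.pi) := by positivity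
    exact neg_ne_zero.mpr this.ne'
  rw [← Kx_real w0_pos, (mul_eq_zero.mp h).resolve_left h1]
  simp

theorem Psi_sub_int (hint : IntegrableOn (fun u => u * ee u * lx u) (Set.Ioi w0))
    {w : ℝ} (hw : w0 < w) :
    Psi w - Psi w0
      = ((∫ u in w0..w, -(16 * Real.pi ^ 5 / 3) * (u * ee u * lx u) : ℝ) : ℂ) := by
  rw [← intervalIntegral.integral_ofReal]
  symm
  apply intervalIntegral.integral_eq_sub_of_hasDerivAt
  · intro u hu
    rw [Set.uIcc_of_le hw.le] at hu
    exact hasDerivAt_Psi (w0_pos.trans_le hu.1)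
  · have h1 : IntervalIntegrable (fun u => -(16 * Real.pi ^ 5 / 3) * (u * ee u * lx u))
        volume w0 w := by
      rw [intervalIntegrable_iff_integrableOn_Ioc_of_le hw.le]
      exact (hint.mono_set Set.Ioc_subset_Ioi_self).const_mul _
    exact ⟨h1.1.ofReal, h1.2.ofReal⟩

/-- (b7): assembly of block (b) from the limit at infinity (up to an unknown multiple of `w ^ 3`,
which vanishes automatically) and the integrability of the derivative -/
theorem block_b_of
    (hlim : ∃ D : ℂ, Tendsto (fun w : ℝ => Psi w - D * (w : ℂ) ^ 3) atTop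
      (𝓝 ((7 * Real.pi ^ 3 / 36 * zeta3 : ℝ) : ℂ)))
    (hint : IntegrableOn (fun u => u * ee u * lx u) (Set.Ioi w0)) (h : lx w0 = 0) :
    ((w0 : ℂ) ^ 3) * Tplus w0
      = (w0 : ℂ) ^ 3 * (4 * K 4 2 (0, 0) w0 + 6 * K 4 2 (1, 0) w0 + 9 * K 4 2 (2, 0) w0)
        + (16 * Real.pi ^ 5 / 3 * (∫ u in Set.Ioi w0, u * ee u * lx u) : ℝ)
        + (7 * Real.pi ^ 3 / 36 * zeta3 : ℝ) := by
  obtain ⟨D, hD⟩ := hlim
  set c : ℝ := 7 * Real.pi ^ 3 / 36 * zeta3 with hc
  set J : ℝ := ∫ u in Set.Ioi w0, u * ee u * lx u with hJ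
  have hlim1 : Tendsto (fun w : ℝ => ∫ u in w0..w, -(16 * Real.pi ^ 5 / 3) * (u * ee u * lx u))
      atTop (𝓝 (-(16 * Real.pi ^ 5 / 3) * J)) := by
    have hi : IntegrableOn (fun u => -(16 * Real.pi ^ 5 / 3) * (u * ee u * lx u)) (Set.Ioi w0) :=
      hint.const_mul _
    have := intervalIntegral_tendsto_integral_Ioi w0 hi tendsto_id
    rw [integral_const_mul] at this
    exact this
  have hlim2 : Tendsto Psi atTop (𝓝 (Psi w0 + ((-(16 * Real.pi ^ 5 / 3) * J : ℝ) : ℂ))) := by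
    have h3 : Tendsto (fun w : ℝ => Psi w0 +
        ((∫ u in w0..w, -(16 * Real.pi ^ 5 / 3) * (u * ee u * lx u) : ℝ) : ℂ)) atTop
        (𝓝 (Psi w0 + ((-(16 * Real.pi ^ 5 / 3) * J : ℝ) : ℂ))) :=
      tendsto_const_nhds.add ((Complex.continuous_ofReal.tendsto _).comp hlim1)
    refine h3.congr' ?_
    filter_upwards [eventually_gt_atTop w0] with w hw
    rw [← Psi_sub_int hint hw]; ring
  have hD0 : D = 0 := by
    have h4 : Tendsto (fun w : ℝ => D * (w : ℂ) ^ 3) atTop
        (𝓝 (Psi w0 + ((-(16 * Real.pi ^ 5 / 3) * J : ℝ) : ℂ) - (c : ℂ))) := by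
      have := hlim2.sub hD
      refine this.congr (fun w => ?_)
      ring
    by_contra hne
    have h5 : Tendsto (fun w : ℝ => ‖D * (w : ℂ) ^ 3‖) atTop atTop := by
      have : (fun w : ℝ => ‖D * (w : ℂ) ^ 3‖) = fun w : ℝ => ‖D‖ * |w| ^ 3 := by
        funext w; simp
      rw [this]
      exact Tendsto.const_mul_atTop (norm_pos_iff.mpr hne)
        ((tendsto_pow_atTop (by norm_num)).comp tendsto_abs_atTop_atTop)
    exact not_tendsto_atTop_of_tendsto_nhds h4.norm h5
  have hval : Psi w0 + ((-(16 * Real.pi ^ 5 / 3) * J : ℝ) : ℂ) = (c : ℂ) := by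
    refine tendsto_nhds_unique hlim2 ?_
    simpa [hD0] using hD
  have hKx : Kx 1 1 w0 = 0 := Kx_eq_zero h
  rw [Psi, hKx] at hval
  push_cast at hval ⊢
  linear_combination hval

end Pool.RV
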