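import Pool.Agent.Work.MP_5955e5_nt.B.Lat

/-!
# Cell RV, block (b): definitions of the derivative terms (verbatim from helper23's skeleton)
and their form in `ui`, `ub` (helper52)
-/

set_option autoImplicit false

open Complex

namespace Pool.RV

/-- good characters: trivial, or nontrivial on `τ` -/
def Good (a : ℤ × ℤ) : Prop := a = 0 ∨ ¬ (6 ∣ a.1)

/-- raising part of the derivative of the two-loop term -/
noncomputable def DTterm (a b : ℤ × ℤ) (w : ℝ) (x : (ℤ × ℤ) × (ℤ × ℤ)) : ℂ :=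
  ch a x.1 * ch b x.2 *
    (1 / (gm w x.1 ^ 2 * (gm w x.2 * (starRingEnd ℂ) (gm w x.2)) * gm w (x.1 + x.2) ^ 2)
      + 1 / ((gm w x.1 * (starRingEnd ℂ) (gm w x.1)) * gm w x.2 ^ 2 * gm w (x.1 + x.2) ^ 2)
      + 2 * (starRingEnd ℂ) (gm w (x.1 + x.2)) /
        ((gm w x.1 * (starRingEnd ℂ) (gm w x.1)) * (gm w x.2 * (starRingEnd ℂ) (gm w x.2))
          * gm w (x.1 + x.2) ^ 3))

noncomputable def DT (a b : ℤ × ℤ) (w : ℝ) : ℂ := ∑' x, DTterm a b w x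

/-- lowering part of the derivative of the two-loop term -/
noncomputable def FTterm (a b : ℤ × ℤ) (w : ℝ) (x : (ℤ × ℤ) × (ℤ × ℤ)) : ℂ :=
  ch a x.1 * ch b x.2 *
    (1 / ((starRingEnd ℂ) (gm w x.1) ^ 2 * (gm w x.2 * (starRingEnd ℂ) (gm w x.2))
        * gm w (x.1 + x.2) ^ 2)
      + 1 / ((gm w x.1 * (starRingEnd ℂ) (gm w x.1)) * (starRingEnd ℂ) (gm w x.2) ^ 2
        * gm w (x.1 + x.2) ^ 2))

noncomputable def FT (a b : ℤ × ℤ) (w : ℝ) : ℂ := ∑' x, FTterm a b w x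

/-- the same with the rational function conjugated (not the characters) -/
noncomputable def FBterm (a b : ℤ × ℤ) (w : ℝ) (x : (ℤ × ℤ) × (ℤ × ℤ)) : ℂ :=
  ch a x.1 * ch b x.2 *
    (1 / (gm w x.1 ^ 2 * (gm w x.2 * (starRingEnd ℂ) (gm w x.2))
        * (starRingEnd ℂ) (gm w (x.1 + x.2)) ^ 2)
      + 1 / ((gm w x.1 * (starRingEnd ℂ) (gm w x.1)) * gm w x.2 ^ 2
        * (starRingEnd ℂ) (gm w (x.1 + x.2)) ^ 2))

noncomputable def FB (a b : ℤ × ℤ) (w : ℝ) : ℂ := ∑' x, FBterm a b w x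

/-- the conjugate of the `F`-term -/
noncomputable def Fbt (w : ℝ) (x : (ℤ × ℤ) × (ℤ × ℤ)) : ℂ :=
  ui w x.1 ^ 2 * (ui w x.2 * ub w x.2) * ub w (x.1 + x.2) ^ 2
    + (ui w x.1 * ub w x.1) * ui w x.2 ^ 2 * ub w (x.1 + x.2) ^ 2

lemma conj_Ft (w : ℝ) (x : (ℤ × ℤ) × (ℤ × ℤ)) : (starRingEnd ℂ) (Ft w x) = Fbt w x := by
  simp only [Ft, Fbt, map_add, map_mul, map_pow, conj_ui, conj_ub]
  ring

lemma norm_Fbt_le (w : ℝ) (x : (ℤ × ℤ) × (ℤ × ℤ)) : ‖Fbt w x‖ ≤ 2 * MM w x := by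
  rw [← conj_Ft, RCLike.norm_conj]
  exact norm_Ft_le w x

lemma DTterm_eq (a b : ℤ × ℤ) (w : ℝ) (x : (ℤ × ℤ) × (ℤ × ℤ)) :
    DTterm a b w x = ch a x.1 * ch b x.2 * Dt w x := by
  simp only [DTterm, Dt, ui, ub, div_eq_mul_inv, mul_inv, inv_pow, one_mul]
  ring

lemma FTterm_eq (a b : ℤ × ℤ) (w : ℝ) (x : (ℤ × ℤ) × (ℤ × ℤ)) :
    FTterm a b w x = ch a x.1 * ch b x.2 * Ft w x := by
  simp only [FTterm, Ft, ui, ub, div_eq_mul_inv, mul_inv, inv_pow, one_mul]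

lemma FBterm_eq (a b : ℤ × ℤ) (w : ℝ) (x : (ℤ × ℤ) × (ℤ × ℤ)) :
    FBterm a b w x = ch a x.1 * ch b x.2 * Fbt w x := by
  simp only [FBterm, Fbt, ui, ub, div_eq_mul_inv, mul_inv, inv_pow, one_mul]

lemma summable_DTterm {w : ℝ} (hw : 0 < w) (a b : ℤ × ℤ) : Summable (DTterm a b w) :=
  (summable_Dt hw a b).congr (fun x => (DTterm_eq a b w x).symm)

lemma summable_FTterm {w : ℝ} (hw : 0 < w) (a b : ℤ × ℤ) : Summable (FTterm a b w) :=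
  (summable_Ft hw a b).congr (fun x => (FTterm_eq a b w x).symm)

lemma summable_FBterm {w : ℝ} (hw : 0 < w) (a b : ℤ × ℤ) : Summable (FBterm a b w) :=
  summable_of_le_MM hw (C := 2) (fun x => by
    rw [FBterm_eq, norm_ch_mul]; exact norm_Fbt_le w x)

/-- for a good character, `ch a τ = 1` only if `a = 0` -/
lemma ch_tau_ne_one {a : ℤ × ℤ} (ha : ¬ (6 ∣ a.1)) : ch a (1, 0) ≠ 1 := by
  intro h
  rw [ch] at h
  rw [exp_eq_one_iff] at h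
  obtain ⟨n, hn⟩ := h
  apply ha
  refine ⟨n, ?_⟩
  have hpi : (2 * (Real.pi : ℂ) * I) ≠ 0 := two_pi_I_ne_zero
  have h2 : (2 * (Real.pi : ℂ) * I) * (a.1 : ℂ) = (2 * (Real.pi : ℂ) * I) * (6 * n : ℂ) := by
    have e : ((a.1 * (1 : ℤ) + a.2 * (0 : ℤ) : ℤ) : ℂ) = (a.1 : ℂ) := by push_cast; ring
    simp only at hn
    rw [e] at hn
    linear_combination 6 * hn
  have h3 := mul_left_cancel₀ hpi h2
  exact_mod_cast h3

end Pool.RV
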