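import Pool.Agent.Work.MP_5955e5_nt.B.BDefs

/-!
# Cell RV, block (b): the cocycle lemma for the regularised one-loop sums of weight 2 (helper52)

For `F = g^(-p) conj(g)^(-q)` with `p + q = 2` the sum over `v` of `χ(v) (F(v) - F(v - h))`
converges absolutely for every lattice vector `h`, and equals `(1 - χ(h)) Kreg p q χ`.
-/

set_option autoImplicit false

open Complex

namespace Pool.RV

/-- `g^(-p) conj(g)^(-q)` -/
noncomputable def F2 (p q : ℕ) (w : ℝ) (v : ℤ × ℤ) : ℂ := ui w v ^ p * ub w v ^ q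

lemma F2_eq (p q : ℕ) (w : ℝ) (v : ℤ × ℤ) :
    F2 p q w v = 1 / (gm w v ^ p * (starRingEnd ℂ) (gm w v) ^ q) := by
  rw [F2, ui, ub, one_div, mul_inv, inv_pow, inv_pow]

lemma norm_F2 (p q : ℕ) (w : ℝ) (v : ℤ × ℤ) : ‖F2 p q w v‖ = an w v ^ (p + q) := by
  rw [F2, norm_mul, norm_pow, norm_pow, norm_ui, norm_ub, pow_add]

lemma F2_zero {p q : ℕ} (h2 : p + q = 2) (w : ℝ) : F2 p q w 0 = 0 := by
  rw [← norm_eq_zero, norm_F2, h2, an_zero]
  norm_num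

lemma F2_neg {p q : ℕ} (h2 : p + q = 2) (w : ℝ) (v : ℤ × ℤ) : F2 p q w (-v) = F2 p q w v := by
  have h : (p = 0 ∧ q = 2) ∨ (p = 1 ∧ q = 1) ∨ (p = 2 ∧ q = 0) := by omega
  rcases h with ⟨rfl, rfl⟩ | ⟨rfl, rfl⟩ | ⟨rfl, rfl⟩ <;>
  · simp only [F2, ui_neg, ub_neg]
    ring

lemma norm_gm_mul_an3 (w : ℝ) (v : ℤ × ℤ) : ‖gm w v‖ * an w v ^ 3 = an w v ^ 2 := by
  rw [an]
  by_cases h : ‖gm w v‖ = 0
  · rw [h]; simp
  · field_simp

lemma ui_sub_ui {w : ℝ} (hw : 0 < w) {v h : ℤ × ℤ} (hv : v ≠ 0) (hvh : v - h ≠ 0) :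
    ui w v - ui w (v - h) = -(gm w h * ui w v * ui w (v - h)) := by
  have h1 := gm_ne_zero hw hv
  have h2 := gm_ne_zero hw hvh
  rw [gm_sub] at h2
  rw [ui, ui, gm_sub]
  field_simp
  ring

lemma ub_sub_ub {w : ℝ} (hw : 0 < w) {v h : ℤ × ℤ} (hv : v ≠ 0) (hvh : v - h ≠ 0) :
    ub w v - ub w (v - h) = -((starRingEnd ℂ) (gm w h) * ub w v * ub w (v - h)) := by
  have := congrArg (starRingEnd ℂ) (ui_sub_ui hw hv hvh)
  simpa only [map_sub, map_neg, map_mul, conj_ui] using this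

lemma norm_ui_sub {w : ℝ} (hw : 0 < w) {v h : ℤ × ℤ} (hv : v ≠ 0) (hvh : v - h ≠ 0) :
    ‖ui w v - ui w (v - h)‖ = ‖gm w h‖ * an w v * an w (v - h) := by
  rw [ui_sub_ui hw hv hvh, norm_neg, norm_mul, norm_mul, norm_ui, norm_ui]

lemma norm_ub_sub {w : ℝ} (hw : 0 < w) {v h : ℤ × ℤ} (hv : v ≠ 0) (hvh : v - h ≠ 0) :
    ‖ub w v - ub w (v - h)‖ = ‖gm w h‖ * an w v * an w (v - h) := by
  rw [ub_sub_ub hw hv hvh, norm_neg, norm_mul, norm_mul, norm_ub, norm_ub, RCLike.norm_conj]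

lemma norm_mul_sub_mul_le {A A' B B' : ℂ} {a b z : ℝ} (ha : 0 ≤ a) (hb : 0 ≤ b) (hz : 0 ≤ z)
    (hB : ‖B‖ = a) (hA' : ‖A'‖ = b) (h1 : ‖A - A'‖ = z * a * b) (h2 : ‖B - B'‖ = z * a * b) :
    ‖A * B - A' * B'‖ ≤ 2 * z * (a ^ 3 + b ^ 3) := by
  have e : A * B - A' * B' = (A - A') * B + A' * (B - B') := by ring
  rw [e]
  refine (norm_add_le _ _).trans ?_
  rw [norm_mul, norm_mul, h1, h2, hB, hA']
  have h3 := amgm12 ha hb
  have h4 := amgm12 hb ha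
  have h5 := mul_le_mul_of_nonneg_left (add_le_add h3 h4) hz
  nlinarith [h5]

/-- the difference bound in weight `2` -/
lemma norm_F2_sub_le {w : ℝ} (hw : 0 < w) {p q : ℕ} (h2 : p + q = 2) (v h : ℤ × ℤ) :
    ‖F2 p q w v - F2 p q w (v - h)‖ ≤ 2 * ‖gm w h‖ * (an w v ^ 3 + an w (v - h) ^ 3) := by
  by_cases hv : v = 0
  · subst hv
    rw [F2_zero h2, zero_sub, zero_sub, norm_neg, norm_F2, h2, an_zero, an_neg,
      ← norm_gm_mul_an3]
    have : 0 ≤ ‖gm w h‖ * an w h ^ 3 :=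
      mul_nonneg (norm_nonneg _) (pow_nonneg (an_nonneg w h) 3)
    nlinarith [this]
  by_cases hvh : v - h = 0
  · rw [hvh, F2_zero h2, sub_zero, norm_F2, h2, an_zero]
    have : v = h := sub_eq_zero.mp hvh
    subst this
    rw [← norm_gm_mul_an3]
    have : 0 ≤ ‖gm w v‖ * an w v ^ 3 :=
      mul_nonneg (norm_nonneg _) (pow_nonneg (an_nonneg w v) 3)
    nlinarith [this]
  have h3 : (p = 0 ∧ q = 2) ∨ (p = 1 ∧ q = 1) ∨ (p = 2 ∧ q = 0) := by omega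
  rcases h3 with ⟨rfl, rfl⟩ | ⟨rfl, rfl⟩ | ⟨rfl, rfl⟩
  · simp only [F2, pow_zero, one_mul, pow_two]
    exact norm_mul_sub_mul_le (an_nonneg _ _) (an_nonneg _ _) (norm_nonneg _) (norm_ub _ _)
      (norm_ub _ _) (norm_ub_sub hw hv hvh) (norm_ub_sub hw hv hvh)
  · simp only [F2, pow_one]
    exact norm_mul_sub_mul_le (an_nonneg _ _) (an_nonneg _ _) (norm_nonneg _) (norm_ub _ _)
      (norm_ui _ _) (norm_ui_sub hw hv hvh) (norm_ub_sub hw hv hvh)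
  · simp only [F2, pow_zero, mul_one, pow_two]
    exact norm_mul_sub_mul_le (an_nonneg _ _) (an_nonneg _ _) (norm_nonneg _) (norm_ui _ _)
      (norm_ui _ _) (norm_ui_sub hw hv hvh) (norm_ui_sub hw hv hvh)

lemma summable_F2_sub {w : ℝ} (hw : 0 < w) {p q : ℕ} (h2 : p + q = 2) (a h : ℤ × ℤ) :
    Summable fun v : ℤ × ℤ => ch a v * (F2 p q w v - F2 p q w (v - h)) := by
  have h1 : Summable fun v : ℤ × ℤ => an w (v - h) ^ 3 :=
    (Equiv.subRight h).summable_iff.mpr (summable_an3 hw)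
  refine Summable.of_norm_bounded (((summable_an3 hw).add h1).mul_left (2 * ‖gm w h‖)) ?_
  intro v
  rw [norm_mul, norm_ch, one_mul]
  exact norm_F2_sub_le hw h2 v h

/-- the cocycle -/
noncomputable def Cc (p q : ℕ) (a : ℤ × ℤ) (w : ℝ) (h : ℤ × ℤ) : ℂ :=
  ∑' v : ℤ × ℤ, ch a v * (F2 p q w v - F2 p q w (v - h))

lemma Cc_add {w : ℝ} (hw : 0 < w) {p q : ℕ} (h2 : p + q = 2) (a h k : ℤ × ℤ) :
    Cc p q a w (h + k) = Cc p q a w h + ch a h * Cc p q a w k := by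
  have hs : Summable fun v : ℤ × ℤ => ch a h * (ch a (v - h) *
            (F2 p q w (v - h) - F2 p q w (v - h - k))) :=
    ((Equiv.subRight h).summable_iff.mpr (summable_F2_sub hw h2 a k)).mul_left (ch a h)
  have e : Cc p q a w (h + k)
      = (∑' v : ℤ × ℤ, ch a v * (F2 p q w v - F2 p q w (v - h)))
        + ∑' v : ℤ × ℤ, ch a h * (ch a (v - h) *
            (F2 p q w (v - h) - F2 p q w (v - h - k))) := by
    rw [← Summable.tsum_add (summable_F2_sub hw h2 a h) hs, Cc]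
    refine tsum_congr (fun v => ?_)
    have e1 : ch a v = ch a h * ch a (v - h) := by
      rw [← ch_add_right]
      congr 1
      abel
    rw [← mul_assoc, ← e1, sub_add_eq_sub_sub]
    ring
  rw [e, tsum_mul_left]
  congr 2
  exact (Equiv.subRight h).tsum_eq (fun v => ch a v * (F2 p q w v - F2 p q w (v - k)))

lemma Kreg_eq (p q : ℕ) (a : ℤ × ℤ) (w : ℝ) :
    Kreg p q a w = (1 - ch a (1, 0))⁻¹ * Cc p q a w (1, 0) := by
  rw [Kreg, Cc]
  congr 1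
  exact tsum_congr (fun v => by rw [F2_eq, F2_eq])

lemma Cc_eq_of_ne {w : ℝ} (hw : 0 < w) {p q : ℕ} (h2 : p + q = 2) {a : ℤ × ℤ}
    (ha : ch a (1, 0) ≠ 1) (h : ℤ × ℤ) :
    Cc p q a w h = (1 - ch a h) * Kreg p q a w := by
  have h1 := Cc_add hw h2 a h (1, 0)
  have h3 := Cc_add hw h2 a (1, 0) h
  rw [add_comm (1, 0) h, h1] at h3
  have h4 : 1 - ch a (1, 0) ≠ 0 := sub_ne_zero.mpr (Ne.symm ha)
  rw [Kreg_eq]
  field_simp
  linear_combination h3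

lemma Cc_zero_char {w : ℝ} (hw : 0 < w) {p q : ℕ} (h2 : p + q = 2) (h : ℤ × ℤ) :
    Cc p q 0 w h = 0 := by
  have h0 : Cc p q 0 w 0 = 0 := by
    simp [Cc]
  have h1 := Cc_add hw h2 0 h (-h)
  rw [add_neg_cancel, h0, ch_zero_left, one_mul] at h1
  have h3 : Cc p q 0 w (-h) = Cc p q 0 w h := by
    rw [Cc, Cc, ← (Equiv.neg (ℤ × ℤ)).tsum_eq]
    refine tsum_congr (fun v => ?_)
    simp only [Equiv.neg_apply]
    rw [ch_zero_left, ch_zero_left, F2_neg h2]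
    have : -v - -h = -(v - h) := by abel
    rw [this, F2_neg h2]
  rw [h3] at h1
  have h4 : (2 : ℂ) * Cc p q 0 w h = 0 := by linear_combination -h1
  exact (mul_eq_zero.mp h4).resolve_left two_ne_zero

/-- the cocycle lemma -/
lemma Cc_eq {w : ℝ} (hw : 0 < w) {p q : ℕ} (h2 : p + q = 2) {a : ℤ × ℤ} (ha : Good a)
    (h : ℤ × ℤ) : Cc p q a w h = (1 - ch a h) * Kreg p q a w := by
  rcases ha with rfl | ha
  · rw [Cc_zero_char hw h2, ch_zero_left, sub_self, zero_mul]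
  · exact Cc_eq_of_ne hw h2 (ch_tau_ne_one ha) h

lemma hasSum_F2_sub {w : ℝ} (hw : 0 < w) {p q : ℕ} (h2 : p + q = 2) {a : ℤ × ℤ} (ha : Good a)
    (h : ℤ × ℤ) :
    HasSum (fun v : ℤ × ℤ => ch a v * (F2 p q w v - F2 p q w (v - h)))
      ((1 - ch a h) * Kreg p q a w) := by
  rw [← Cc_eq hw h2 ha h]
  exact (summable_F2_sub hw h2 a h).hasSum

/-- the form used for the two-loop sums -/
lemma hasSum_F2_add {w : ℝ} (hw : 0 < w) {p q : ℕ} (h2 : p + q = 2) {a : ℤ × ℤ} (ha : Good a)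
    (h : ℤ × ℤ) :
    HasSum (fun v : ℤ × ℤ => ch a v * (F2 p q w v - F2 p q w (v + h)))
      ((1 - ch a (-h)) * Kreg p q a w) := by
  have := hasSum_F2_sub hw h2 ha (-h)
  simpa only [sub_neg_eq_add] using this

end Pool.RV
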