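import Pool.Agent.Work.MP_5955e5_nt.B.Deriv1

/-!
# Cell RV, block (b1): the derivative of the two-loop sums (helper12)
-/

set_option autoImplicit false

open Complex

namespace Pool.RV

/-- the rational function of the two-loop term -/
noncomputable def tm (w : ℝ) (x : (ℤ × ℤ) × (ℤ × ℤ)) : ℂ :=
  mon 1 1 (gm w x.1) * mon 1 1 (gm w x.2) * mon 2 0 (gm w (x.1 + x.2))

/-- the sum of the three logarithmic derivative factors -/
noncomputable def lm (w : ℝ) (x : (ℤ × ℤ) × (ℤ × ℤ)) : ℂ :=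
  ldf 1 1 (gm w x.1) + ldf 1 1 (gm w x.2) + ldf 2 0 (gm w (x.1 + x.2))

theorem Tterm_eq_tm (a b : ℤ × ℤ) (w : ℝ) (x : (ℤ × ℤ) × (ℤ × ℤ)) :
    Tterm a b w x = ch a x.1 * ch b x.2 * tm w x := by
  rw [Tterm, tm, mon, mon, mon, ← mul_conj, ← mul_conj]
  simp only [pow_one, pow_zero, mul_one, one_div]
  rw [div_eq_mul_inv, mul_inv, mul_inv]

theorem norm_tm (w : ℝ) (x : (ℤ × ℤ) × (ℤ × ℤ)) :
    ‖tm w x‖ = an w x.1 ^ 2 * an w x.2 ^ 2 * an w (x.1 + x.2) ^ 2 := by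
  rw [tm, norm_mul, norm_mul, norm_mon_gm, norm_mon_gm, norm_mon_gm]

theorem norm_lm_le (w : ℝ) (x : (ℤ × ℤ) × (ℤ × ℤ)) : ‖lm w x‖ ≤ 12 := by
  rw [lm]
  have h1 := norm_ldf_le 1 1 (gm w x.1)
  have h2 := norm_ldf_le 1 1 (gm w x.2)
  have h3 := norm_ldf_le 2 0 (gm w (x.1 + x.2))
  push_cast at h1 h2 h3
  calc ‖ldf 1 1 (gm w x.1) + ldf 1 1 (gm w x.2) + ldf 2 0 (gm w (x.1 + x.2))‖
      ≤ ‖ldf 1 1 (gm w x.1)‖ + ‖ldf 1 1 (gm w x.2)‖ + ‖ldf 2 0 (gm w (x.1 + x.2))‖ :=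
        norm_add₃_le
    _ ≤ 12 := by linarith

theorem hasDerivAt_tm {w : ℝ} (hw : 0 < w) (x : (ℤ × ℤ) × (ℤ × ℤ)) :
    HasDerivAt (fun t : ℝ => tm t x) (1 / (2 * w) * (tm w x * lm w x)) w := by
  have h1 := hasDerivAt_mon hw (p := 1) (q := 1) (by norm_num) x.1
  have h2 := hasDerivAt_mon hw (p := 1) (q := 1) (by norm_num) x.2
  have h3 := hasDerivAt_mon hw (p := 2) (q := 0) (by norm_num) (x.1 + x.2)
  refine ((h1.mul h2).mul h3).congr_deriv ?_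
  simp only [Pi.mul_apply]
  rw [tm, lm]
  ring

theorem norm_deriv_tm_le {w1 w : ℝ} (h1 : 0 < w1) (h : w1 ≤ w) (x : (ℤ × ℤ) × (ℤ × ℤ)) :
    ‖(1 / (2 * w) * (tm w x * lm w x) : ℂ)‖ ≤ 6 / w1 * MM w1 x := by
  rw [norm_mul, norm_mul, norm_tm]
  have h2 := norm_lm_le w x
  have h4 := norm_inv_two_w h1 h
  have e1 := an_anti h1 h x.1
  have e2 := an_anti h1 h x.2
  have e3 := an_anti h1 h (x.1 + x.2)
  have n1 := an_nonneg w x.1
  have n2 := an_nonneg w x.2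
  have n3 := an_nonneg w (x.1 + x.2)
  have hM := an222_le w1 x
  have m1 := an_nonneg w1 x.1
  have m2 := an_nonneg w1 x.2
  have m3 := an_nonneg w1 (x.1 + x.2)
  calc ‖(1 / (2 * w) : ℂ)‖ * (an w x.1 ^ 2 * an w x.2 ^ 2 * an w (x.1 + x.2) ^ 2 * ‖lm w x‖)
      ≤ 1 / (2 * w1) * (an w1 x.1 ^ 2 * an w1 x.2 ^ 2 * an w1 (x.1 + x.2) ^ 2 * 12) := by gcongr
    _ ≤ 1 / (2 * w1) * (MM w1 x * 12) := by gcongr
    _ = 6 / w1 * MM w1 x := by field_simp; ring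

theorem hasDerivAt_T_raw {w : ℝ} (hw : 0 < w) (a b : ℤ × ℤ) :
    HasDerivAt (fun w : ℝ => T a b w)
      (∑' x : (ℤ × ℤ) × (ℤ × ℤ), ch a x.1 * ch b x.2 * (1 / (2 * w) * (tm w x * lm w x))) w := by
  have hw1 : 0 < w / 2 := by positivity
  have hmem : w ∈ Set.Ioi (w / 2) := half_lt_self hw
  have hsum : Summable fun x : (ℤ × ℤ) × (ℤ × ℤ) => 6 / (w / 2) * MM (w / 2) x :=
    (summable_MM hw1).mul_left _
  have e : (fun w : ℝ => T a b w)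
      = fun w : ℝ => ∑' x : (ℤ × ℤ) × (ℤ × ℤ), ch a x.1 * ch b x.2 * tm w x := by
    funext t
    rw [T]
    exact tsum_congr (fun x => Tterm_eq_tm a b t x)
  rw [e]
  have hg : ∀ (x : (ℤ × ℤ) × (ℤ × ℤ)) (y : ℝ), y ∈ Set.Ioi (w / 2) →
      HasDerivAt (fun t : ℝ => ch a x.1 * ch b x.2 * tm t x)
        (ch a x.1 * ch b x.2 * (1 / (2 * y) * (tm y x * lm y x))) y := by
    intro x y hy
    have hy0 : 0 < y := hw1.trans hy
    exact (hasDerivAt_tm hy0 x).const_mul _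
  have hg' : ∀ (x : (ℤ × ℤ) × (ℤ × ℤ)) (y : ℝ), y ∈ Set.Ioi (w / 2) →
      ‖ch a x.1 * ch b x.2 * (1 / (2 * y) * (tm y x * lm y x))‖ ≤ 6 / (w / 2) * MM (w / 2) x := by
    intro x y hy
    rw [norm_ch_mul]
    exact norm_deriv_tm_le hw1 (le_of_lt hy) x
  have h0 : Summable fun x : (ℤ × ℤ) × (ℤ × ℤ) => ch a x.1 * ch b x.2 * tm w x :=
    (summable_Tterm hw a b).congr (fun x => Tterm_eq_tm a b w x)
  exact hasDerivAt_tsum_of_isPreconnected hsum isOpen_Ioi isPreconnected_Ioi hg hg' hmem h0 hmem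

theorem tm_lm {w : ℝ} (a b : ℤ × ℤ) (x : (ℤ × ℤ) × (ℤ × ℤ)) :
    ch a x.1 * ch b x.2 * (tm w x * (lm w x + 6)) = DTterm a b w x + FTterm a b w x := by
  rw [DTterm, FTterm, ← mul_add]
  congr 1
  rw [tm, lm]
  unfold mon ldf
  generalize gm w x.1 = g1
  generalize gm w x.2 = g2
  generalize gm w (x.1 + x.2) = g3
  rcases eq_or_ne g1 0 with rfl | h1
  · simp
  rcases eq_or_ne g2 0 with rfl | h2
  · simp
  rcases eq_or_ne g3 0 with rfl | h3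
  · simp
  have c1 : (starRingEnd ℂ) g1 ≠ 0 := (map_ne_zero _).mpr h1
  have c2 : (starRingEnd ℂ) g2 ≠ 0 := (map_ne_zero _).mpr h2
  have c3 : (starRingEnd ℂ) g3 ≠ 0 := (map_ne_zero _).mpr h3
  push_cast
  field_simp
  ring

/-- (b1): the derivative of the two-loop sums -/
theorem hasDerivAt_T {w : ℝ} (hw : 0 < w) (a b : ℤ × ℤ) :
    HasDerivAt (fun w : ℝ => (w : ℂ) ^ 3 * T a b w)
      ((w : ℂ) ^ 2 / 2 * (DT a b w + FT a b w)) w := by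
  have hw' : (w : ℂ) ≠ 0 := by exact_mod_cast hw.ne'
  have h1 : HasDerivAt (fun t : ℝ => (t : ℂ)) 1 w := (hasDerivAt_id w).ofReal_comp
  have h2 := (h1.pow 3).mul (hasDerivAt_T_raw hw a b)
  refine h2.congr_deriv ?_
  have sT : Summable fun x : (ℤ × ℤ) × (ℤ × ℤ) => ch a x.1 * ch b x.2 * tm w x :=
    (summable_Tterm hw a b).congr (fun x => Tterm_eq_tm a b w x)
  have sD : Summable fun x : (ℤ × ℤ) × (ℤ × ℤ) =>
      ch a x.1 * ch b x.2 * (1 / (2 * w) * (tm w x * lm w x)) := by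
    refine Summable.of_norm_bounded ((summable_MM hw).mul_left (6 / w)) (fun x => ?_)
    rw [norm_ch_mul]
    exact norm_deriv_tm_le hw le_rfl x
  have eT : T a b w = ∑' x : (ℤ × ℤ) × (ℤ × ℤ), ch a x.1 * ch b x.2 * tm w x := by
    rw [T]
    exact tsum_congr (fun x => Tterm_eq_tm a b w x)
  rw [DT, FT, ← (summable_DTterm hw a b).tsum_add (summable_FTterm hw a b), ← tsum_mul_left, eT]
  simp only [Pi.pow_apply]
  rw [← tsum_mul_left, ← tsum_mul_left, ← (sT.mul_left _).tsum_add (sD.mul_left _)]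
  refine tsum_congr (fun x => ?_)
  rw [← tm_lm]
  push_cast
  field_simp
  ring

end Pool.RV
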