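import Pool.Agent.Work.MP_5955e5_nt.B.Deriv1

/-!
# Cell RV, block (b4): the derivative of the regularised sum `Kreg 1 1` (helper12)
-/

set_option autoImplicit false

open Complex

namespace Pool.RV

theorem norm_num_le {p q : ℕ} (h : p + q = 2) (z z' : ℂ) :
    ‖z' ^ p * (starRingEnd ℂ) z' ^ q - z ^ p * (starRingEnd ℂ) z ^ q‖
      ≤ ‖z - z'‖ * (‖z‖ + ‖z'‖) := by
  have hp : p = 0 ∨ p = 1 ∨ p = 2 := by omega
  have hc : ‖(starRingEnd ℂ) z' - (starRingEnd ℂ) z‖ = ‖z - z'‖ := by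
    rw [← map_sub, RCLike.norm_conj, norm_sub_rev]
  rcases hp with rfl | rfl | rfl
  · obtain rfl : q = 2 := by omega
    have e : z' ^ 0 * (starRingEnd ℂ) z' ^ 2 - z ^ 0 * (starRingEnd ℂ) z ^ 2
        = ((starRingEnd ℂ) z' - (starRingEnd ℂ) z) * ((starRingEnd ℂ) z + (starRingEnd ℂ) z') := by
      ring
    rw [e, norm_mul, hc]
    gcongr
    refine (norm_add_le _ _).trans ?_
    rw [RCLike.norm_conj, RCLike.norm_conj]
  · obtain rfl : q = 1 := by omega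
    have e : z' ^ 1 * (starRingEnd ℂ) z' ^ 1 - z ^ 1 * (starRingEnd ℂ) z ^ 1
        = (z' - z) * (starRingEnd ℂ) z' + z * ((starRingEnd ℂ) z' - (starRingEnd ℂ) z) := by
      ring
    rw [e]
    refine (norm_add_le _ _).trans ?_
    rw [norm_mul, norm_mul, hc, RCLike.norm_conj, norm_sub_rev z' z]
    nlinarith [norm_nonneg (z - z')]
  · obtain rfl : q = 0 := by omega
    have e : z' ^ 2 * (starRingEnd ℂ) z' ^ 0 - z ^ 2 * (starRingEnd ℂ) z ^ 0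
        = (z' - z) * (z + z') := by
      ring
    rw [e, norm_mul, norm_sub_rev z' z]
    gcongr
    exact norm_add_le _ _

theorem norm_mon_sub_le {p q : ℕ} (h : p + q = 2) {z z' : ℂ} (hz : z ≠ 0) (hz' : z' ≠ 0) :
    ‖mon p q z - mon p q z'‖
      ≤ ‖z - z'‖ * (‖z‖⁻¹ * ‖z'‖⁻¹ ^ 2 + ‖z‖⁻¹ ^ 2 * ‖z'‖⁻¹) := by
  have hc : (starRingEnd ℂ) z ≠ 0 := (map_ne_zero _).mpr hz
  have hc' : (starRingEnd ℂ) z' ≠ 0 := (map_ne_zero _).mpr hz'
  have hn : 0 < ‖z‖ := norm_pos_iff.mpr hz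
  have hn' : 0 < ‖z'‖ := norm_pos_iff.mpr hz'
  have e : mon p q z - mon p q z'
      = (z' ^ p * (starRingEnd ℂ) z' ^ q - z ^ p * (starRingEnd ℂ) z ^ q) *
        (mon p q z * mon p q z') := by
    unfold mon
    field_simp
  rw [e, norm_mul, norm_mul, norm_mon, norm_mon, h]
  calc ‖z' ^ p * (starRingEnd ℂ) z' ^ q - z ^ p * (starRingEnd ℂ) z ^ q‖ *
        ((‖z‖ ^ 2)⁻¹ * (‖z'‖ ^ 2)⁻¹)
      ≤ ‖z - z'‖ * (‖z‖ + ‖z'‖) * ((‖z‖ ^ 2)⁻¹ * (‖z'‖ ^ 2)⁻¹) := by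
        gcongr
        exact norm_num_le h z z'
    _ = ‖z - z'‖ * (‖z‖⁻¹ * ‖z'‖⁻¹ ^ 2 + ‖z‖⁻¹ ^ 2 * ‖z'‖⁻¹) := by
        field_simp

/-- the majorant of the differences `F(g) - F(g - τ)`, `F` of weight 2 -/
noncomputable def dmaj (H w1 : ℝ) (v : ℤ × ℤ) : ℝ :=
  2 * H * (an w1 v ^ 3 + an w1 (v - (1, 0)) ^ 3)
    + ((if v = 0 then an w1 (v - (1, 0)) ^ 2 else 0) + (if v = (1, 0) then an w1 v ^ 2 else 0))

theorem summable_dmaj {w1 : ℝ} (hw1 : 0 < w1) (H : ℝ) : Summable (dmaj H w1) := by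
  have h1 := summable_an3 hw1
  have h2 : Summable fun v : ℤ × ℤ => an w1 (v - (1, 0)) ^ 3 :=
    (Equiv.subRight ((1, 0) : ℤ × ℤ)).summable_iff.mpr h1
  have h3 : Summable fun v : ℤ × ℤ => if v = 0 then an w1 (v - (1, 0)) ^ 2 else 0 := by
    refine summable_of_finite_support ((Set.finite_singleton (0 : ℤ × ℤ)).subset ?_)
    intro v hv
    by_contra hne
    exact hv (if_neg hne)
  have h4 : Summable fun v : ℤ × ℤ => if v = (1, 0) then an w1 v ^ 2 else 0 := by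
    refine summable_of_finite_support ((Set.finite_singleton ((1, 0) : ℤ × ℤ)).subset ?_)
    intro v hv
    by_contra hne
    exact hv (if_neg hne)
  exact ((h1.add h2).mul_left (2 * H)).add (h3.add h4)

theorem amgm_cube {A B : ℝ} (hA : 0 ≤ A) (hB : 0 ≤ B) :
    A * B ^ 2 + A ^ 2 * B ≤ 2 * (A ^ 3 + B ^ 3) := by
  nlinarith [mul_nonneg (add_nonneg hA hB) (sq_nonneg (A - B)), pow_nonneg hA 3, pow_nonneg hB 3]

theorem norm_mon_diff_le {w1 y H : ℝ} (h1 : 0 < w1) (hy : w1 ≤ y) (hH : ‖gm y (1, 0)‖ ≤ H)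
    {p q : ℕ} (h : p + q = 2) (v : ℤ × ℤ) :
    ‖mon p q (gm y v) - mon p q (gm y (v - (1, 0)))‖ ≤ dmaj H w1 v := by
  have hy0 : 0 < y := h1.trans_le hy
  have hH0 : 0 ≤ H := (norm_nonneg _).trans hH
  have a1 := an_anti h1 hy v
  have a2 := an_anti h1 hy (v - (1, 0))
  have b1 := an_nonneg y v
  have b2 := an_nonneg y (v - (1, 0))
  have c1 := an_nonneg w1 v
  have c2 := an_nonneg w1 (v - (1, 0))
  rcases eq_or_ne v 0 with hv | hv
  · have e1 : mon p q (gm y v) = 0 := by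
      rw [hv, gm_zero, mon_zero_left (by omega)]
    rw [e1, zero_sub, norm_neg, norm_mon_gm, h, dmaj, if_pos hv]
    have e2 : v ≠ (1, 0) := by rw [hv]; decide
    rw [if_neg e2]
    have : an y (v - (1, 0)) ^ 2 ≤ an w1 (v - (1, 0)) ^ 2 := pow_le_pow_left₀ b2 a2 2
    have h5 : 0 ≤ 2 * H * (an w1 v ^ 3 + an w1 (v - (1, 0)) ^ 3) := by positivity
    linarith
  rcases eq_or_ne v (1, 0) with hv' | hv'
  · have e1 : mon p q (gm y (v - (1, 0))) = 0 := by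
      rw [hv', sub_self, gm_zero, mon_zero_left (by omega)]
    rw [e1, sub_zero, norm_mon_gm, h, dmaj, if_neg hv, if_pos hv']
    have : an y v ^ 2 ≤ an w1 v ^ 2 := pow_le_pow_left₀ b1 a1 2
    have h5 : 0 ≤ 2 * H * (an w1 v ^ 3 + an w1 (v - (1, 0)) ^ 3) := by positivity
    linarith
  · have hz : gm y v ≠ 0 := gm_ne_zero hy0 hv
    have hz' : gm y (v - (1, 0)) ≠ 0 := gm_ne_zero hy0 (sub_ne_zero.mpr hv')
    rw [dmaj, if_neg hv, if_neg hv', add_zero, add_zero]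
    refine (norm_mon_sub_le h hz hz').trans ?_
    have e3 : gm y v - gm y (v - (1, 0)) = gm y (1, 0) := by
      rw [gm_sub]; ring
    rw [e3]
    have e4 : ‖gm y v‖⁻¹ = an y v := rfl
    have e5 : ‖gm y (v - (1, 0))‖⁻¹ = an y (v - (1, 0)) := rfl
    rw [e4, e5]
    calc ‖gm y (1, 0)‖ * (an y v * an y (v - (1, 0)) ^ 2 + an y v ^ 2 * an y (v - (1, 0)))
        ≤ H * (an w1 v * an w1 (v - (1, 0)) ^ 2 + an w1 v ^ 2 * an w1 (v - (1, 0))) := by
          gcongr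
      _ ≤ H * (2 * (an w1 v ^ 3 + an w1 (v - (1, 0)) ^ 3)) := by
          gcongr
          exact amgm_cube c1 c2
      _ = 2 * H * (an w1 v ^ 3 + an w1 (v - (1, 0)) ^ 3) := by ring

theorem summable_mon_diff {w : ℝ} (hw : 0 < w) {p q : ℕ} (h : p + q = 2) (a : ℤ × ℤ) :
    Summable fun v : ℤ × ℤ => ch a v * (mon p q (gm w v) - mon p q (gm w (v - (1, 0)))) := by
  refine Summable.of_norm_bounded (summable_dmaj hw ‖gm w (1, 0)‖) (fun v => ?_)
  rw [norm_mul, norm_ch, one_mul]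
  exact norm_mon_diff_le hw le_rfl le_rfl h v

theorem Kreg_eq_mon (p q : ℕ) (a : ℤ × ℤ) (w : ℝ) :
    Kreg p q a w = (1 - ch a (1, 0))⁻¹ *
      ∑' v : ℤ × ℤ, ch a v * (mon p q (gm w v) - mon p q (gm w (v - (1, 0)))) := rfl

/-- (b4) -/
theorem hasDerivAt_Kreg {w : ℝ} (hw : 0 < w) (a : ℤ × ℤ) :
    HasDerivAt (fun w : ℝ => Kreg 1 1 a w)
      ((1 / (w : ℂ)) * (- Kreg 1 1 a w + 1 / 2 * Kreg 2 0 a w + 1 / 2 * Kreg 0 2 a w)) w := by
  have hw1 : 0 < w / 2 := by positivity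
  have hw' : (w : ℂ) ≠ 0 := by exact_mod_cast hw.ne'
  have hmem : w ∈ Set.Ioo (w / 2) (2 * w) := ⟨half_lt_self hw, by linarith⟩
  set H : ℝ := ‖gm (2 * w) (1, 0)‖ with hHdef
  have hsum : Summable fun v : ℤ × ℤ => 4 / (2 * (w / 2)) * dmaj H (w / 2) v :=
    (summable_dmaj hw1 H).mul_left _
  have hg : ∀ (v : ℤ × ℤ) (y : ℝ), y ∈ Set.Ioo (w / 2) (2 * w) →
      HasDerivAt (fun t : ℝ => ch a v * (mon 1 1 (gm t v) - mon 1 1 (gm t (v - (1, 0)))))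
        (ch a v * (1 / (2 * y) * (mon 1 1 (gm y v) * ldf 1 1 (gm y v))
          - 1 / (2 * y) * (mon 1 1 (gm y (v - (1, 0))) * ldf 1 1 (gm y (v - (1, 0)))))) y := by
    intro v y hy
    have hy0 : 0 < y := hw1.trans hy.1
    exact ((hasDerivAt_mon hy0 (by norm_num) v).sub
      (hasDerivAt_mon hy0 (by norm_num) (v - (1, 0)))).const_mul (ch a v)
  have key : ∀ z : ℂ, mon 1 1 z * ldf 1 1 z = mon 2 0 z + mon 0 2 z - 2 * mon 1 1 z := by
    intro z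
    have := mon_mul_ldf' 0 0 z
    simp only [zero_add, Nat.cast_zero, one_mul] at this
    exact this
  have hg' : ∀ (v : ℤ × ℤ) (y : ℝ), y ∈ Set.Ioo (w / 2) (2 * w) →
      ‖ch a v * (1 / (2 * y) * (mon 1 1 (gm y v) * ldf 1 1 (gm y v))
          - 1 / (2 * y) * (mon 1 1 (gm y (v - (1, 0))) * ldf 1 1 (gm y (v - (1, 0)))))‖
        ≤ 4 / (2 * (w / 2)) * dmaj H (w / 2) v := by
    intro v y hy
    have hy0 : 0 < y := hw1.trans hy.1
    have hH : ‖gm y (1, 0)‖ ≤ H := norm_gm_mono hy0.le hy.2.le _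
    have d1 := norm_mon_diff_le hw1 hy.1.le hH (p := 2) (q := 0) rfl v
    have d2 := norm_mon_diff_le hw1 hy.1.le hH (p := 0) (q := 2) rfl v
    have d3 := norm_mon_diff_le hw1 hy.1.le hH (p := 1) (q := 1) rfl v
    have h4 := norm_inv_two_w hw1 hy.1.le
    rw [norm_mul, norm_ch, one_mul, ← mul_sub, key, key]
    have e : mon 2 0 (gm y v) + mon 0 2 (gm y v) - 2 * mon 1 1 (gm y v)
        - (mon 2 0 (gm y (v - (1, 0))) + mon 0 2 (gm y (v - (1, 0)))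
          - 2 * mon 1 1 (gm y (v - (1, 0))))
        = (mon 2 0 (gm y v) - mon 2 0 (gm y (v - (1, 0))))
          + (mon 0 2 (gm y v) - mon 0 2 (gm y (v - (1, 0))))
          - 2 * (mon 1 1 (gm y v) - mon 1 1 (gm y (v - (1, 0)))) := by ring
    rw [e, norm_mul]
    have n1 : ‖(mon 2 0 (gm y v) - mon 2 0 (gm y (v - (1, 0))))
          + (mon 0 2 (gm y v) - mon 0 2 (gm y (v - (1, 0))))
          - 2 * (mon 1 1 (gm y v) - mon 1 1 (gm y (v - (1, 0))))‖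
        ≤ 4 * dmaj H (w / 2) v := by
      refine (norm_sub_le _ _).trans ?_
      have n2 := norm_add_le (mon 2 0 (gm y v) - mon 2 0 (gm y (v - (1, 0))))
        (mon 0 2 (gm y v) - mon 0 2 (gm y (v - (1, 0))))
      have n3 : ‖2 * (mon 1 1 (gm y v) - mon 1 1 (gm y (v - (1, 0))))‖
          = 2 * ‖mon 1 1 (gm y v) - mon 1 1 (gm y (v - (1, 0)))‖ := by
        rw [norm_mul, Complex.norm_ofNat]
      rw [n3]
      linarith
    calc ‖(1 / (2 * y) : ℂ)‖ * _ ≤ 1 / (2 * (w / 2)) * (4 * dmaj H (w / 2) v) := by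
          gcongr
      _ = 4 / (2 * (w / 2)) * dmaj H (w / 2) v := by ring
  have hd := hasDerivAt_tsum_of_isPreconnected hsum isOpen_Ioo isPreconnected_Ioo hg hg' hmem
    (summable_mon_diff hw rfl a) hmem
  have e : (fun w : ℝ => Kreg 1 1 a w) = fun w : ℝ => (1 - ch a (1, 0))⁻¹ *
      ∑' v : ℤ × ℤ, ch a v * (mon 1 1 (gm w v) - mon 1 1 (gm w (v - (1, 0)))) := by
    funext t; exact Kreg_eq_mon 1 1 a t
  rw [e]
  refine (hd.const_mul _).congr_deriv ?_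
  have s1 := summable_mon_diff hw (p := 1) (q := 1) rfl a
  have s2 := summable_mon_diff hw (p := 2) (q := 0) rfl a
  have s3 := summable_mon_diff hw (p := 0) (q := 2) rfl a
  rw [Kreg_eq_mon, Kreg_eq_mon, Kreg_eq_mon]
  have f : ∑' v : ℤ × ℤ, ch a v * (1 / (2 * (w : ℂ)) * (mon 1 1 (gm w v) * ldf 1 1 (gm w v))
          - 1 / (2 * w) * (mon 1 1 (gm w (v - (1, 0))) * ldf 1 1 (gm w (v - (1, 0)))))
      = 1 / (2 * (w : ℂ)) *
        ((∑' v : ℤ × ℤ, ch a v * (mon 2 0 (gm w v) - mon 2 0 (gm w (v - (1, 0)))))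
        + (∑' v : ℤ × ℤ, ch a v * (mon 0 2 (gm w v) - mon 0 2 (gm w (v - (1, 0)))))
        - 2 * ∑' v : ℤ × ℤ, ch a v * (mon 1 1 (gm w v) - mon 1 1 (gm w (v - (1, 0))))) := by
    rw [← s2.tsum_add s3, ← tsum_mul_left (a := (2 : ℂ)), ← (s2.add s3).tsum_sub (s1.mul_left _),
      ← tsum_mul_left]
    refine tsum_congr (fun v => ?_)
    rw [key, key]
    ring
  rw [f]
  field_simp
  ring

end Pool.RV
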