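import Pool.Agent.Work.MP_5955e5_nt.B.Cocycle

/-!
# Cell RV, block (b): the product formulas for the derivative terms (helper52)
-/

set_option autoImplicit false

open Complex

namespace Pool.RV

lemma K_sub_comm_even {r s : ℕ} (h : r + s = 4) (a b : ℤ × ℤ) (w : ℝ) :
    K r s (b - a) w = K r s (a - b) w := by
  have := K_neg r s (a - b) w
  rw [neg_sub, h] at this
  rw [this]; norm_num

lemma K_sub_comm_odd {r s : ℕ} (h : r + s = 3) (a b : ℤ × ℤ) (w : ℝ) :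
    K r s (b - a) w = -K r s (a - b) w := by
  have := K_neg r s (a - b) w
  rw [neg_sub, h] at this
  rw [this]; norm_num

lemma ch_sub_mul (a b p q : ℤ × ℤ) : ch a (q - p) * ch b p = ch a q * ch (b - a) p := by
  rw [sub_eq_add_neg, ch_add_right, ch_neg_right, sub_eq_add_neg, ch_add_left, ch_neg_left]
  ring

/-! ### type (A): `χ_a(p) χ_b(q) G(q) (F(p) - F(p + q))` -/

lemma norm_typeA_le {w : ℝ} (hw : 0 < w) {p q r s : ℕ} (h2 : p + q = 2) (h4 : r + s = 4)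
    (x : (ℤ × ℤ) × (ℤ × ℤ)) :
    ‖ui w x.2 ^ r * ub w x.2 ^ s * (F2 p q w x.1 - F2 p q w (x.1 + x.2))‖ ≤ 2 * MM w x := by
  have h := norm_F2_sub_le hw h2 x.1 (-x.2)
  rw [sub_neg_eq_add, gm_neg, norm_neg] at h
  rw [norm_mul, norm_mul, norm_pow, norm_pow, norm_ui, norm_ub, ← pow_add, h4]
  have h1 := mul_le_mul_of_nonneg_left h (pow_nonneg (an_nonneg w x.2) 4)
  refine h1.trans ?_
  have h3 : ‖gm w x.2‖ * an w x.2 ^ 4 = an w x.2 ^ 3 := by
    have := norm_gm_mul_an3 w x.2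
    calc ‖gm w x.2‖ * an w x.2 ^ 4 = (‖gm w x.2‖ * an w x.2 ^ 3) * an w x.2 := by ring
      _ = an w x.2 ^ 3 := by rw [this]; ring
  have h5 : an w x.2 ^ 4 * (2 * ‖gm w x.2‖ * (an w x.1 ^ 3 + an w (x.1 + x.2) ^ 3))
      = 2 * an w x.2 ^ 3 * (an w x.1 ^ 3 + an w (x.1 + x.2) ^ 3) := by
    calc _ = 2 * (‖gm w x.2‖ * an w x.2 ^ 4) * (an w x.1 ^ 3 + an w (x.1 + x.2) ^ 3) := by ring
      _ = _ := by rw [h3]
  rw [h5, MM]
  have h6 : 0 ≤ an w x.1 ^ 3 * an w (x.1 + x.2) ^ 3 :=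
    mul_nonneg (pow_nonneg (an_nonneg _ _) 3) (pow_nonneg (an_nonneg _ _) 3)
  nlinarith [h6]

lemma hasSum_typeA {w : ℝ} (hw : 0 < w) {p q r s : ℕ} (h2 : p + q = 2) (h4 : r + s = 4)
    {a : ℤ × ℤ} (ha : Good a) (b : ℤ × ℤ) :
    HasSum (fun x : (ℤ × ℤ) × (ℤ × ℤ) => ch a x.1 * ch b x.2 *
        (ui w x.2 ^ r * ub w x.2 ^ s * (F2 p q w x.1 - F2 p q w (x.1 + x.2))))
      (Kreg p q a w * (K r s b w - K r s (a - b) w)) := by
  have hsum : Summable (fun x : (ℤ × ℤ) × (ℤ × ℤ) => ch a x.1 * ch b x.2 *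
        (ui w x.2 ^ r * ub w x.2 ^ s * (F2 p q w x.1 - F2 p q w (x.1 + x.2)))) :=
    summable_of_le_MM hw (C := 2) (fun x => by
      rw [norm_ch_mul]; exact norm_typeA_le hw h2 h4 x)
  have hs2 := ((Equiv.prodComm (ℤ × ℤ) (ℤ × ℤ)).summable_iff.mpr hsum)
  have hval := hs2.hasSum.prod_fiberwise (g := fun y : ℤ × ℤ =>
      ch b y * (ui w y ^ r * ub w y ^ s) * ((1 - ch a (-y)) * Kreg p q a w)) (by
    intro y
    have := (hasSum_F2_add hw h2 ha y).mul_left (ch b y * (ui w y ^ r * ub w y ^ s))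
    refine this.congr_fun ?_
    intro v
    simp only [Function.comp_apply, Equiv.prodComm_apply, Prod.swap_prod_mk]
    ring)
  have hK1 := (hasSum_K hw (by omega : 3 ≤ r + s) b).mul_right (Kreg p q a w)
  have hK2 := (hasSum_K hw (by omega : 3 ≤ r + s) (b - a)).mul_right (Kreg p q a w)
  have hK := hK1.sub hK2
  have hfun : (fun y : ℤ × ℤ =>
      ch b y * (ui w y ^ r * ub w y ^ s) * ((1 - ch a (-y)) * Kreg p q a w))
      = fun y => ch b y * (ui w y ^ r * ub w y ^ s) * Kreg p q a w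
        - ch (b - a) y * (ui w y ^ r * ub w y ^ s) * Kreg p q a w := by
    funext y
    rw [ch_sub_left]
    ring
  rw [hfun] at hval
  have heq := hval.unique hK
  rw [← K_sub_comm_even h4 a b w]
  have h5 : ∑' x, (fun x : (ℤ × ℤ) × (ℤ × ℤ) => ch a x.1 * ch b x.2 *
        (ui w x.2 ^ r * ub w x.2 ^ s * (F2 p q w x.1 - F2 p q w (x.1 + x.2)))) x
      = Kreg p q a w * (K r s b w - K r s (b - a) w) := by
    rw [← (Equiv.prodComm (ℤ × ℤ) (ℤ × ℤ)).tsum_eq]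
    refine Eq.trans ?_ (heq.trans ?_)
    · rfl
    · ring
  rw [← h5]
  exact hsum.hasSum

lemma hasSum_typeA' {w : ℝ} (hw : 0 < w) {p q r s : ℕ} (h2 : p + q = 2) (h4 : r + s = 4)
    (a : ℤ × ℤ) {b : ℤ × ℤ} (hb : Good b) :
    HasSum (fun x : (ℤ × ℤ) × (ℤ × ℤ) => ch a x.1 * ch b x.2 *
        (ui w x.1 ^ r * ub w x.1 ^ s * (F2 p q w x.2 - F2 p q w (x.1 + x.2))))
      (Kreg p q b w * (K r s a w - K r s (a - b) w)) := by
  have h := (Equiv.prodComm (ℤ × ℤ) (ℤ × ℤ)).hasSum_iff.mpr (hasSum_typeA hw h2 h4 hb a)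
  rw [K_sub_comm_even h4 a b w] at h
  refine h.congr_fun ?_
  intro x
  simp only [Function.comp_apply, Equiv.prodComm_apply, Prod.fst_swap, Prod.snd_swap]
  rw [add_comm x.2 x.1]
  ring

/-! ### type (B): products of two absolutely convergent one-loop sums -/

lemma hasSum_K_mul {w : ℝ} (hw : 0 < w) {p q r s : ℕ} (h1 : 3 ≤ p + q) (h2 : 3 ≤ r + s)
    (a b : ℤ × ℤ) :
    HasSum (fun y : (ℤ × ℤ) × (ℤ × ℤ) => (ch a y.1 * (ui w y.1 ^ p * ub w y.1 ^ q)) *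
      (ch b y.2 * (ui w y.2 ^ r * ub w y.2 ^ s))) (K p q a w * K r s b w) := by
  have hs := summable_mul_of_summable_norm
    (f := fun v : ℤ × ℤ => ch a v * (ui w v ^ p * ub w v ^ q))
    (g := fun v : ℤ × ℤ => ch b v * (ui w v ^ r * ub w v ^ s))
    (summable_K_norm hw h1 a) (summable_K_norm hw h2 b)
  exact HasSum.mul (f := fun v : ℤ × ℤ => ch a v * (ui w v ^ p * ub w v ^ q))
    (g := fun v : ℤ × ℤ => ch b v * (ui w v ^ r * ub w v ^ s))
    (hasSum_K hw h1 a) (hasSum_K hw h2 b) hs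

lemma hasSum_typeB {w : ℝ} (hw : 0 < w) {p q r s : ℕ} (h1 : p + q = 3) (h2 : r + s = 3)
    (a b : ℤ × ℤ) :
    HasSum (fun x : (ℤ × ℤ) × (ℤ × ℤ) => ch a x.1 * ch b x.2 *
        ((ui w x.2 ^ p * ub w x.2 ^ q) * (ui w (x.1 + x.2) ^ r * ub w (x.1 + x.2) ^ s)))
      (-(K p q (a - b) w * K r s a w)) := by
  have h := eql.hasSum_iff.mpr (hasSum_K_mul hw h1.ge h2.ge (b - a) a)
  rw [K_sub_comm_odd h1 a b w, neg_mul] at h
  refine h.congr_fun ?_
  intro x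
  simp only [Function.comp_apply, eql, Equiv.coe_fn_mk]
  have e : ch a (x.1 + x.2) * ch (b - a) x.2 = ch a x.1 * ch b x.2 := by
    rw [← ch_sub_mul]
    congr 2
    abel
  linear_combination (-(ui w x.2 ^ p * ub w x.2 ^ q) *
    (ui w (x.1 + x.2) ^ r * ub w (x.1 + x.2) ^ s)) * e

lemma hasSum_typeB' {w : ℝ} (hw : 0 < w) {p q r s : ℕ} (h1 : p + q = 3) (h2 : r + s = 3)
    (a b : ℤ × ℤ) :
    HasSum (fun x : (ℤ × ℤ) × (ℤ × ℤ) => ch a x.1 * ch b x.2 *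
        ((ui w x.1 ^ p * ub w x.1 ^ q) * (ui w (x.1 + x.2) ^ r * ub w (x.1 + x.2) ^ s)))
      (K p q (a - b) w * K r s b w) := by
  have h := (Equiv.prodComm (ℤ × ℤ) (ℤ × ℤ)).hasSum_iff.mpr (hasSum_typeB hw h1 h2 b a)
  rw [K_sub_comm_odd h1 a b w, neg_mul, neg_neg] at h
  refine h.congr_fun ?_
  intro x
  simp only [Function.comp_apply, Equiv.prodComm_apply, Prod.fst_swap, Prod.snd_swap]
  rw [add_comm x.2 x.1]
  ring

/-! ### type (C): the diagonals -/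

lemma hasSum_diag2 {w : ℝ} (hw : 0 < w) {p q : ℕ} (h1 : 3 ≤ p + q) (a b : ℤ × ℤ) :
    HasSum (fun x : (ℤ × ℤ) × (ℤ × ℤ) => ch a x.1 * ch b x.2 *
        (if x.2 = 0 then ui w x.1 ^ p * ub w x.1 ^ q else 0)) (K p q a w) := by
  have hinj : Function.Injective (fun v : ℤ × ℤ => ((v, (0 : ℤ × ℤ)) : (ℤ × ℤ) × (ℤ × ℤ))) :=
    fun u v h => (Prod.mk.inj h).1
  refine (hinj.hasSum_iff ?_).mp ?_
  · intro x hx
    have : x.2 ≠ 0 := by
      intro h0
      exact hx ⟨x.1, Prod.ext rfl h0.symm⟩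
    rw [if_neg this, mul_zero]
  · refine (hasSum_K hw h1 a).congr_fun ?_
    intro v
    simp only [Function.comp_apply, if_true, ch_zero_right]
    ring

lemma hasSum_diag1 {w : ℝ} (hw : 0 < w) {p q : ℕ} (h1 : 3 ≤ p + q) (a b : ℤ × ℤ) :
    HasSum (fun x : (ℤ × ℤ) × (ℤ × ℤ) => ch a x.1 * ch b x.2 *
        (if x.1 = 0 then ui w x.2 ^ p * ub w x.2 ^ q else 0)) (K p q b w) := by
  have h := (Equiv.prodComm (ℤ × ℤ) (ℤ × ℤ)).hasSum_iff.mpr (hasSum_diag2 hw h1 b a)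
  refine h.congr_fun ?_
  intro x
  simp only [Function.comp_apply, Equiv.prodComm_apply, Prod.fst_swap, Prod.snd_swap]
  ring

lemma hasSum_diag3 {w : ℝ} (hw : 0 < w) {p q : ℕ} (h1 : 3 ≤ p + q) (a b : ℤ × ℤ) :
    HasSum (fun x : (ℤ × ℤ) × (ℤ × ℤ) => ch a x.1 * ch b x.2 *
        (if x.1 + x.2 = 0 then ui w x.1 ^ p * ub w x.1 ^ q else 0)) (K p q (a - b) w) := by
  have hinj : Function.Injective (fun v : ℤ × ℤ => ((v, -v) : (ℤ × ℤ) × (ℤ × ℤ))) :=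
    fun u v h => (Prod.mk.inj h).1
  refine (hinj.hasSum_iff ?_).mp ?_
  · intro x hx
    have : x.1 + x.2 ≠ 0 := by
      intro h0
      exact hx ⟨x.1, Prod.ext rfl (neg_eq_of_add_eq_zero_right h0)⟩
    rw [if_neg this, mul_zero]
  · refine (hasSum_K hw h1 (a - b)).congr_fun ?_
    intro v
    simp only [Function.comp_apply, add_neg_cancel, if_true, ch_sub_left]

/-! ### the pointwise identities -/

lemma Dt_identity {w : ℝ} (hw : 0 < w) (x : (ℤ × ℤ) × (ℤ × ℤ)) :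
    Dt w x = ui w x.2 ^ 3 * ub w x.2 ^ 1 * (F2 2 0 w x.1 - F2 2 0 w (x.1 + x.2))
      - 2 * ((ui w x.2 ^ 2 * ub w x.2 ^ 1) * (ui w (x.1 + x.2) ^ 3 * ub w (x.1 + x.2) ^ 0))
      + ui w x.1 ^ 3 * ub w x.1 ^ 1 * (F2 2 0 w x.2 - F2 2 0 w (x.1 + x.2))
      - 2 * ((ui w x.1 ^ 2 * ub w x.1 ^ 1) * (ui w (x.1 + x.2) ^ 3 * ub w (x.1 + x.2) ^ 0))
      + 3 * (if x.2 = 0 then ui w x.1 ^ 5 * ub w x.1 ^ 1 else 0)
      + 3 * (if x.1 = 0 then ui w x.2 ^ 5 * ub w x.2 ^ 1 else 0)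
      - 2 * (if x.1 + x.2 = 0 then ui w x.1 ^ 5 * ub w x.1 ^ 1 else 0) := by
  obtain ⟨p, q⟩ := x
  simp only [Dt, F2, pow_one, pow_zero, mul_one]
  by_cases hp : p = 0
  · subst hp
    by_cases hq : q = 0
    · subst hq
      simp [ui_zero, ub_zero]
    · simp only [ui_zero, ub_zero, zero_add, if_neg hq, if_true]
      ring
  by_cases hq : q = 0
  · subst hq
    simp only [ui_zero, ub_zero, add_zero, if_neg hp, if_true]
    ring
  by_cases hr : p + q = 0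
  · have hqp : q = -p := (neg_eq_of_add_eq_zero_right hr).symm
    subst hqp
    simp only [hr, ui_zero, ub_zero, ui_neg, ub_neg, if_neg hp, if_neg hq, if_true, gm_zero,
      map_zero]
    ring
  · simp only [if_neg hp, if_neg hq, if_neg hr, ui, ub]
    have h1 := gm_ne_zero hw hp
    have h2 := gm_ne_zero hw hq
    have h3 := gm_ne_zero hw hr
    have h1' : (starRingEnd ℂ) (gm w p) ≠ 0 := (map_ne_zero _).mpr h1
    have h2' : (starRingEnd ℂ) (gm w q) ≠ 0 := (map_ne_zero _).mpr h2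
    have h3' : (starRingEnd ℂ) (gm w (p + q)) ≠ 0 := (map_ne_zero _).mpr h3
    rw [gm_add] at h3 h3' ⊢
    rw [map_add] at h3' ⊢
    generalize gm w p = X at *
    generalize gm w q = Y at *
    generalize (starRingEnd ℂ) X = X' at *
    generalize (starRingEnd ℂ) Y = Y' at *
    field_simp
    ring

lemma Ft_identity {w : ℝ} (hw : 0 < w) (x : (ℤ × ℤ) × (ℤ × ℤ)) :
    Ft w x + Fbt w x
      = ui w x.2 ^ 2 * ub w x.2 ^ 2 * (F2 1 1 w x.1 - F2 1 1 w (x.1 + x.2))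
      - (ui w x.2 ^ 1 * ub w x.2 ^ 2) * (ui w (x.1 + x.2) ^ 2 * ub w (x.1 + x.2) ^ 1)
      - (ui w x.2 ^ 2 * ub w x.2 ^ 1) * (ui w (x.1 + x.2) ^ 1 * ub w (x.1 + x.2) ^ 2)
      + ui w x.1 ^ 2 * ub w x.1 ^ 2 * (F2 1 1 w x.2 - F2 1 1 w (x.1 + x.2))
      - (ui w x.1 ^ 1 * ub w x.1 ^ 2) * (ui w (x.1 + x.2) ^ 2 * ub w (x.1 + x.2) ^ 1)
      - (ui w x.1 ^ 2 * ub w x.1 ^ 1) * (ui w (x.1 + x.2) ^ 1 * ub w (x.1 + x.2) ^ 2)
      + 3 * (if x.2 = 0 then ui w x.1 ^ 3 * ub w x.1 ^ 3 else 0)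
      + 3 * (if x.1 = 0 then ui w x.2 ^ 3 * ub w x.2 ^ 3 else 0)
      - 2 * (if x.1 + x.2 = 0 then ui w x.1 ^ 3 * ub w x.1 ^ 3 else 0) := by
  obtain ⟨p, q⟩ := x
  simp only [Ft, Fbt, F2, pow_one]
  by_cases hp : p = 0
  · subst hp
    by_cases hq : q = 0
    · subst hq
      simp [ui_zero, ub_zero]
    · simp only [ui_zero, ub_zero, zero_add, if_neg hq, if_true]
      ring
  by_cases hq : q = 0
  · subst hq
    simp only [ui_zero, ub_zero, add_zero, if_neg hp, if_true]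
    ring
  by_cases hr : p + q = 0
  · have hqp : q = -p := (neg_eq_of_add_eq_zero_right hr).symm
    subst hqp
    simp only [hr, ui_zero, ub_zero, ui_neg, ub_neg, if_neg hp, if_neg hq, if_true]
    ring
  · simp only [if_neg hp, if_neg hq, if_neg hr, ui, ub]
    have h1 := gm_ne_zero hw hp
    have h2 := gm_ne_zero hw hq
    have h3 := gm_ne_zero hw hr
    have h1' : (starRingEnd ℂ) (gm w p) ≠ 0 := (map_ne_zero _).mpr h1
    have h2' : (starRingEnd ℂ) (gm w q) ≠ 0 := (map_ne_zero _).mpr h2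
    have h3' : (starRingEnd ℂ) (gm w (p + q)) ≠ 0 := (map_ne_zero _).mpr h3
    rw [gm_add] at h3 h3' ⊢
    rw [map_add] at h3' ⊢
    generalize gm w p = X at *
    generalize gm w q = Y at *
    generalize (starRingEnd ℂ) X = X' at *
    generalize (starRingEnd ℂ) Y = Y' at *
    field_simp
    ring

/-! ### the product formulas -/

/-- (b2) -/
theorem DT_eq {w : ℝ} (hw : 0 < w) {a b : ℤ × ℤ} (ha : Good a) (hb : Good b) :
    DT a b w = Kreg 2 0 a w * (K 3 1 b w - K 3 1 (a - b) w)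
      + Kreg 2 0 b w * (K 3 1 a w - K 3 1 (a - b) w)
      + 2 * (K 3 0 a w - K 3 0 b w) * K 2 1 (a - b) w
      + 3 * K 5 1 a w + 3 * K 5 1 b w - 2 * K 5 1 (a - b) w := by
  have h1 := hasSum_typeA hw (p := 2) (q := 0) (r := 3) (s := 1) rfl rfl ha b
  have h2 := (hasSum_typeB hw (p := 2) (q := 1) (r := 3) (s := 0) rfl rfl a b).mul_left 2
  have h3 := hasSum_typeA' hw (p := 2) (q := 0) (r := 3) (s := 1) rfl rfl a hb
  have h4 := (hasSum_typeB' hw (p := 2) (q := 1) (r := 3) (s := 0) rfl rfl a b).mul_left 2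
  have h5 := (hasSum_diag2 hw (p := 5) (q := 1) (by norm_num) a b).mul_left 3
  have h6 := (hasSum_diag1 hw (p := 5) (q := 1) (by norm_num) a b).mul_left 3
  have h7 := (hasSum_diag3 hw (p := 5) (q := 1) (by norm_num) a b).mul_left 2
  have h := (((((h1.sub h2).add h3).sub h4).add h5).add h6).sub h7
  have hfun : ∀ x : (ℤ × ℤ) × (ℤ × ℤ), DTterm a b w x = _ := fun x => by
    rw [DTterm_eq, Dt_identity hw x]
  rw [DT]
  have hd : HasSum (DTterm a b w) _ := h.congr_fun (fun x => by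
    rw [hfun x]
    ring)
  rw [hd.tsum_eq]
  ring

/-- (b3) -/
theorem FT_add_FB {w : ℝ} (hw : 0 < w) {a b : ℤ × ℤ} (ha : Good a) (hb : Good b) :
    FT a b w + FB a b w = Kreg 1 1 a w * (K 2 2 b w - K 2 2 (a - b) w)
      + Kreg 1 1 b w * (K 2 2 a w - K 2 2 (a - b) w)
      + K 1 2 (a - b) w * (K 2 1 a w - K 2 1 b w)
      + K 2 1 (a - b) w * (K 1 2 a w - K 1 2 b w)
      + 3 * K 3 3 a w + 3 * K 3 3 b w - 2 * K 3 3 (a - b) w := by
  have h1 := hasSum_typeA hw (p := 1) (q := 1) (r := 2) (s := 2) rfl rfl ha b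
  have h2 := hasSum_typeB hw (p := 1) (q := 2) (r := 2) (s := 1) rfl rfl a b
  have h2' := hasSum_typeB hw (p := 2) (q := 1) (r := 1) (s := 2) rfl rfl a b
  have h3 := hasSum_typeA' hw (p := 1) (q := 1) (r := 2) (s := 2) rfl rfl a hb
  have h4 := hasSum_typeB' hw (p := 1) (q := 2) (r := 2) (s := 1) rfl rfl a b
  have h4' := hasSum_typeB' hw (p := 2) (q := 1) (r := 1) (s := 2) rfl rfl a b
  have h5 := (hasSum_diag2 hw (p := 3) (q := 3) (by norm_num) a b).mul_left 3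
  have h6 := (hasSum_diag1 hw (p := 3) (q := 3) (by norm_num) a b).mul_left 3
  have h7 := (hasSum_diag3 hw (p := 3) (q := 3) (by norm_num) a b).mul_left 2
  have h := (((((((h1.sub h2).sub h2').add h3).sub h4).sub h4').add h5).add h6).sub h7
  rw [FT, FB, ← (summable_FTterm hw a b).tsum_add (summable_FBterm hw a b)]
  have hfun : ∀ x : (ℤ × ℤ) × (ℤ × ℤ), FTterm a b w x + FBterm a b w x = _ := fun x => by
    rw [FTterm_eq, FBterm_eq, ← mul_add, Ft_identity hw x]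
  have hd : HasSum (fun x => FTterm a b w x + FBterm a b w x) _ := h.congr_fun (fun x => by
    rw [hfun x]
    ring)
  rw [hd.tsum_eq]
  ring

end Pool.RV
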