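import Pool.Agent.Work.MP_5955e5_nt.B.Sym
import Pool.Agent.Work.MP_5955e5_nt.B.Prod
import Pool.Agent.Work.MP_5955e5_nt.B.Deriv2
import Pool.Agent.Work.MP_5955e5_nt.B.Deriv3

/-!
# Cell RV, block (b): the derivative of the line function (helper16)
-/

set_option autoImplicit false

open Complex

namespace Pool.RV

/-! values of one-loop sums at the labels that occur in `T₊` -/

section values
variable (p q : ℕ) (w : ℝ)

lemma K_even_4 (h : Even (p + q)) : K p q (4, 0) w = K p q (2, 0) w := by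
  have h1 : K p q (4, 0) w = K p q (-(2, 0)) w :=
    K_congr p q w (ch_mod6 (by decide) (by decide))
  rw [h1, K_neg, h.neg_one_pow, one_mul]

lemma K_even_43 (h : Even (p + q)) : K p q (4, 3) w = K p q (2, 3) w := by
  have h1 : K p q (4, 3) w = K p q (-(2, 3)) w :=
    K_congr p q w (ch_mod6 (by decide) (by decide))
  rw [h1, K_neg, h.neg_one_pow, one_mul]

lemma K_even_m1 (h : Even (p + q)) : K p q (-1, 0) w = K p q (1, 0) w := by
  have h1 : K p q (-1, 0) w = K p q (-(1, 0)) w :=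
    K_congr p q w (ch_mod6 (by decide) (by decide))
  rw [h1, K_neg, h.neg_one_pow, one_mul]

lemma K_m3 : K p q (-3, 0) w = K p q (3, 0) w :=
  K_congr p q w (ch_mod6 (by decide) (by decide))

lemma K_odd_4 (h : Odd (p + q)) : K p q (4, 0) w = -K p q (2, 0) w := by
  have h1 : K p q (4, 0) w = K p q (-(2, 0)) w :=
    K_congr p q w (ch_mod6 (by decide) (by decide))
  rw [h1, K_neg, h.neg_one_pow]
  ring

lemma K_odd_43 (h : Odd (p + q)) : K p q (4, 3) w = -K p q (2, 3) w := by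
  have h1 : K p q (4, 3) w = K p q (-(2, 3)) w :=
    K_congr p q w (ch_mod6 (by decide) (by decide))
  rw [h1, K_neg, h.neg_one_pow]
  ring

lemma K_odd_m1 (h : Odd (p + q)) : K p q (-1, 0) w = -K p q (1, 0) w := by
  have h1 : K p q (-1, 0) w = K p q (-(1, 0)) w :=
    K_congr p q w (ch_mod6 (by decide) (by decide))
  rw [h1, K_neg, h.neg_one_pow]
  ring

lemma K_odd_3 (h : Odd (p + q)) : K p q (3, 0) w = 0 := by
  have h1 : K p q (3, 0) w = K p q (-(3, 0)) w :=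
    K_congr p q w (ch_mod6 (by decide) (by decide))
  rw [K_neg, h.neg_one_pow] at h1
  have h2 : (2 : ℂ) * K p q (3, 0) w = 0 := by linear_combination h1
  exact (mul_eq_zero.mp h2).resolve_left two_ne_zero

lemma K_odd_0 (h : Odd (p + q)) : K p q (0, 0) w = 0 := by
  have h1 : K p q (0, 0) w = K p q (-(0, 0)) w :=
    K_congr p q w (ch_mod6 (by decide) (by decide))
  rw [K_neg, h.neg_one_pow] at h1
  have h2 : (2 : ℂ) * K p q (0, 0) w = 0 := by linear_combination h1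
  exact (mul_eq_zero.mp h2).resolve_left two_ne_zero

end values

/-- distribution in weight 3 -/
lemma K_dist3 {p q : ℕ} (h : p + q = 3) {w : ℝ} (hw : 0 < w) :
    K p q (1, 0) w + K p q (1, 3) w - K p q (2, 3) w = 3 / 2 * K p q (2, 0) w := by
  have ho : Odd (p + q) := by rw [h]; decide
  have h1 := K_dist (p := p) (q := q) (by omega) hw (1, 0)
  have e0 : ((1, 0) : ℤ × ℤ) + (3, 0) = (4, 0) := rfl
  have e1 : ((1, 0) : ℤ × ℤ) + (0, 3) = (1, 3) := rfl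
  have e2 : ((1, 0) : ℤ × ℤ) + (3, 3) = (4, 3) := rfl
  have e3 : dbl (1, 0) = (2, 0) := rfl
  rw [e0, e1, e2, e3, K_odd_4 p q w ho, K_odd_43 p q w ho, h] at h1
  linear_combination h1

lemma good0 : Good (0, 0) := Or.inl rfl
lemma good1 : Good (1, 0) := Or.inr (by decide)
lemma good2 : Good (2, 0) := Or.inr (by decide)
lemma good3 : Good (3, 0) := Or.inr (by decide)
lemma good4 : Good (4, 0) := Or.inr (by decide)
lemma good13 : Good (1, 3) := Or.inr (by decide)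
lemma good23 : Good (2, 3) := Or.inr (by decide)
lemma good43 : Good (4, 3) := Or.inr (by decide)

lemma Kreg_4 {p q : ℕ} (h2 : p + q = 2) {w : ℝ} (hw : 0 < w) :
    Kreg p q (4, 0) w = Kreg p q (2, 0) w := by
  rw [← Kreg_neg h2 (a := (2, 0)) (by decide) hw]
  exact Kreg_congr p q w (ch_mod6 (by decide) (by decide))

lemma Kreg_43 {p q : ℕ} (h2 : p + q = 2) {w : ℝ} (hw : 0 < w) :
    Kreg p q (4, 3) w = Kreg p q (2, 3) w := by
  rw [← Kreg_neg h2 (a := (2, 3)) (by decide) hw]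
  exact Kreg_congr p q w (ch_mod6 (by decide) (by decide))

lemma Kreg_0 (p q : ℕ) (w : ℝ) : Kreg p q (0, 0) w = 0 := by
  rw [Kreg, ch_zero_left', sub_self, inv_zero, zero_mul]

/-- the `D`-part of the derivative of `T₊` -/
lemma DT_sum {w : ℝ} (hw : 0 < w) :
    4 * DT (0, 0) (1, 0) w + 2 * DT (0, 0) (3, 0) w + DT (1, 0) (1, 0) w + 6 * DT (1, 0) (4, 0) w
      - 4 * DT (1, 3) (2, 3) w + 4 * DT (1, 3) (4, 3) w + 6 * DT (2, 0) (3, 0) w
      = -(Kx 2 0 w * Ke 3 1 w) + 16 * K 5 1 (0, 0) w + 24 * K 5 1 (1, 0) w + 36 * K 5 1 (2, 0) w := by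
  have d1 : ((0, 0) : ℤ × ℤ) - (1, 0) = (-1, 0) := rfl
  have d2 : ((0, 0) : ℤ × ℤ) - (3, 0) = (-3, 0) := rfl
  have d3 : ((1, 0) : ℤ × ℤ) - (1, 0) = (0, 0) := rfl
  have d4 : ((1, 0) : ℤ × ℤ) - (4, 0) = (-3, 0) := rfl
  have d5 : ((1, 3) : ℤ × ℤ) - (2, 3) = (-1, 0) := rfl
  have d6 : ((1, 3) : ℤ × ℤ) - (4, 3) = (-3, 0) := rfl
  have d7 : ((2, 0) : ℤ × ℤ) - (3, 0) = (-1, 0) := rfl
  have ev31 : Even (3 + 1) := by decide
  have ev51 : Even (5 + 1) := by decide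
  have od30 : Odd (3 + 0) := by decide
  have od21 : Odd (2 + 1) := by decide
  rw [DT_eq hw good0 good1, DT_eq hw good0 good3, DT_eq hw good1 good1, DT_eq hw good1 good4,
    DT_eq hw good13 good23, DT_eq hw good13 good43, DT_eq hw good2 good3, d1, d2, d3, d4, d5, d6,
    d7, K_m3, K_m3, K_m3, K_even_m1 3 1 w ev31, K_even_m1 5 1 w ev51, K_odd_m1 2 1 w od21,
    K_odd_3 2 1 w od21, K_odd_0 2 1 w od21, K_even_4 3 1 w ev31, K_even_4 5 1 w ev51,
    K_even_43 3 1 w ev31, K_even_43 5 1 w ev51, K_odd_4 3 0 w od30, K_odd_43 3 0 w od30,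
    K_odd_3 3 0 w od30, K_odd_0 3 0 w od30, Kreg_4 (by norm_num) hw, Kreg_43 (by norm_num) hw,
    Kreg_0, Kx, Ke]
  have r1 := Kreg_dist (p := 2) (q := 0) (by norm_num) hw
  have r2 := K_dist3 (p := 3) (q := 0) (by norm_num) hw
  linear_combination (4 * K 3 1 (1, 0) w - 4 * K 3 1 (3, 0) w) * r1 + 8 * K 2 1 (1, 0) w * r2

lemma FT_half {w : ℝ} (hw : 0 < w) {a b : ℤ × ℤ} (ha : Good a) (hb : Good b)
    (h : FB a b w = FT a b w) :
    FT a b w = 1 / 2 * (Kreg 1 1 a w * (K 2 2 b w - K 2 2 (a - b) w)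
      + Kreg 1 1 b w * (K 2 2 a w - K 2 2 (a - b) w)
      + K 1 2 (a - b) w * (K 2 1 a w - K 2 1 b w)
      + K 2 1 (a - b) w * (K 1 2 a w - K 1 2 b w)
      + 3 * K 3 3 a w + 3 * K 3 3 b w - 2 * K 3 3 (a - b) w) := by
  have h1 := FT_add_FB hw ha hb
  rw [h] at h1
  linear_combination 1 / 2 * h1

/-- the `F`-part of the derivative of `T₊` -/
lemma FT_sum {w : ℝ} (hw : 0 < w) :
    4 * FT (0, 0) (1, 0) w + 2 * FT (0, 0) (3, 0) w + FT (1, 0) (1, 0) w + 6 * FT (1, 0) (4, 0) w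
      - 4 * FT (1, 3) (2, 3) w + 4 * FT (1, 3) (4, 3) w + 6 * FT (2, 0) (3, 0) w
      = 1 / 2 * (-(Kx 1 1 w * Ke 2 2 w) + 16 * K 3 3 (0, 0) w + 24 * K 3 3 (1, 0) w
          + 36 * K 3 3 (2, 0) w) := by
  have d1 : ((0, 0) : ℤ × ℤ) - (1, 0) = (-1, 0) := rfl
  have d2 : ((0, 0) : ℤ × ℤ) - (3, 0) = (-3, 0) := rfl
  have d3 : ((1, 0) : ℤ × ℤ) - (1, 0) = (0, 0) := rfl
  have d4 : ((1, 0) : ℤ × ℤ) - (4, 0) = (-3, 0) := rfl
  have d5 : ((1, 3) : ℤ × ℤ) - (2, 3) = (-1, 0) := rfl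
  have d6 : ((1, 3) : ℤ × ℤ) - (4, 3) = (-3, 0) := rfl
  have d7 : ((2, 0) : ℤ × ℤ) - (3, 0) = (-1, 0) := rfl
  have ev22 : Even (2 + 2) := by decide
  have ev33 : Even (3 + 3) := by decide
  have od12 : Odd (1 + 2) := by decide
  have od21 : Odd (2 + 1) := by decide
  rw [FT_half hw good0 good1 (FB_eq_FT_of_zero 0 1 w), FT_half hw good0 good3
      (FB_eq_FT_of_zero 0 3 w), FT_half hw good1 good1 (FB_eq_FT_of_zero 1 1 w),
    FT_half hw good1 good4 (FB_eq_FT_of_zero 1 4 w), FT_half hw good13 good23 (FB_eq_FT_12 w),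
    FT_half hw good13 good43 (FB_eq_FT_14 w), FT_half hw good2 good3 (FB_eq_FT_of_zero 2 3 w),
    d1, d2, d3, d4, d5, d6,
    d7, K_m3, K_m3, K_m3, K_m3, K_even_m1 2 2 w ev22, K_even_m1 3 3 w ev33, K_odd_m1 2 1 w od21,
    K_odd_m1 1 2 w od12,
    K_odd_3 2 1 w od21, K_odd_0 2 1 w od21, K_odd_3 1 2 w od12, K_odd_0 1 2 w od12,
    K_even_4 2 2 w ev22, K_even_4 3 3 w ev33,
    K_even_43 2 2 w ev22, K_even_43 3 3 w ev33, K_odd_4 1 2 w od12, K_odd_43 1 2 w od12,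
    K_odd_4 2 1 w od21, K_odd_43 2 1 w od21,
    Kreg_4 (by norm_num) hw, Kreg_43 (by norm_num) hw,
    Kreg_0, Kx, Ke]
  have r1 := Kreg_dist (p := 1) (q := 1) (by norm_num) hw
  have r2 := K_dist3 (p := 2) (q := 1) (by norm_num) hw
  have r3 := K_dist3 (p := 1) (q := 2) (by norm_num) hw
  linear_combination (2 * K 2 2 (1, 0) w - 2 * K 2 2 (3, 0) w) * r1
    + 2 * K 1 2 (1, 0) w * r2 + 2 * K 2 1 (1, 0) w * r3

/-! reality -/

lemma stc_zero (i : ℤ) : stc (i, 0) = -(i, 0) := by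
  ext <;> simp [stc]

lemma K_real_zero (p q : ℕ) (i : ℤ) (w : ℝ) :
    (starRingEnd ℂ) (K p q (i, 0) w) = K p q (i, 0) w := by
  rw [K_conj, K_star p q (i, 0), stc_zero]

lemma Kreg02 {i : ℤ} (hi : ¬ (6 ∣ i)) {w : ℝ} (hw : 0 < w) :
    Kreg 0 2 (i, 0) w = Kreg 2 0 (i, 0) w := by
  rw [Kreg_star (p := 2) (q := 0) (by norm_num) (a := (i, 0)) hi (by simpa using hi) hw, stc_zero,
    Kreg_neg (by norm_num) hi hw]

theorem Kx_real {w : ℝ} (hw : 0 < w) : ((Kx 1 1 w).re : ℂ) = Kx 1 1 w := by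
  rw [← Complex.conj_eq_iff_re]
  rw [Kx, map_add, map_mul, map_mul, Kreg_conj, Kreg_conj,
    Kreg_neg (by norm_num) (by decide) hw, Kreg_neg (by norm_num) (by decide) hw,
    Complex.conj_ofNat]

theorem Ke_real (p q : ℕ) (w : ℝ) : ((Ke p q w).re : ℂ) = Ke p q w := by
  rw [← Complex.conj_eq_iff_re]
  rw [Ke, map_add, map_sub, map_add, map_neg, map_mul, map_mul, K_real_zero, K_real_zero,
    K_real_zero, K_real_zero, Complex.conj_ofNat]

lemma Kx02 {w : ℝ} (hw : 0 < w) : Kx 0 2 w = Kx 2 0 w := by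
  rw [Kx, Kx, Kreg02 (by decide) hw, Kreg02 (by decide) hw]

/-! derivatives -/

lemma hasDerivAt_cub (w : ℝ) : HasDerivAt (fun w : ℝ => (w : ℂ) ^ 3) (3 * (w : ℂ) ^ 2) w := by
  have := (hasDerivAt_pow 3 (w : ℂ)).comp_ofReal
  simpa using this

lemma hasDerivAt_Kx {w : ℝ} (hw : 0 < w) :
    HasDerivAt (fun w : ℝ => Kx 1 1 w) ((1 / (w : ℂ)) * (-Kx 1 1 w + Kx 2 0 w)) w := by
  have h1 := (hasDerivAt_Kreg hw (1, 0)).const_mul 2
  have h3 := (hasDerivAt_Kreg hw (3, 0)).const_mul 2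
  have h := h1.add h3
  refine h.congr_deriv ?_
  have e := Kx02 hw
  rw [Kx, Kx] at e
  rw [Kx, Kx]
  linear_combination (1 / (w : ℂ)) * (1 / 2) * e

lemma hasDerivAt_Ke31 {w : ℝ} (hw : 0 < w) :
    HasDerivAt (fun w : ℝ => Ke 3 1 w)
      ((1 / (w : ℂ)) * (-2 * Ke 3 1 w + 3 / 2 * Ke 4 0 w + 1 / 2 * Ke 2 2 w)) w := by
  have h0 := (hasDerivAt_K hw (0, 0) (p := 2) (q := 0) (by norm_num)).neg
  have h1 := (hasDerivAt_K hw (1, 0) (p := 2) (q := 0) (by norm_num)).const_mul 3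
  have h2 := (hasDerivAt_K hw (2, 0) (p := 2) (q := 0) (by norm_num)).const_mul 3
  have h3 := (hasDerivAt_K hw (3, 0) (p := 2) (q := 0) (by norm_num))
  have h := ((h0.add h1).sub h2).add h3
  refine h.congr_deriv ?_
  rw [Ke, Ke, Ke]
  push_cast
  ring

lemma hasDerivAt_K42 {w : ℝ} (hw : 0 < w) (a : ℤ × ℤ) :
    HasDerivAt (fun w : ℝ => (w : ℂ) ^ 3 * K 4 2 a w)
      ((w : ℂ) ^ 2 * (2 * K 5 1 a w + K 3 3 a w)) w := by
  have hw' : (w : ℂ) ≠ 0 := by exact_mod_cast hw.ne'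
  have h := (hasDerivAt_cub w).mul (hasDerivAt_K hw a (p := 3) (q := 1) (by norm_num))
  refine h.congr_deriv ?_
  push_cast
  field_simp
  ring

lemma hasDerivAt_Tplus {w : ℝ} (hw : 0 < w) :
    HasDerivAt (fun w : ℝ => (w : ℂ) ^ 3 * Tplus w)
      ((w : ℂ) ^ 2 / 2 * (-(Kx 2 0 w * Ke 3 1 w) + 16 * K 5 1 (0, 0) w + 24 * K 5 1 (1, 0) w
          + 36 * K 5 1 (2, 0) w
        + 1 / 2 * (-(Kx 1 1 w * Ke 2 2 w) + 16 * K 3 3 (0, 0) w + 24 * K 3 3 (1, 0) w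
          + 36 * K 3 3 (2, 0) w))) w := by
  rw [← DT_sum hw, ← FT_sum hw]
  have h1 := (hasDerivAt_T hw (0, 0) (1, 0)).const_mul 4
  have h2 := (hasDerivAt_T hw (0, 0) (3, 0)).const_mul 2
  have h3 := (hasDerivAt_T hw (1, 0) (1, 0))
  have h4 := (hasDerivAt_T hw (1, 0) (4, 0)).const_mul 6
  have h5 := (hasDerivAt_T hw (1, 3) (2, 3)).const_mul 4
  have h6 := (hasDerivAt_T hw (1, 3) (4, 3)).const_mul 4
  have h7 := (hasDerivAt_T hw (2, 0) (3, 0)).const_mul 6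
  have h := (((((h1.add h2).add h3).add h4).sub h5).add h6).add h7
  refine (h.congr_deriv ?_).congr_of_eventuallyEq (Filter.Eventually.of_forall (fun u => ?_))
  · ring
  · simp only [Tplus, Pi.add_apply, Pi.sub_apply]
    ring

/-- (b5): the derivative of the line function -/
theorem hasDerivAt_Psi {w : ℝ} (hw : 0 < w) :
    HasDerivAt Psi ((-(16 * Real.pi ^ 5 / 3) * (w * ee w * lx w) : ℝ) : ℂ) w := by
  have hw' : (w : ℂ) ≠ 0 := by exact_mod_cast hw.ne'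
  have hpi : (Real.pi : ℂ) ≠ 0 := by exact_mod_cast Real.pi_ne_zero
  have h1 := hasDerivAt_Tplus hw
  have h2 := (((hasDerivAt_cub w).div_const 2).mul (hasDerivAt_Kx hw)).mul (hasDerivAt_Ke31 hw)
  have h3 := (((hasDerivAt_K42 hw (0, 0)).const_mul 4).add
    ((hasDerivAt_K42 hw (1, 0)).const_mul 6)).add ((hasDerivAt_K42 hw (2, 0)).const_mul 9)
  have h := (h1.add h2).sub h3
  refine (h.congr_deriv ?_).congr_of_eventuallyEq (Filter.Eventually.of_forall (fun u => ?_))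
  · rw [ee, lx]
    push_cast
    rw [Kx_real hw, Ke_real]
    simp only [Pi.mul_apply]
    field_simp
    ring
  · simp only [Psi, Pi.add_apply, Pi.sub_apply, Pi.mul_apply]
    ring

end Pool.RV
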