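import Pool.Agent.Work.MP_5955e5_nt.B.BDefs

/-!
# Cell RV, block (b): termwise derivatives along the line, one-loop sums (helper12)

`mon p q z = 1 / (z^p * conj z^q)` and its derivative along `w ↦ gm w v`:
`d/dw mon p q (gm w v) = (1/(2w)) mon p q g (p conj g / g + q g / conj g - (p+q))`.
-/

set_option autoImplicit false

open Complex

namespace Pool.RV

/-- the monomial `z^{-p} conj(z)^{-q}` (`0` at `z = 0` if `p + q ≥ 1`) -/
noncomputable def mon (p q : ℕ) (z : ℂ) : ℂ := 1 / (z ^ p * (starRingEnd ℂ) z ^ q)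

theorem norm_mon (p q : ℕ) (z : ℂ) : ‖mon p q z‖ = (‖z‖ ^ (p + q))⁻¹ := by
  unfold mon
  rw [norm_div, norm_one, norm_mul, norm_pow, norm_pow, RCLike.norm_conj, ← pow_add, one_div]

theorem norm_mon_gm (p q : ℕ) (w : ℝ) (v : ℤ × ℤ) : ‖mon p q (gm w v)‖ = an w v ^ (p + q) := by
  rw [norm_mon, an, inv_pow]

theorem mon_zero_left {p q : ℕ} (h : 0 < p + q) : mon p q 0 = 0 := by
  unfold mon
  rcases Nat.eq_zero_or_pos p with hp | hp
  · have hq : 0 < q := by omega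
    simp [hq.ne']
  · simp [hp.ne']

theorem norm_mon_gm_anti {w1 w : ℝ} (h1 : 0 < w1) (h : w1 ≤ w) (p q : ℕ)
    (v : ℤ × ℤ) : ‖mon p q (gm w v)‖ ≤ ‖mon p q (gm w1 v)‖ := by
  rw [norm_mon_gm, norm_mon_gm]
  exact pow_le_pow_left₀ (an_nonneg w v) (an_anti h1 h v) _

/-- the logarithmic derivative factor `p conj z / z + q z / conj z - (p + q)` -/
noncomputable def ldf (p q : ℕ) (z : ℂ) : ℂ :=
  p * ((starRingEnd ℂ) z / z) + q * (z / (starRingEnd ℂ) z) - (p + q)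

theorem norm_ldf_le (p q : ℕ) (z : ℂ) : ‖ldf p q z‖ ≤ 2 * (p + q) := by
  unfold ldf
  have h1 : ‖(starRingEnd ℂ) z / z‖ ≤ 1 := by
    rw [norm_div, RCLike.norm_conj]; exact div_self_le_one _
  have h2 : ‖z / (starRingEnd ℂ) z‖ ≤ 1 := by
    rw [norm_div, RCLike.norm_conj]; exact div_self_le_one _
  calc ‖(p : ℂ) * ((starRingEnd ℂ) z / z) + q * (z / (starRingEnd ℂ) z) - (p + q)‖
      ≤ ‖(p : ℂ) * ((starRingEnd ℂ) z / z)‖ + ‖(q : ℂ) * (z / (starRingEnd ℂ) z)‖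
          + ‖((p : ℂ) + q)‖ := by
        refine (norm_sub_le _ _).trans ?_
        gcongr
        exact norm_add_le _ _
    _ ≤ p * 1 + q * 1 + (p + q) := by
        rw [norm_mul, norm_mul]
        have h3 : ‖(p : ℂ)‖ = p := by simp
        have h4 : ‖(q : ℂ)‖ = q := by simp
        have h5 : ‖((p : ℂ) + q)‖ ≤ p + q := by
          refine (norm_add_le _ _).trans ?_
          rw [h3, h4]
        rw [h3, h4]
        gcongr
    _ = 2 * (p + q) := by ring

theorem hasDerivAt_gm (w : ℝ) (v : ℤ × ℤ) :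
    HasDerivAt (fun t : ℝ => gm t v) ((v.1 : ℂ) * I) w := by
  have h1 : HasDerivAt (fun t : ℝ => (t : ℂ)) 1 w := (hasDerivAt_id w).ofReal_comp
  have h2 : HasDerivAt (fun t : ℝ => (v.1 : ℂ) * (-1 / 2 + (t : ℂ) * I) + (v.2 : ℂ))
      ((v.1 : ℂ) * (1 * I)) w :=
    (((h1.mul_const I).const_add (-1 / 2)).const_mul (v.1 : ℂ)).add_const (v.2 : ℂ)
  rw [one_mul] at h2
  exact h2

theorem hasDerivAt_conj_gm (w : ℝ) (v : ℤ × ℤ) :
    HasDerivAt (fun t : ℝ => (starRingEnd ℂ) (gm t v)) (-((v.1 : ℂ) * I)) w := by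
  have h1 : HasDerivAt (fun t : ℝ => (t : ℂ)) 1 w := (hasDerivAt_id w).ofReal_comp
  have h2 : HasDerivAt (fun t : ℝ => (v.1 : ℂ) * (-1 / 2 + (t : ℂ) * (-I)) + (v.2 : ℂ))
      ((v.1 : ℂ) * (1 * (-I))) w :=
    (((h1.mul_const (-I)).const_add (-1 / 2)).const_mul (v.1 : ℂ)).add_const (v.2 : ℂ)
  have e : (fun t : ℝ => (starRingEnd ℂ) (gm t v))
      = fun t : ℝ => (v.1 : ℂ) * (-1 / 2 + (t : ℂ) * (-I)) + (v.2 : ℂ) := by
    funext t
    simp only [gm, tau, map_add, map_mul, map_intCast, map_div₀, map_neg, map_one, conj_ofReal,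
      conj_I, map_ofNat]
  rw [e]
  exact h2.congr_deriv (by ring)

/-- `m I = (g - conj g) / (2 w)` -/
theorem gm_sub_conj (w : ℝ) (v : ℤ × ℤ) :
    gm w v - (starRingEnd ℂ) (gm w v) = 2 * w * ((v.1 : ℂ) * I) := by
  apply Complex.ext
  · simp
  · simp [gm_im]; ring

theorem hasDerivAt_mon {w : ℝ} (hw : 0 < w) {p q : ℕ} (hpq : 0 < p + q) (v : ℤ × ℤ) :
    HasDerivAt (fun t : ℝ => mon p q (gm t v))
      (1 / (2 * w) * (mon p q (gm w v) * ldf p q (gm w v))) w := by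
  rcases eq_or_ne v 0 with rfl | hv
  · have h0 : (fun t : ℝ => mon p q (gm t 0)) = fun _ => 0 := by
      funext t; rw [gm_zero, mon_zero_left hpq]
    rw [h0, gm_zero, mon_zero_left hpq]
    simpa using hasDerivAt_const w (0 : ℂ)
  · have hg : gm w v ≠ 0 := gm_ne_zero hw hv
    have hc : (starRingEnd ℂ) (gm w v) ≠ 0 := (map_ne_zero _).mpr hg
    have hp := (hasDerivAt_gm w v).pow p
    have hq := (hasDerivAt_conj_gm w v).pow q
    have hne : gm w v ^ p * (starRingEnd ℂ) (gm w v) ^ q ≠ 0 :=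
      mul_ne_zero (pow_ne_zero _ hg) (pow_ne_zero _ hc)
    have h := (hasDerivAt_const w (1 : ℂ)).div (hp.mul hq) hne
    refine HasDerivAt.congr_deriv (f := fun t : ℝ => mon p q (gm t v)) h ?_
    have hw' : (w : ℂ) ≠ 0 := by exact_mod_cast hw.ne'
    have hm : ((v.1 : ℂ) * I) = (gm w v - (starRingEnd ℂ) (gm w v)) / (2 * w) := by
      rw [gm_sub_conj]; field_simp
    rw [hm]
    unfold mon ldf
    have e1 : ∀ (n : ℕ) (z : ℂ), z ≠ 0 → (n : ℂ) * z ^ (n - 1) = n * z ^ n / z := by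
      intro n z hz
      rcases Nat.eq_zero_or_pos n with rfl | hn
      · simp
      · obtain ⟨k, rfl⟩ : ∃ k, n = k + 1 := ⟨n - 1, by omega⟩
        simp only [Nat.add_sub_cancel]
        field_simp
        ring
    simp only [Pi.mul_apply, Pi.pow_apply]
    rw [e1 p _ hg, e1 q _ hc]
    field_simp
    ring

theorem norm_inv_two_w {w1 w : ℝ} (h1 : 0 < w1) (h : w1 ≤ w) :
    ‖(1 / (2 * w) : ℂ)‖ ≤ 1 / (2 * w1) := by
  have hw : 0 < w := h1.trans_le h
  rw [show (1 / (2 * w) : ℂ) = ((1 / (2 * w) : ℝ) : ℂ) by push_cast; ring, norm_real,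
      Real.norm_of_nonneg (by positivity)]
  gcongr

theorem norm_deriv_mon_le {w1 w : ℝ} (h1 : 0 < w1) (h : w1 ≤ w) (p q : ℕ)
    (v : ℤ × ℤ) :
    ‖(1 / (2 * w) * (mon p q (gm w v) * ldf p q (gm w v)) : ℂ)‖
      ≤ (p + q) / w1 * an w1 v ^ (p + q) := by
  rw [norm_mul, norm_mul, ← norm_mon_gm]
  have h2 := norm_mon_gm_anti h1 h p q v
  have h3 := norm_ldf_le p q (gm w v)
  have h4 := norm_inv_two_w h1 h
  calc ‖(1 / (2 * w) : ℂ)‖ * (‖mon p q (gm w v)‖ * ‖ldf p q (gm w v)‖)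
      ≤ 1 / (2 * w1) * (‖mon p q (gm w1 v)‖ * (2 * (p + q))) := by gcongr
    _ = (p + q) / w1 * ‖mon p q (gm w1 v)‖ := by field_simp

theorem K_eq_mon (p q : ℕ) (a : ℤ × ℤ) (w : ℝ) : K p q a w = ∑' v, ch a v * mon p q (gm w v) := by
  rw [K]
  exact tsum_congr (fun v => by rw [mon, mul_one_div])

theorem summable_ch_mon {w : ℝ} (hw : 0 < w) {p q : ℕ} (h : 3 ≤ p + q) (a : ℤ × ℤ) :
    Summable fun v => ch a v * mon p q (gm w v) := by
  refine Summable.of_norm ?_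
  simp only [norm_mul, norm_ch, one_mul, norm_mon_gm]
  exact summable_an_pow hw h

/-- the derivative of the one-loop sum in monomial form, all `p + q ≥ 3` -/
theorem hasDerivAt_K_mon {w : ℝ} (hw : 0 < w) (a : ℤ × ℤ) {p q : ℕ} (h : 3 ≤ p + q) :
    HasDerivAt (fun w : ℝ => K p q a w)
      (∑' v, ch a v * (1 / (2 * w) * (mon p q (gm w v) * ldf p q (gm w v)))) w := by
  have hw1 : 0 < w / 2 := by positivity
  have hsum : Summable fun v : ℤ × ℤ => ((p : ℝ) + q) / (w / 2) * an (w / 2) v ^ (p + q) :=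
    (summable_an_pow hw1 h).mul_left _
  have e : (fun w : ℝ => K p q a w) = fun w : ℝ => ∑' v, ch a v * mon p q (gm w v) := by
    funext t; exact K_eq_mon p q a t
  rw [e]
  have hmem : w ∈ Set.Ioi (w / 2) := half_lt_self hw
  have hg : ∀ (v : ℤ × ℤ) (y : ℝ), y ∈ Set.Ioi (w / 2) →
      HasDerivAt (fun t : ℝ => ch a v * mon p q (gm t v))
        (ch a v * (1 / (2 * y) * (mon p q (gm y v) * ldf p q (gm y v)))) y := by
    intro v y hy
    have hy0 : 0 < y := hw1.trans hy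
    exact (hasDerivAt_mon hy0 (by omega) v).const_mul (ch a v)
  have hg' : ∀ (v : ℤ × ℤ) (y : ℝ), y ∈ Set.Ioi (w / 2) →
      ‖ch a v * (1 / (2 * y) * (mon p q (gm y v) * ldf p q (gm y v)))‖
        ≤ ((p : ℝ) + q) / (w / 2) * an (w / 2) v ^ (p + q) := by
    intro v y hy
    rw [norm_mul, norm_ch, one_mul]
    exact norm_deriv_mon_le hw1 (le_of_lt hy) p q v
  exact hasDerivAt_tsum_of_isPreconnected hsum isOpen_Ioi isPreconnected_Ioi hg hg' hmem
    (summable_ch_mon hw h a) hmem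

theorem mon_mul_ldf (p q : ℕ) (z : ℂ) :
    mon (p + 1) (q + 1) z * ldf (p + 1) (q + 1) z
      = (p + 1) * mon (p + 2) q z + (q + 1) * mon p (q + 2) z
        - (p + q + 2) * mon (p + 1) (q + 1) z + (if z = 0 then
          -((p + 1) * mon (p + 2) q z + (q + 1) * mon p (q + 2) z) else 0) := by
  unfold mon ldf
  rcases eq_or_ne z 0 with rfl | hz
  · simp
  · have hc : (starRingEnd ℂ) z ≠ 0 := (map_ne_zero _).mpr hz
    rw [if_neg hz]
    push_cast
    field_simp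
    ring

theorem mon_mul_ldf' (p q : ℕ) (z : ℂ) :
    mon (p + 1) (q + 1) z * ldf (p + 1) (q + 1) z
      = (p + 1) * mon (p + 2) q z + (q + 1) * mon p (q + 2) z
        - (p + q + 2) * mon (p + 1) (q + 1) z := by
  rw [mon_mul_ldf]
  rcases eq_or_ne z 0 with rfl | hz
  · rw [mon_zero_left (by omega), mon_zero_left (by omega), mon_zero_left (by omega)]
    simp
  · rw [if_neg hz, add_zero]

/-- (b4) -/
theorem hasDerivAt_K {w : ℝ} (hw : 0 < w) (a : ℤ × ℤ) {p q : ℕ} (h : 1 ≤ p + q) :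
    HasDerivAt (fun w : ℝ => K (p + 1) (q + 1) a w)
      ((1 / (w : ℂ)) * (-(((p : ℂ) + q + 2) / 2) * K (p + 1) (q + 1) a w
        + ((p : ℂ) + 1) / 2 * K (p + 2) q a w + ((q : ℂ) + 1) / 2 * K p (q + 2) a w)) w := by
  refine (hasDerivAt_K_mon hw a (p := p + 1) (q := q + 1) (by omega)).congr_deriv ?_
  have hw' : (w : ℂ) ≠ 0 := by exact_mod_cast hw.ne'
  have s1 := summable_ch_mon hw (p := p + 1) (q := q + 1) (by omega) a
  have s2 := summable_ch_mon hw (p := p + 2) (q := q) (by omega) a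
  have s3 := summable_ch_mon hw (p := p) (q := q + 2) (by omega) a
  rw [K_eq_mon, K_eq_mon, K_eq_mon, ← tsum_mul_left, ← tsum_mul_left, ← tsum_mul_left,
    ← (s1.mul_left _).tsum_add (s2.mul_left _),
    ← ((s1.mul_left _).add (s2.mul_left _)).tsum_add (s3.mul_left _), ← tsum_mul_left]
  refine tsum_congr (fun v => ?_)
  rw [mon_mul_ldf']
  field_simp
  ring

end Pool.RV
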