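import Pool.Agent.Work.MP_5955e5_nt.Defs

/-!
# Cell RV, block (b): basic facts on the lattice `L_w` and on the two-loop majorant (helper52)
-/

set_option autoImplicit false

open Complex

namespace Pool.RV

lemma tau_re (w : ℝ) : (tau w).re = -1 / 2 := by
  have h : (-1 / 2 : ℂ) = ((-1 / 2 : ℝ) : ℂ) := by push_cast; ring
  rw [tau, h, add_re, ofReal_re, re_ofReal_mul, I_re]
  ring

lemma tau_im (w : ℝ) : (tau w).im = w := by
  have h : (-1 / 2 : ℂ) = ((-1 / 2 : ℝ) : ℂ) := by push_cast; ring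
  rw [tau, h, add_im, ofReal_im, im_ofReal_mul, I_im]
  ring

lemma gm_re (w : ℝ) (v : ℤ × ℤ) : (gm w v).re = (v.2 : ℝ) - (v.1 : ℝ) / 2 := by
  have h1 : (v.1 : ℂ) = ((v.1 : ℝ) : ℂ) := by push_cast; rfl
  have h2 : (v.2 : ℂ) = ((v.2 : ℝ) : ℂ) := by push_cast; rfl
  rw [gm, h1, h2, add_re, ofReal_re, re_ofReal_mul, tau_re]
  ring

lemma gm_im (w : ℝ) (v : ℤ × ℤ) : (gm w v).im = (v.1 : ℝ) * w := by
  have h1 : (v.1 : ℂ) = ((v.1 : ℝ) : ℂ) := by push_cast; rfl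
  have h2 : (v.2 : ℂ) = ((v.2 : ℝ) : ℂ) := by push_cast; rfl
  rw [gm, h1, h2, add_im, ofReal_im, im_ofReal_mul, tau_im]
  ring

lemma normSq_gm (w : ℝ) (v : ℤ × ℤ) :
    normSq (gm w v) = ((v.2 : ℝ) - (v.1 : ℝ) / 2) ^ 2 + ((v.1 : ℝ) * w) ^ 2 := by
  rw [normSq_apply, gm_re, gm_im]
  ring

lemma gm_add (w : ℝ) (u v : ℤ × ℤ) : gm w (u + v) = gm w u + gm w v := by
  simp only [gm, Prod.fst_add, Prod.snd_add, Int.cast_add]
  ring

lemma gm_neg (w : ℝ) (v : ℤ × ℤ) : gm w (-v) = -gm w v := by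
  simp only [gm, Prod.fst_neg, Prod.snd_neg, Int.cast_neg]
  ring

lemma gm_sub (w : ℝ) (u v : ℤ × ℤ) : gm w (u - v) = gm w u - gm w v := by
  rw [sub_eq_add_neg, gm_add, gm_neg]
  ring

lemma gm_zero (w : ℝ) : gm w 0 = 0 := by
  simp [gm]

lemma gm_eq_zero_iff {w : ℝ} (hw : 0 < w) (v : ℤ × ℤ) : gm w v = 0 ↔ v = 0 := by
  constructor
  · intro h
    have him := gm_im w v
    have hre := gm_re w v
    rw [h, zero_im] at him
    rw [h, zero_re] at hre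
    have h1 : (v.1 : ℝ) = 0 := by
      rcases mul_eq_zero.mp him.symm with h1 | h1
      · exact h1
      · exact absurd h1 hw.ne'
    have h2 : (v.2 : ℝ) = 0 := by
      rw [h1] at hre
      linarith
    ext
    · exact_mod_cast h1
    · exact_mod_cast h2
  · rintro rfl
    exact gm_zero w

lemma gm_ne_zero {w : ℝ} (hw : 0 < w) {v : ℤ × ℤ} (hv : v ≠ 0) : gm w v ≠ 0 :=
  fun h => hv ((gm_eq_zero_iff hw v).mp h)

/-- monotonicity in `w`: every bound for `w₁` holds for all `w ≥ w₁` -/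
lemma norm_gm_mono {w₁ w : ℝ} (h1 : 0 ≤ w₁) (h : w₁ ≤ w) (v : ℤ × ℤ) :
    ‖gm w₁ v‖ ≤ ‖gm w v‖ := by
  have hsq : ‖gm w₁ v‖ ^ 2 ≤ ‖gm w v‖ ^ 2 := by
    rw [← normSq_eq_norm_sq, ← normSq_eq_norm_sq, normSq_gm, normSq_gm]
    have h2 : w₁ ^ 2 ≤ w ^ 2 := by nlinarith
    have h3 : (0 : ℝ) ≤ (v.1 : ℝ) ^ 2 := sq_nonneg _
    nlinarith [mul_le_mul_of_nonneg_left h2 h3]
  exact le_of_sq_le_sq hsq (norm_nonneg _)

/-- inverse norm of a lattice point (`0` at `0`) -/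
noncomputable def an (w : ℝ) (v : ℤ × ℤ) : ℝ := ‖gm w v‖⁻¹

/-- inverse of a lattice point (`0` at `0`) -/
noncomputable def ui (w : ℝ) (v : ℤ × ℤ) : ℂ := (gm w v)⁻¹

/-- inverse of the conjugate of a lattice point (`0` at `0`) -/
noncomputable def ub (w : ℝ) (v : ℤ × ℤ) : ℂ := ((starRingEnd ℂ) (gm w v))⁻¹

lemma an_nonneg (w : ℝ) (v : ℤ × ℤ) : 0 ≤ an w v := inv_nonneg.mpr (norm_nonneg _)

lemma an_zero (w : ℝ) : an w 0 = 0 := by simp [an, gm_zero]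

lemma ui_zero (w : ℝ) : ui w 0 = 0 := by simp [ui, gm_zero]

lemma ub_zero (w : ℝ) : ub w 0 = 0 := by simp [ub, gm_zero]

lemma an_neg (w : ℝ) (v : ℤ × ℤ) : an w (-v) = an w v := by simp [an, gm_neg]

lemma ui_neg (w : ℝ) (v : ℤ × ℤ) : ui w (-v) = -ui w v := by simp [ui, gm_neg, inv_neg]

lemma ub_neg (w : ℝ) (v : ℤ × ℤ) : ub w (-v) = -ub w v := by simp [ub, gm_neg, inv_neg]

lemma norm_ui (w : ℝ) (v : ℤ × ℤ) : ‖ui w v‖ = an w v := by simp [ui, an]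

lemma norm_ub (w : ℝ) (v : ℤ × ℤ) : ‖ub w v‖ = an w v := by simp [ub, an]

lemma conj_ui (w : ℝ) (v : ℤ × ℤ) : (starRingEnd ℂ) (ui w v) = ub w v := by
  simp [ui, ub]

lemma conj_ub (w : ℝ) (v : ℤ × ℤ) : (starRingEnd ℂ) (ub w v) = ui w v := by
  simp [ui, ub]

lemma an_anti {w₁ w : ℝ} (h1 : 0 < w₁) (h : w₁ ≤ w) (v : ℤ × ℤ) : an w v ≤ an w₁ v := by
  by_cases hv : v = 0
  · subst hv
    rw [an_zero, an_zero]
  · exact inv_anti₀ (norm_pos_iff.mpr (gm_ne_zero h1 hv)) (norm_gm_mono h1.le h v)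

/-- the basic summability: `∑ |g|^(-k)` converges for `k ≥ 3` -/
lemma summable_an_pow {w : ℝ} (hw : 0 < w) {k : ℕ} (hk : 3 ≤ k) :
    Summable fun v : ℤ × ℤ => an w v ^ k := by
  have hz : 0 < (tau w).im := by rw [tau_im]; exact hw
  let z : UpperHalfPlane := ⟨tau w, hz⟩
  have hk' : (2 : ℝ) < (k : ℝ) := by
    have : (3 : ℝ) ≤ (k : ℝ) := by exact_mod_cast hk
    linarith
  have h1 := (EisensteinSeries.summable_one_div_norm_rpow hk').mul_left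
    (EisensteinSeries.r z ^ (-(k : ℝ)))
  have h2 : Summable fun x : Fin 2 → ℤ => ‖(x 0 : ℂ) * (z : ℂ) + x 1‖ ^ (-(k : ℝ)) :=
    Summable.of_nonneg_of_le (fun x => Real.rpow_nonneg (norm_nonneg _) _)
      (fun x => EisensteinSeries.summand_bound z (by positivity) x) h1
  have h3 := (finTwoArrowEquiv ℤ).symm.summable_iff.mpr h2
  refine h3.congr (fun v => ?_)
  simp only [Function.comp_apply, finTwoArrowEquiv_symm_apply, Matrix.cons_val_zero,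
    Matrix.cons_val_one]
  rw [Real.rpow_neg (norm_nonneg _), Real.rpow_natCast, an, inv_pow]
  rfl

lemma summable_an3 {w : ℝ} (hw : 0 < w) : Summable fun v : ℤ × ℤ => an w v ^ 3 :=
  summable_an_pow hw le_rfl

/-- change of variables `(p, q) ↦ (p, p + q)` -/
def eqr : (ℤ × ℤ) × (ℤ × ℤ) ≃ (ℤ × ℤ) × (ℤ × ℤ) where
  toFun x := (x.1, x.1 + x.2)
  invFun y := (y.1, y.2 - y.1)
  left_inv x := by simp
  right_inv y := by simp

/-- change of variables `(p, q) ↦ (q, p + q)` -/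
def eql : (ℤ × ℤ) × (ℤ × ℤ) ≃ (ℤ × ℤ) × (ℤ × ℤ) where
  toFun x := (x.2, x.1 + x.2)
  invFun y := (y.2 - y.1, y.1)
  left_inv x := by simp
  right_inv y := by simp

/-- the two-loop majorant -/
noncomputable def MM (w : ℝ) (x : (ℤ × ℤ) × (ℤ × ℤ)) : ℝ :=
  an w x.1 ^ 3 * an w x.2 ^ 3 + an w x.1 ^ 3 * an w (x.1 + x.2) ^ 3
    + an w x.2 ^ 3 * an w (x.1 + x.2) ^ 3

lemma summable_an3_mul {w : ℝ} (hw : 0 < w) :
    Summable fun x : (ℤ × ℤ) × (ℤ × ℤ) => an w x.1 ^ 3 * an w x.2 ^ 3 :=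
  (summable_an3 hw).mul_of_nonneg (summable_an3 hw) (fun v => pow_nonneg (an_nonneg w v) 3)
    (fun v => pow_nonneg (an_nonneg w v) 3)

lemma summable_an3_mul_r {w : ℝ} (hw : 0 < w) :
    Summable fun x : (ℤ × ℤ) × (ℤ × ℤ) => an w x.1 ^ 3 * an w (x.1 + x.2) ^ 3 :=
  eqr.summable_iff.mpr (summable_an3_mul hw)

lemma summable_an3_mul_l {w : ℝ} (hw : 0 < w) :
    Summable fun x : (ℤ × ℤ) × (ℤ × ℤ) => an w x.2 ^ 3 * an w (x.1 + x.2) ^ 3 :=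
  eql.summable_iff.mpr (summable_an3_mul hw)

lemma summable_MM {w : ℝ} (hw : 0 < w) : Summable (MM w) :=
  ((summable_an3_mul hw).add (summable_an3_mul_r hw)).add (summable_an3_mul_l hw)

lemma MM_nonneg (w : ℝ) (x : (ℤ × ℤ) × (ℤ × ℤ)) : 0 ≤ MM w x := by
  have h1 := an_nonneg w x.1
  have h2 := an_nonneg w x.2
  have h3 := an_nonneg w (x.1 + x.2)
  rw [MM]
  positivity

lemma amgm222 {A B C : ℝ} (hA : 0 ≤ A) (hB : 0 ≤ B) (hC : 0 ≤ C) :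
    A ^ 2 * B ^ 2 * C ^ 2 ≤ A ^ 3 * B ^ 3 + A ^ 3 * C ^ 3 + B ^ 3 * C ^ 3 := by
  have key : ∀ x y z : ℝ, 0 ≤ x → 0 ≤ y → 0 ≤ z → x * y * z ≤ x ^ 3 + y ^ 3 + z ^ 3 := by
    intro x y z hx hy hz
    nlinarith [mul_nonneg (add_nonneg (add_nonneg hx hy) hz)
      (add_nonneg (add_nonneg (sq_nonneg (x - y)) (sq_nonneg (y - z))) (sq_nonneg (x - z))),
      mul_nonneg (mul_nonneg hx hy) hz]
  have := key (A * B) (A * C) (B * C) (mul_nonneg hA hB) (mul_nonneg hA hC) (mul_nonneg hB hC)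
  nlinarith [this]

lemma amgm12 {A B : ℝ} (hA : 0 ≤ A) (hB : 0 ≤ B) : A * B ^ 2 ≤ A ^ 3 + B ^ 3 := by
  nlinarith [mul_nonneg (add_nonneg hA (add_nonneg hB hB)) (sq_nonneg (A - B)),
    pow_nonneg hA 3, pow_nonneg hB 3]

/-- exponents `(2,2,2)` -/
lemma an222_le (w : ℝ) (x : (ℤ × ℤ) × (ℤ × ℤ)) :
    an w x.1 ^ 2 * an w x.2 ^ 2 * an w (x.1 + x.2) ^ 2 ≤ MM w x :=
  amgm222 (an_nonneg w _) (an_nonneg w _) (an_nonneg w _)

/-- exponents `(1,2,3)` -/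
lemma an123_le (w : ℝ) (x : (ℤ × ℤ) × (ℤ × ℤ)) :
    an w x.1 * an w x.2 ^ 2 * an w (x.1 + x.2) ^ 3 ≤ MM w x := by
  have h1 := an_nonneg w x.1
  have h2 := an_nonneg w x.2
  have h3 := an_nonneg w (x.1 + x.2)
  have := mul_le_mul_of_nonneg_right (amgm12 h1 h2) (pow_nonneg h3 3)
  rw [MM]
  have h4 : 0 ≤ an w x.1 ^ 3 * an w x.2 ^ 3 := by positivity
  nlinarith [this]

/-- exponents `(2,1,3)` -/
lemma an213_le (w : ℝ) (x : (ℤ × ℤ) × (ℤ × ℤ)) :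
    an w x.1 ^ 2 * an w x.2 * an w (x.1 + x.2) ^ 3 ≤ MM w x := by
  have h1 := an_nonneg w x.1
  have h2 := an_nonneg w x.2
  have h3 := an_nonneg w (x.1 + x.2)
  have := mul_le_mul_of_nonneg_right (amgm12 h2 h1) (pow_nonneg h3 3)
  rw [MM]
  have h4 : 0 ≤ an w x.1 ^ 3 * an w x.2 ^ 3 := by positivity
  nlinarith [this]

/-! characters -/

lemma ch_add_right (a u v : ℤ × ℤ) : ch a (u + v) = ch a u * ch a v := by
  rw [ch, ch, ch, ← exp_add]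
  congr 1
  simp only [Prod.fst_add, Prod.snd_add]
  push_cast
  ring

lemma ch_add_left (a b v : ℤ × ℤ) : ch (a + b) v = ch a v * ch b v := by
  rw [ch, ch, ch, ← exp_add]
  congr 1
  simp only [Prod.fst_add, Prod.snd_add]
  push_cast
  ring

lemma ch_zero_right (a : ℤ × ℤ) : ch a 0 = 1 := by
  simp [ch]

lemma ch_zero_left (v : ℤ × ℤ) : ch 0 v = 1 := by
  simp [ch]

lemma ch_zero_left' (v : ℤ × ℤ) : ch (0, 0) v = 1 := by
  simp [ch]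

lemma norm_ch (a v : ℤ × ℤ) : ‖ch a v‖ = 1 := by
  have h : 2 * (Real.pi : ℂ) * I * ((a.1 * v.1 + a.2 * v.2 : ℤ) : ℂ) / 6
      = ((2 * Real.pi * ((a.1 * v.1 + a.2 * v.2 : ℤ) : ℝ) / 6 : ℝ) : ℂ) * I := by
    push_cast
    ring
  rw [ch, h, norm_exp_ofReal_mul_I]

lemma ch_ne_zero (a v : ℤ × ℤ) : ch a v ≠ 0 := exp_ne_zero _

lemma ch_neg_right (a v : ℤ × ℤ) : ch a (-v) = (ch a v)⁻¹ := by
  have h := ch_add_right a v (-v)
  rw [add_neg_cancel, ch_zero_right] at h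
  exact eq_inv_of_mul_eq_one_right h.symm

lemma ch_neg_left (a v : ℤ × ℤ) : ch (-a) v = (ch a v)⁻¹ := by
  have h := ch_add_left a (-a) v
  rw [add_neg_cancel, ch_zero_left] at h
  exact eq_inv_of_mul_eq_one_right h.symm

lemma ch_neg_neg (a v : ℤ × ℤ) : ch (-a) (-v) = ch a v := by
  rw [ch_neg_left, ch_neg_right, inv_inv]

lemma ch_sub_left (a b v : ℤ × ℤ) : ch (a - b) v = ch a v * ch b (-v) := by
  rw [sub_eq_add_neg, ch_add_left, ch_neg_left, ch_neg_right]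

lemma conj_ch (a v : ℤ × ℤ) : (starRingEnd ℂ) (ch a v) = ch a (-v) := by
  rw [ch_neg_right, inv_def, normSq_eq_norm_sq, norm_ch]
  simp

/-- periodicity mod 6 -/
lemma ch_six (a v c : ℤ × ℤ) : ch (a + (6 * c.1, 6 * c.2)) v = ch a v := by
  rw [ch_add_left]
  have : ch (6 * c.1, 6 * c.2) v = 1 := by
    rw [ch]
    have h : 2 * (Real.pi : ℂ) * I * ((6 * c.1 * v.1 + 6 * c.2 * v.2 : ℤ) : ℂ) / 6
        = ((c.1 * v.1 + c.2 * v.2 : ℤ) : ℂ) * (2 * Real.pi * I) := by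
      push_cast
      ring
    simp only
    rw [h]
    exact exp_int_mul_two_pi_mul_I _
  rw [this, mul_one]

/-! reflection `g ↦ conj g` -/

/-- the reflection `(m, n) ↦ (-m, n - m)` -/
def rho : ℤ × ℤ ≃ ℤ × ℤ where
  toFun v := (-v.1, v.2 - v.1)
  invFun v := (-v.1, v.2 - v.1)
  left_inv v := by ext <;> simp
  right_inv v := by ext <;> simp

lemma rho_add (u v : ℤ × ℤ) : rho (u + v) = rho u + rho v := by
  ext
  · simp [rho]; ring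
  · simp [rho]; ring

lemma gm_rho (w : ℝ) (v : ℤ × ℤ) : gm w (rho v) = (starRingEnd ℂ) (gm w v) := by
  apply Complex.ext
  · rw [conj_re, gm_re, gm_re]
    simp only [rho, Equiv.coe_fn_mk]
    push_cast
    ring
  · rw [conj_im, gm_im, gm_im]
    simp only [rho, Equiv.coe_fn_mk]
    push_cast
    ring

lemma ch_rho (a v : ℤ × ℤ) : ch a (rho v) = ch (-a.1 - a.2, a.2) v := by
  rw [ch, ch]
  congr 1
  simp only [rho, Equiv.coe_fn_mk]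
  push_cast
  ring

lemma ui_rho (w : ℝ) (v : ℤ × ℤ) : ui w (rho v) = ub w v := by
  rw [ui, ub, gm_rho]

lemma ub_rho (w : ℝ) (v : ℤ × ℤ) : ub w (rho v) = ui w v := by
  rw [ui, ub, gm_rho, conj_conj]

/-! the one-loop sums in the form `∑ ch a v * ui^p * ub^q` -/

lemma K_term (p q : ℕ) (a : ℤ × ℤ) (w : ℝ) (v : ℤ × ℤ) :
    ch a v / (gm w v ^ p * (starRingEnd ℂ) (gm w v) ^ q) = ch a v * (ui w v ^ p * ub w v ^ q) := by
  rw [ui, ub, div_eq_mul_inv, mul_inv, inv_pow, inv_pow]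

lemma norm_K_term (p q : ℕ) (a : ℤ × ℤ) (w : ℝ) (v : ℤ × ℤ) :
    ‖ch a v * (ui w v ^ p * ub w v ^ q)‖ = an w v ^ (p + q) := by
  rw [norm_mul, norm_ch, norm_mul, norm_pow, norm_pow, norm_ui, norm_ub, one_mul, pow_add]

lemma summable_K_norm {w : ℝ} (hw : 0 < w) {p q : ℕ} (h : 3 ≤ p + q) (a : ℤ × ℤ) :
    Summable fun v : ℤ × ℤ => ‖ch a v * (ui w v ^ p * ub w v ^ q)‖ := by
  simp only [norm_K_term]
  exact summable_an_pow hw h

lemma summable_K {w : ℝ} (hw : 0 < w) {p q : ℕ} (h : 3 ≤ p + q) (a : ℤ × ℤ) :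
    Summable fun v : ℤ × ℤ => ch a v * (ui w v ^ p * ub w v ^ q) :=
  (summable_K_norm hw h a).of_norm

lemma K_eq (p q : ℕ) (a : ℤ × ℤ) (w : ℝ) :
    K p q a w = ∑' v : ℤ × ℤ, ch a v * (ui w v ^ p * ub w v ^ q) := by
  rw [K]
  exact tsum_congr (fun v => K_term p q a w v)

lemma hasSum_K {w : ℝ} (hw : 0 < w) {p q : ℕ} (h : 3 ≤ p + q) (a : ℤ × ℤ) :
    HasSum (fun v : ℤ × ℤ => ch a v * (ui w v ^ p * ub w v ^ q)) (K p q a w) := by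
  rw [K_eq]
  exact (summable_K hw h a).hasSum

/-- parity: `K_{pq}(-a) = (-1)^(p+q) K_{pq}(a)` -/
lemma K_neg (p q : ℕ) (a : ℤ × ℤ) (w : ℝ) : K p q (-a) w = (-1) ^ (p + q) * K p q a w := by
  rw [K_eq, K_eq, ← tsum_mul_left, ← (Equiv.neg (ℤ × ℤ)).tsum_eq]
  refine tsum_congr (fun v => ?_)
  simp only [Equiv.neg_apply]
  rw [ch_neg_neg, ui_neg, ub_neg, neg_pow (ui w v), neg_pow (ub w v), pow_add]
  ring

lemma K_congr (p q : ℕ) {a b : ℤ × ℤ} (w : ℝ) (h : ∀ v, ch a v = ch b v) :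
    K p q a w = K p q b w := by
  rw [K_eq, K_eq]
  exact tsum_congr (fun v => by rw [h v])

/-! the terms of the derivative of the two-loop sums:
`d/dw (w³ Tterm a b w x) = (w²/2) ch a x.1 ch b x.2 (Dt w x + Ft w x)` -/

/-- `D`-term -/
noncomputable def Dt (w : ℝ) (x : (ℤ × ℤ) × (ℤ × ℤ)) : ℂ :=
  ui w x.1 ^ 2 * (ui w x.2 * ub w x.2) * ui w (x.1 + x.2) ^ 2
    + (ui w x.1 * ub w x.1) * ui w x.2 ^ 2 * ui w (x.1 + x.2) ^ 2
    + 2 * ((ui w x.1 * ub w x.1) * (ui w x.2 * ub w x.2) *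
        (ui w (x.1 + x.2) ^ 3 * (starRingEnd ℂ) (gm w (x.1 + x.2))))

/-- `F`-term -/
noncomputable def Ft (w : ℝ) (x : (ℤ × ℤ) × (ℤ × ℤ)) : ℂ :=
  ub w x.1 ^ 2 * (ui w x.2 * ub w x.2) * ui w (x.1 + x.2) ^ 2
    + (ui w x.1 * ub w x.1) * ub w x.2 ^ 2 * ui w (x.1 + x.2) ^ 2

lemma ui_pow3_conj (w : ℝ) (v : ℤ × ℤ) :
    ‖ui w v ^ 3 * (starRingEnd ℂ) (gm w v)‖ = an w v ^ 2 := by
  rw [norm_mul, norm_pow, norm_ui, RCLike.norm_conj, an]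
  by_cases h : ‖gm w v‖ = 0
  · rw [h]; simp
  · field_simp

lemma norm_Dt_le (w : ℝ) (x : (ℤ × ℤ) × (ℤ × ℤ)) : ‖Dt w x‖ ≤ 4 * MM w x := by
  have h := an222_le w x
  have e1 : ‖ui w x.1 ^ 2 * (ui w x.2 * ub w x.2) * ui w (x.1 + x.2) ^ 2‖
      = an w x.1 ^ 2 * an w x.2 ^ 2 * an w (x.1 + x.2) ^ 2 := by
    rw [norm_mul, norm_mul, norm_mul, norm_pow, norm_pow, norm_ui, norm_ui, norm_ub, norm_ui]
    ring
  have e2 : ‖(ui w x.1 * ub w x.1) * ui w x.2 ^ 2 * ui w (x.1 + x.2) ^ 2‖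
      = an w x.1 ^ 2 * an w x.2 ^ 2 * an w (x.1 + x.2) ^ 2 := by
    rw [norm_mul, norm_mul, norm_mul, norm_pow, norm_pow, norm_ui, norm_ui, norm_ub, norm_ui]
    ring
  have e3 : ‖2 * ((ui w x.1 * ub w x.1) * (ui w x.2 * ub w x.2) *
        (ui w (x.1 + x.2) ^ 3 * (starRingEnd ℂ) (gm w (x.1 + x.2))))‖
      = 2 * (an w x.1 ^ 2 * an w x.2 ^ 2 * an w (x.1 + x.2) ^ 2) := by
    rw [norm_mul, norm_mul, norm_mul, norm_mul, norm_mul, ui_pow3_conj, norm_ui, norm_ub, norm_ui,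
      norm_ub]
    simp only [Complex.norm_ofNat]
    ring
  rw [Dt]
  refine (norm_add_le _ _).trans ?_
  refine (add_le_add_left (norm_add_le _ _) _).trans ?_
  rw [e1, e2, e3]
  linarith

lemma norm_Ft_le (w : ℝ) (x : (ℤ × ℤ) × (ℤ × ℤ)) : ‖Ft w x‖ ≤ 2 * MM w x := by
  have h := an222_le w x
  have e1 : ‖ub w x.1 ^ 2 * (ui w x.2 * ub w x.2) * ui w (x.1 + x.2) ^ 2‖
      = an w x.1 ^ 2 * an w x.2 ^ 2 * an w (x.1 + x.2) ^ 2 := by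
    rw [norm_mul, norm_mul, norm_mul, norm_pow, norm_pow, norm_ub, norm_ui, norm_ub, norm_ui]
    ring
  have e2 : ‖(ui w x.1 * ub w x.1) * ub w x.2 ^ 2 * ui w (x.1 + x.2) ^ 2‖
      = an w x.1 ^ 2 * an w x.2 ^ 2 * an w (x.1 + x.2) ^ 2 := by
    rw [norm_mul, norm_mul, norm_mul, norm_pow, norm_pow, norm_ui, norm_ub, norm_ub, norm_ui]
    ring
  rw [Ft]
  refine (norm_add_le _ _).trans ?_
  rw [e1, e2]
  linarith

/-- summability of any two-loop family dominated by the majorant -/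
lemma summable_of_le_MM {w : ℝ} (hw : 0 < w) {f : (ℤ × ℤ) × (ℤ × ℤ) → ℂ} {C : ℝ}
    (h : ∀ x, ‖f x‖ ≤ C * MM w x) : Summable f :=
  Summable.of_norm_bounded ((summable_MM hw).mul_left C) h

lemma norm_ch_mul (a b : ℤ × ℤ) (x : (ℤ × ℤ) × (ℤ × ℤ)) (z : ℂ) :
    ‖ch a x.1 * ch b x.2 * z‖ = ‖z‖ := by
  rw [norm_mul, norm_mul, norm_ch, norm_ch, one_mul, one_mul]

lemma summable_Dt {w : ℝ} (hw : 0 < w) (a b : ℤ × ℤ) :
    Summable fun x : (ℤ × ℤ) × (ℤ × ℤ) => ch a x.1 * ch b x.2 * Dt w x :=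
  summable_of_le_MM hw (C := 4) (fun x => by rw [norm_ch_mul]; exact norm_Dt_le w x)

lemma summable_Ft {w : ℝ} (hw : 0 < w) (a b : ℤ × ℤ) :
    Summable fun x : (ℤ × ℤ) × (ℤ × ℤ) => ch a x.1 * ch b x.2 * Ft w x :=
  summable_of_le_MM hw (C := 2) (fun x => by rw [norm_ch_mul]; exact norm_Ft_le w x)

lemma Tterm_eq (a b : ℤ × ℤ) (w : ℝ) (x : (ℤ × ℤ) × (ℤ × ℤ)) :
    Tterm a b w x = ch a x.1 * ch b x.2 *
      ((ui w x.1 * ub w x.1) * (ui w x.2 * ub w x.2) * ui w (x.1 + x.2) ^ 2) := by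
  rw [Tterm, ui, ub, ui, ub, ui, ← mul_inv, ← mul_inv, mul_conj, mul_conj, ← mul_inv, inv_pow,
    ← mul_inv, div_eq_mul_inv]

lemma norm_Tterm_le (a b : ℤ × ℤ) (w : ℝ) (x : (ℤ × ℤ) × (ℤ × ℤ)) :
    ‖Tterm a b w x‖ ≤ MM w x := by
  rw [Tterm_eq, norm_ch_mul, norm_mul, norm_mul, norm_mul, norm_mul, norm_pow, norm_ui, norm_ub,
    norm_ui, norm_ub, norm_ui]
  have := an222_le w x
  nlinarith [this]

lemma summable_Tterm {w : ℝ} (hw : 0 < w) (a b : ℤ × ℤ) : Summable (Tterm a b w) :=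
  summable_of_le_MM hw (C := 1) (fun x => by rw [one_mul]; exact norm_Tterm_le a b w x)

end Pool.RV
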