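import Pool.Agent.Work.MP_5955e5_nt.B.LimRiem

/-!
# Cell RV, block (b6): the kernels `1 / (g^p conj(g)^q)`, `g = t + c`, `c` purely imaginary
-/

set_option autoImplicit false

open Complex MeasureTheory Filter Topology

namespace Pool.RV

/-- the kernel -/
noncomputable def Ker (p q : ℕ) (c : ℂ) (t : ℝ) : ℂ :=
  (((t : ℂ) + c) ^ p)⁻¹ * (((t : ℂ) + (starRingEnd ℂ) c) ^ q)⁻¹

/-- its derivative -/
noncomputable def Ker' (p q : ℕ) (c : ℂ) (t : ℝ) : ℂ :=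
  -(p : ℂ) * Ker (p + 1) q c t - (q : ℂ) * Ker p (q + 1) c t

theorem conj_shift (c : ℂ) (t : ℝ) : (t : ℂ) + (starRingEnd ℂ) c = (starRingEnd ℂ) ((t : ℂ) + c) := by
  rw [map_add, Complex.conj_ofReal]

theorem norm_sq_shift {c : ℂ} (hc : c.re = 0) (t : ℝ) : ‖(t : ℂ) + c‖ ^ 2 = t ^ 2 + c.im ^ 2 := by
  rw [← Complex.normSq_eq_norm_sq, Complex.normSq_apply]
  simp only [add_re, ofReal_re, add_im, ofReal_im, hc]
  ring

theorem shift_ne {c : ℂ} (hc : c.re = 0) (hi : c.im ≠ 0) (t : ℝ) : (t : ℂ) + c ≠ 0 := by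
  intro h
  have h1 := norm_sq_shift hc t
  rw [h, norm_zero] at h1
  have h2 : 0 < c.im ^ 2 := by positivity
  nlinarith [sq_nonneg t]

theorem im_le_norm_shift (c : ℂ) (t : ℝ) : |c.im| ≤ ‖(t : ℂ) + c‖ := by
  have h1 := Complex.abs_im_le_norm ((t : ℂ) + c)
  simpa using h1

theorem norm_Ker (p q : ℕ) (c : ℂ) (t : ℝ) : ‖Ker p q c t‖ = (‖(t : ℂ) + c‖ ^ (p + q))⁻¹ := by
  rw [Ker, norm_mul, norm_inv, norm_inv, norm_pow, norm_pow, conj_shift, Complex.norm_conj,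
    pow_add, mul_inv]

theorem hasDerivAt_Ker (p q : ℕ) {c : ℂ} (hc : c.re = 0) (hi : c.im ≠ 0) (t : ℝ) :
    HasDerivAt (Ker p q c) (Ker' p q c t) t := by
  have hne := shift_ne hc hi t
  have hne' : (t : ℂ) + (starRingEnd ℂ) c ≠ 0 := by
    rw [conj_shift]
    exact (map_ne_zero _).mpr hne
  have key : ∀ (k : ℕ) (a : ℂ), (t : ℂ) + a ≠ 0 →
      HasDerivAt (fun z : ℂ => ((z + a) ^ k)⁻¹) (-(k : ℂ) * (((t : ℂ) + a) ^ (k + 1))⁻¹) (t : ℂ) := by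
    intro k a ha
    have h1 : HasDerivAt (fun z : ℂ => z + a) 1 (t : ℂ) := (hasDerivAt_id _).add_const a
    have h2 := (h1.pow k).inv (pow_ne_zero k ha)
    refine h2.congr_deriv ?_
    rcases k with _ | k
    · simp
    · simp only [Pi.pow_apply, Nat.add_sub_cancel, mul_one]
      field_simp
      ring
  have h3 := ((key p c hne).mul (key q _ hne')).comp_ofReal
  refine h3.congr_deriv ?_
  rw [Ker', Ker, Ker]
  ring

theorem inv_sq_shift {c : ℂ} (hc : c.re = 0) (hi : c.im ≠ 0) (t : ℝ) :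
    (‖(t : ℂ) + c‖ ^ 2)⁻¹ = (c.im ^ 2)⁻¹ * (1 + (t / c.im) ^ 2)⁻¹ := by
  rw [norm_sq_shift hc]
  have : (0 : ℝ) < t ^ 2 + c.im ^ 2 := by positivity
  field_simp
  ring

theorem integrable_inv_sq {c : ℂ} (hc : c.re = 0) (hi : c.im ≠ 0) :
    Integrable (fun t : ℝ => (‖(t : ℂ) + c‖ ^ 2)⁻¹) := by
  simp_rw [inv_sq_shift hc hi]
  exact (integrable_inv_one_add_sq.comp_div hi).const_mul _

theorem integral_inv_sq {c : ℂ} (hc : c.re = 0) (hi : c.im ≠ 0) :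
    ∫ t : ℝ, (‖(t : ℂ) + c‖ ^ 2)⁻¹ = Real.pi / |c.im| := by
  simp_rw [inv_sq_shift hc hi]
  rw [integral_const_mul, Measure.integral_comp_div (fun t : ℝ => (1 + t ^ 2)⁻¹) c.im,
    integral_univ_inv_one_add_sq, smul_eq_mul]
  have : c.im ^ 2 = |c.im| ^ 2 := (sq_abs _).symm
  have h0 : |c.im| ≠ 0 := abs_ne_zero.mpr hi
  rw [this]
  field_simp

/-- bound of the kernel -/
theorem norm_Ker_le (p q : ℕ) (hpq : 2 ≤ p + q) {c : ℂ} (hi : c.im ≠ 0)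
    (t : ℝ) : ‖Ker p q c t‖ ≤ (|c.im| ^ (p + q - 2))⁻¹ * (‖(t : ℂ) + c‖ ^ 2)⁻¹ := by
  rw [norm_Ker]
  obtain ⟨k, hk⟩ : ∃ k, p + q = k + 2 := ⟨p + q - 2, by omega⟩
  rw [hk, Nat.add_sub_cancel, pow_add, mul_inv]
  have h1 : 0 < |c.im| := abs_pos.mpr hi
  have h2 := im_le_norm_shift c t
  have h3 : |c.im| ^ k ≤ ‖(t : ℂ) + c‖ ^ k := pow_le_pow_left₀ h1.le h2 k
  have h4 : (‖(t : ℂ) + c‖ ^ k)⁻¹ ≤ (|c.im| ^ k)⁻¹ := inv_anti₀ (by positivity) h3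
  exact mul_le_mul_of_nonneg_right h4 (by positivity)

theorem continuous_Ker (p q : ℕ) {c : ℂ} (hc : c.re = 0) (hi : c.im ≠ 0) :
    Continuous (Ker p q c) :=
  continuous_iff_continuousAt.mpr fun t => (hasDerivAt_Ker p q hc hi t).continuousAt

theorem integrable_Ker (p q : ℕ) (hpq : 2 ≤ p + q) {c : ℂ} (hc : c.re = 0) (hi : c.im ≠ 0) :
    Integrable (Ker p q c) :=
  ((integrable_inv_sq hc hi).const_mul ((|c.im| ^ (p + q - 2))⁻¹)).mono'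
    (continuous_Ker p q hc hi).aestronglyMeasurable
    (Eventually.of_forall fun t => norm_Ker_le p q hpq hi t)

theorem norm_Ker'_le (p q : ℕ) (hpq : 1 ≤ p + q) {c : ℂ} (hc : c.re = 0) (hi : c.im ≠ 0)
    (t : ℝ) : ‖Ker' p q c t‖ ≤
      ((p + q : ℕ) : ℝ) * (|c.im| ^ (p + q - 1))⁻¹ * (‖(t : ℂ) + c‖ ^ 2)⁻¹ := by
  have h1 := norm_Ker_le (p + 1) q (by omega) hi t
  have h2 := norm_Ker_le p (q + 1) (by omega) hi t
  have e1 : p + 1 + q - 2 = p + q - 1 := by omega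
  have e2 : p + (q + 1) - 2 = p + q - 1 := by omega
  rw [e1] at h1
  rw [e2] at h2
  calc ‖Ker' p q c t‖ ≤ ‖-(p : ℂ) * Ker (p + 1) q c t‖ + ‖(q : ℂ) * Ker p (q + 1) c t‖ :=
        norm_sub_le _ _
    _ = (p : ℝ) * ‖Ker (p + 1) q c t‖ + (q : ℝ) * ‖Ker p (q + 1) c t‖ := by
        rw [norm_mul, norm_mul, norm_neg, Complex.norm_natCast, Complex.norm_natCast]
    _ ≤ (p : ℝ) * ((|c.im| ^ (p + q - 1))⁻¹ * (‖(t : ℂ) + c‖ ^ 2)⁻¹) +
        (q : ℝ) * ((|c.im| ^ (p + q - 1))⁻¹ * (‖(t : ℂ) + c‖ ^ 2)⁻¹) := by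
        gcongr
    _ = _ := by push_cast; ring

theorem integrable_Ker' (p q : ℕ) (hpq : 1 ≤ p + q) {c : ℂ} (hc : c.re = 0) (hi : c.im ≠ 0) :
    Integrable (Ker' p q c) := by
  have h1 := integrable_Ker (p + 1) q (by omega) hc hi
  have h2 := integrable_Ker p (q + 1) (by omega) hc hi
  exact (h1.const_mul _).sub (h2.const_mul _)

/-- `∫ |Ker'| ≤ (p + q) π / Y^(p+q)` -/
theorem integral_norm_Ker'_le (p q : ℕ) (hpq : 1 ≤ p + q) {c : ℂ} (hc : c.re = 0)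
    (hi : c.im ≠ 0) :
    ∫ t, ‖Ker' p q c t‖ ≤ ((p + q : ℕ) : ℝ) * Real.pi / |c.im| ^ (p + q) := by
  have h1 : ∫ t, ‖Ker' p q c t‖ ≤ ∫ t : ℝ, ((p + q : ℕ) : ℝ) * (|c.im| ^ (p + q - 1))⁻¹ *
      (‖(t : ℂ) + c‖ ^ 2)⁻¹ :=
    integral_mono (integrable_Ker' p q hpq hc hi).norm
      ((integrable_inv_sq hc hi).const_mul _) (fun t => norm_Ker'_le p q hpq hc hi t)
  rw [integral_const_mul, integral_inv_sq hc hi] at h1
  refine h1.trans (le_of_eq ?_)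
  obtain ⟨k, hk⟩ : ∃ k, p + q = k + 1 := ⟨p + q - 1, by omega⟩
  have h0 : |c.im| ≠ 0 := abs_ne_zero.mpr hi
  rw [hk, Nat.add_sub_cancel, pow_succ]
  field_simp

/-- `∫ (t + c)^{-(k+2)} dt = 0` -/
theorem integral_pow_zero (k : ℕ) {c : ℂ} (hc : c.re = 0) (hi : c.im ≠ 0) :
    ∫ t : ℝ, (((t : ℂ) + c) ^ (k + 2))⁻¹ = 0 := by
  have e1 : ∀ t : ℝ, (((t : ℂ) + c) ^ (k + 2))⁻¹ = -((k + 1 : ℕ) : ℂ)⁻¹ * Ker' (k + 1) 0 c t := by
    intro t
    have h0 : ((k + 1 : ℕ) : ℂ) ≠ 0 := Nat.cast_ne_zero.mpr (by omega)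
    rw [Ker', Ker]
    simp only [Nat.cast_zero, zero_mul, sub_zero, pow_zero, inv_one, mul_one]
    field_simp
  simp_rw [e1]
  rw [integral_const_mul]
  have hlim : ∀ l : Filter ℝ, Tendsto (fun t : ℝ => |t|) l atTop →
      Tendsto (Ker (k + 1) 0 c) l (𝓝 0) := by
    intro l hl
    rw [tendsto_zero_iff_norm_tendsto_zero]
    have h1 : Tendsto (fun t : ℝ => ‖(t : ℂ) + c‖) l atTop := by
      refine tendsto_atTop_mono (fun t => ?_) hl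
      have := Complex.abs_re_le_norm ((t : ℂ) + c)
      simpa [hc] using this
    have h2 : Tendsto (fun t : ℝ => ‖(t : ℂ) + c‖ ^ (k + 1 + 0)) l atTop :=
      (tendsto_pow_atTop (by omega)).comp h1
    have h3 := h2.inv_tendsto_atTop
    refine h3.congr fun t => ?_
    rw [norm_Ker]
    rfl
  have h3 := integral_of_hasDerivAt_of_tendsto (fun t => hasDerivAt_Ker (k + 1) 0 hc hi t)
    (integrable_Ker' (k + 1) 0 (by omega) hc hi) (hlim _ tendsto_abs_atBot_atTop)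
    (hlim _ tendsto_abs_atTop_atTop)
  rw [h3]
  simp

theorem conj_eq_neg {c : ℂ} (hc : c.re = 0) : (starRingEnd ℂ) c = -c := by
  apply Complex.ext <;> simp [hc]

theorem sq_eq_neg {c : ℂ} (hc : c.re = 0) : c ^ 2 = -((c.im : ℂ) ^ 2) := by
  have : c = (c.im : ℂ) * I := by
    apply Complex.ext <;> simp [hc]
  nth_rewrite 1 [this]
  rw [mul_pow, I_sq]
  ring

theorem integrable_pow (k : ℕ) {c : ℂ} (hc : c.re = 0) (hi : c.im ≠ 0) :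
    Integrable (fun t : ℝ => (((t : ℂ) + c) ^ (k + 2))⁻¹) := by
  have := integrable_Ker (k + 2) 0 (by omega) hc hi
  refine this.congr (Eventually.of_forall fun t => ?_)
  simp [Ker]

theorem ofReal_inv_sq {c : ℂ} (hc : c.re = 0) (t : ℝ) :
    (((‖(t : ℂ) + c‖ ^ 2)⁻¹ : ℝ) : ℂ) = (((t : ℂ) + c) * ((t : ℂ) - c))⁻¹ := by
  rw [norm_sq_shift hc]
  push_cast
  congr 1
  have := sq_eq_neg hc
  linear_combination this

/-- `∫ 1/(g^3 conj g) = -π/(4 Y^3)` -/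
theorem integral_Ker31 {c : ℂ} (hc : c.re = 0) (hi : c.im ≠ 0) :
    ∫ t, Ker 3 1 c t = ((-(Real.pi / (4 * |c.im| ^ 3)) : ℝ) : ℂ) := by
  have hc0 : c ≠ 0 := by
    intro h
    rw [h] at hi
    exact hi rfl
  have e1 : ∀ t : ℝ, Ker 3 1 c t =
      (4 * c ^ 2)⁻¹ * (((‖(t : ℂ) + c‖ ^ 2)⁻¹ : ℝ) : ℂ) -
        (4 * c ^ 2)⁻¹ * (((t : ℂ) + c) ^ (0 + 2))⁻¹ - (2 * c)⁻¹ * (((t : ℂ) + c) ^ (1 + 2))⁻¹ := by
    intro t
    have h1 := shift_ne hc hi t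
    have h2 : (t : ℂ) - c ≠ 0 := by
      have := (map_ne_zero (starRingEnd ℂ)).mpr h1
      rwa [← conj_shift, conj_eq_neg hc, ← sub_eq_add_neg] at this
    rw [ofReal_inv_sq hc, Ker, conj_eq_neg hc, ← sub_eq_add_neg]
    field_simp
    ring
  simp_rw [e1]
  have i1 := (integrable_inv_sq hc hi).ofReal (𝕜 := ℂ)
  have i2 := integrable_pow 0 hc hi
  have i3 := integrable_pow 1 hc hi
  rw [integral_sub (by exact (i1.const_mul _).sub (i2.const_mul _)) (by exact i3.const_mul _),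
    integral_sub (by exact i1.const_mul _) (by exact i2.const_mul _), integral_const_mul,
    integral_const_mul,
    integral_const_mul, integral_pow_zero 0 hc hi, integral_pow_zero 1 hc hi]
  have i4 : ∫ t : ℝ, (((‖(t : ℂ) + c‖ ^ 2)⁻¹ : ℝ) : ℂ) = ((Real.pi / |c.im| : ℝ) : ℂ) := by
    rw [← integral_inv_sq hc hi]
    exact integral_ofReal
  rw [i4, sq_eq_neg hc]
  have h0 : |c.im| ≠ 0 := abs_ne_zero.mpr hi
  have h5 : ((c.im : ℂ)) ^ 2 = ((|c.im| : ℝ) : ℂ) ^ 2 := by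
    rw [← ofReal_pow, ← ofReal_pow, sq_abs]
  rw [h5]
  have h6 : ((|c.im| : ℝ) : ℂ) ≠ 0 := ofReal_ne_zero.mpr h0
  push_cast
  field_simp
  ring

/-- `∫ 1/|g|^4 = π/(2 Y^3)` -/
theorem integral_Ker22 {c : ℂ} (hc : c.re = 0) (hi : c.im ≠ 0) :
    ∫ t, Ker 2 2 c t = ((Real.pi / (2 * |c.im| ^ 3) : ℝ) : ℂ) := by
  have hc0 : c ≠ 0 := by
    intro h
    rw [h] at hi
    exact hi rfl
  have hc' : (-c).re = 0 := by simp [hc]
  have hi' : (-c).im ≠ 0 := by simpa using hi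
  have e1 : ∀ t : ℝ, Ker 2 2 c t =
      (4 * c ^ 2)⁻¹ * (((t : ℂ) + c) ^ (0 + 2))⁻¹ + (4 * c ^ 2)⁻¹ * (((t : ℂ) + (-c)) ^ (0 + 2))⁻¹
        - (2 * c ^ 2)⁻¹ * (((‖(t : ℂ) + c‖ ^ 2)⁻¹ : ℝ) : ℂ) := by
    intro t
    have h1 := shift_ne hc hi t
    have h2 : (t : ℂ) - c ≠ 0 := by
      have := (map_ne_zero (starRingEnd ℂ)).mpr h1
      rwa [← conj_shift, conj_eq_neg hc, ← sub_eq_add_neg] at this
    rw [ofReal_inv_sq hc, Ker, conj_eq_neg hc, ← sub_eq_add_neg]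
    field_simp
    ring
  simp_rw [e1]
  have i1 := (integrable_inv_sq hc hi).ofReal (𝕜 := ℂ)
  have i2 := integrable_pow 0 hc hi
  have i3 := integrable_pow 0 hc' hi'
  rw [integral_sub (by exact (i2.const_mul _).add (i3.const_mul _)) (by exact i1.const_mul _),
    integral_add (by exact i2.const_mul _) (by exact i3.const_mul _), integral_const_mul,
    integral_const_mul,
    integral_const_mul, integral_pow_zero 0 hc hi, integral_pow_zero 0 hc' hi']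
  have i4 : ∫ t : ℝ, (((‖(t : ℂ) + c‖ ^ 2)⁻¹ : ℝ) : ℂ) = ((Real.pi / |c.im| : ℝ) : ℂ) := by
    rw [← integral_inv_sq hc hi]
    exact integral_ofReal
  rw [i4, sq_eq_neg hc]
  have h0 : |c.im| ≠ 0 := abs_ne_zero.mpr hi
  have h5 : ((c.im : ℂ)) ^ 2 = ((|c.im| : ℝ) : ℂ) ^ 2 := by
    rw [← ofReal_pow, ← ofReal_pow, sq_abs]
  rw [h5]
  have h6 : ((|c.im| : ℝ) : ℂ) ≠ 0 := ofReal_ne_zero.mpr h0
  push_cast
  field_simp
  ring

end Pool.RV
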