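import Pool.Agent.Work.MP_5955e5_nt.B.Psi
import Pool.Agent.Work.MP_5955e5_nt.B.LimKer

/-!
# Cell RV, block (b6): one-variable characters, row sums, the constants of the limit (helper64)
-/

set_option autoImplicit false

open Complex MeasureTheory Filter Topology

namespace Pool.RV

/-- `e(j n / 6)` -/
noncomputable def e6 (j n : ℤ) : ℂ := exp (2 * (Real.pi : ℂ) * I * ((j * n : ℤ) : ℂ) / 6)

theorem ch_eq_e6 (a v : ℤ × ℤ) : ch a v = e6 a.1 v.1 * e6 a.2 v.2 := by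
  rw [ch, e6, e6, ← exp_add]
  congr 1
  push_cast
  ring

theorem norm_e6 (j n : ℤ) : ‖e6 j n‖ = 1 := by
  have h : 2 * (Real.pi : ℂ) * I * ((j * n : ℤ) : ℂ) / 6
      = ((2 * Real.pi * ((j * n : ℤ) : ℝ) / 6 : ℝ) : ℂ) * I := by
    push_cast
    ring
  rw [e6, h, norm_exp_ofReal_mul_I]

theorem e6_zero_left (n : ℤ) : e6 0 n = 1 := by simp [e6]

theorem e6_zero_right (j : ℤ) : e6 j 0 = 1 := by simp [e6]

theorem e6_add_right (j m n : ℤ) : e6 j (m + n) = e6 j m * e6 j n := by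
  rw [e6, e6, e6, ← exp_add]
  congr 1
  push_cast
  ring

theorem e6_add_left (i j n : ℤ) : e6 (i + j) n = e6 i n * e6 j n := by
  rw [e6, e6, e6, ← exp_add]
  congr 1
  push_cast
  ring

theorem e6_neg_right (j n : ℤ) : e6 j (-n) = (e6 j n)⁻¹ := by
  have h := e6_add_right j n (-n)
  rw [add_neg_cancel, e6_zero_right] at h
  exact eq_inv_of_mul_eq_one_right h.symm

theorem e6_neg_left (j n : ℤ) : e6 (-j) n = (e6 j n)⁻¹ := by
  have h := e6_add_left j (-j) n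
  rw [add_neg_cancel, e6_zero_left] at h
  exact eq_inv_of_mul_eq_one_right h.symm

theorem e6_comm (j n : ℤ) : e6 j n = e6 n j := by
  rw [e6, e6, mul_comm j n]

theorem e6_zpow (j n : ℤ) : e6 j n = (e6 j 1) ^ n := by
  rw [e6, e6, ← exp_int_mul]
  congr 1
  push_cast
  ring

theorem e6_one_eq_one_iff (j : ℤ) : e6 j 1 = 1 ↔ 6 ∣ j := by
  rw [e6, exp_eq_one_iff]
  have hpi : (2 * (Real.pi : ℂ) * I) ≠ 0 := two_pi_I_ne_zero
  constructor
  · rintro ⟨n, hn⟩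
    refine ⟨n, ?_⟩
    have h2 : (2 * (Real.pi : ℂ) * I) * (j : ℂ) = (2 * (Real.pi : ℂ) * I) * (6 * n : ℂ) := by
      push_cast at hn
      linear_combination 6 * hn
    have h3 := mul_left_cancel₀ hpi h2
    exact_mod_cast h3
  · rintro ⟨n, rfl⟩
    refine ⟨n, ?_⟩
    push_cast
    ring

theorem e6_of_dvd {j : ℤ} (h : 6 ∣ j) (n : ℤ) : e6 j n = 1 := by
  rw [e6_zpow, (e6_one_eq_one_iff j).mpr h, one_zpow]

/-- row sums: fixed `m`, all `n` -/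
noncomputable def row (p q : ℕ) (j m : ℤ) (w : ℝ) : ℂ :=
  ∑' n : ℤ, e6 j n * (ui w (m, n) ^ p * ub w (m, n) ^ q)

/-- `∑_{n ≠ 0} e(j n / 6) / n²` -/
noncomputable def z2 (j : ℤ) : ℂ := ∑' n : ℤ, e6 j n * ((n : ℂ) ^ 2)⁻¹

/-- `∑_{m ≠ 0} e(j m / 6) / |m|³` -/
noncomputable def L3 (j : ℤ) : ℂ := ∑' m : ℤ, e6 j m * (((|(m : ℝ)| ^ 3)⁻¹ : ℝ) : ℂ)

end Pool.RV
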