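import Pool.Agent.Work.MP_5955e5_nt.B.LimRow
import Pool.Agent.Work.MP_5955e5_nt.B.LimVal
import Pool.Agent.Work.MP_5955e5_nt.B.Deriv3

/-!
# Cell RV, block (b6): limits of the one-loop terms and of the product term (helper12)
-/

set_option autoImplicit false

open Complex MeasureTheory Filter Topology

namespace Pool.RV

/-! ### one-loop sums as sums of rows -/

theorem K_rows {w : ℝ} (hw : 0 < w) {p q : ℕ} (h : 3 ≤ p + q) (a : ℤ × ℤ) :
    HasSum (fun m : ℤ => e6 a.1 m * row p q a.2 m w) (K p q a w) := by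
  have hs := summable_K hw h a
  have h1 := (hasSum_K hw h a).prod_fiberwise (fun m => (hs.prod_factor m).hasSum)
  refine h1.congr_fun (fun m => ?_) |> fun h => h
  rw [row, ← tsum_mul_left]
  refine tsum_congr (fun n => ?_)
  rw [ch_eq_e6]
  ring

theorem row_zero (p q : ℕ) (j : ℤ) (w w' : ℝ) : row p q j 0 w = row p q j 0 w' := by
  rw [row, row]
  refine tsum_congr (fun n => ?_)
  simp [ui, ub, gm]

/-! ### the `e`-combination of weight `(3,1)` -/

/-- the weights of the `e`-combination -/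
noncomputable def ce (m : ℤ) : ℂ := -e6 0 m + 3 * e6 1 m - 3 * e6 2 m + e6 3 m

theorem ce_zero : ce 0 = 0 := by
  rw [ce]
  simp only [e6_zero_right]
  norm_num

theorem norm_ce_le (m : ℤ) : ‖ce m‖ ≤ 8 := by
  rw [ce]
  calc ‖-e6 0 m + 3 * e6 1 m - 3 * e6 2 m + e6 3 m‖
      ≤ ‖-e6 0 m‖ + ‖3 * e6 1 m‖ + ‖3 * e6 2 m‖ + ‖e6 3 m‖ := by
        refine (norm_add_le _ _).trans ?_
        refine add_le_add ((norm_sub_le _ _).trans (add_le_add (norm_add_le _ _) le_rfl)) le_rfl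
    _ = 8 := by
        rw [norm_neg, norm_mul, norm_mul, norm_e6, norm_e6, norm_e6, norm_e6, Complex.norm_ofNat]
        norm_num

theorem Ke_rows {w : ℝ} (hw : 0 < w) {p q : ℕ} (h : 3 ≤ p + q) :
    HasSum (fun m : ℤ => ce m * row p q 0 m w) (Ke p q w) := by
  have h0 := K_rows hw h (0, 0)
  have h1 := K_rows hw h (1, 0)
  have h2 := K_rows hw h (2, 0)
  have h3 := K_rows hw h (3, 0)
  have hk := ((h0.neg.add (h1.mul_left 3)).sub (h2.mul_left 3)).add h3
  rw [Ke]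
  refine hk.congr_fun (fun m => ?_) |> fun h => h
  rw [ce]
  ring

theorem tendsto_Ke31 : Tendsto (fun w : ℝ => (w : ℂ) ^ 3 * Ke 3 1 w) atTop
    (𝓝 ((-(7 * Real.pi / 24) * zeta3 : ℝ) : ℂ)) := by
  have hlim : Tendsto (fun w : ℝ => ∑' m : ℤ, ce m * ((w : ℂ) ^ 3 * row 3 1 0 m w)) atTop
      (𝓝 (∑' m : ℤ, ce m * (((-(Real.pi / 4) : ℝ) : ℂ) * g3 m))) := by
    refine tendsto_tsum_of_dominated_convergence
      (bound := fun m : ℤ => 8 * (3 * Real.pi * ‖g3 m‖)) ((summable_g3.mul_left _).mul_left _)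
      (fun m => ?_) ?_
    · rcases eq_or_ne m 0 with rfl | hm
      · simp only [ce_zero, zero_mul]
        exact tendsto_const_nhds
      · have h := tendsto_row31 0 hm
        rw [if_pos (dvd_zero 6)] at h
        have e : ((-(Real.pi / 4) / |(m : ℝ)| ^ 3 : ℝ) : ℂ) = ((-(Real.pi / 4) : ℝ) : ℂ) * g3 m := by
          rw [g3, ← ofReal_mul, div_eq_mul_inv]
        rw [e] at h
        exact h.const_mul _
    · filter_upwards [eventually_ge_atTop 1] with w hw m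
      rcases eq_or_ne m 0 with rfl | hm
      · rw [ce_zero, zero_mul, norm_zero]
        positivity
      · have h := norm_w3_row_le 3 1 rfl 0 hm hw
        rw [norm_mul, norm_g3]
        have h2 := norm_ce_le m
        rw [div_eq_mul_inv] at h
        gcongr
  have e1 : ∑' m : ℤ, ce m * (((-(Real.pi / 4) : ℝ) : ℂ) * g3 m)
      = ((-(7 * Real.pi / 24) * zeta3 : ℝ) : ℂ) := by
    have e2 : ∀ m : ℤ, ce m * (((-(Real.pi / 4) : ℝ) : ℂ) * g3 m)
        = ((-(Real.pi / 4) : ℝ) : ℂ) * (-(e6 0 m * g3 m) + 3 * (e6 1 m * g3 m)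
          - 3 * (e6 2 m * g3 m) + e6 3 m * g3 m) := by
      intro m; rw [ce]; ring
    have s0 := summable_e6_g3 0
    have s1 := summable_e6_g3 1
    have s2 := summable_e6_g3 2
    have s3 := summable_e6_g3 3
    rw [tsum_congr e2, tsum_mul_left,
      ((s0.neg.add (s1.mul_left 3)).sub (s2.mul_left 3)).tsum_add s3,
      (s0.neg.add (s1.mul_left 3)).tsum_sub (s2.mul_left 3), s0.neg.tsum_add (s1.mul_left 3),
      tsum_neg, tsum_mul_left, tsum_mul_left, ← L3_eq, ← L3_eq, ← L3_eq, ← L3_eq, L3_zero, L3_one,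
      L3_two, L3_three]
    push_cast
    ring
  rw [e1] at hlim
  refine hlim.congr' ?_
  filter_upwards [eventually_gt_atTop 0] with w hw
  rw [← (Ke_rows hw (p := 3) (q := 1) (by norm_num)).tsum_eq, ← tsum_mul_left]
  exact tsum_congr (fun m => by ring)

/-! ### weight `(4,2)` -/

theorem tendsto_K42 (i : ℤ) : Tendsto
    (fun w : ℝ => (w : ℂ) ^ 3 * K 4 2 (i, 0) w - row 4 2 0 0 1 * (w : ℂ) ^ 3) atTop (𝓝 0) := by
  have hlim : Tendsto (fun w : ℝ => ∑' m : ℤ,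
      (if m = 0 then 0 else e6 i m * ((w : ℂ) ^ 3 * row 4 2 0 m w))) atTop
      (𝓝 (∑' m : ℤ, (0 : ℂ))) := by
    have hb : ∀ m : ℤ, m ≠ 0 → ∀ w : ℝ, 1 ≤ w →
        ‖e6 i m * ((w : ℂ) ^ 3 * row 4 2 0 m w)‖ ≤ 3 * Real.pi * ‖g3 m‖ * w⁻¹ := by
      intro m hm w hw
      have hw0 : 0 < w := by linarith
      have h := norm_row_le 4 2 (by norm_num) 0 hm hw
      norm_num at h
      have hm1 : (1 : ℝ) ≤ |(m : ℝ)| := by
        rw [← Int.cast_abs]
        exact_mod_cast Int.one_le_abs hm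
      rw [norm_mul, norm_e6, one_mul, norm_mul, norm_pow, norm_real, Real.norm_eq_abs,
        abs_of_pos hw0, norm_g3]
      calc w ^ 3 * ‖row 4 2 0 m w‖ ≤ w ^ 3 * (3 * Real.pi / (|(m : ℝ)| * w) ^ 5) := by gcongr
        _ = 3 * Real.pi * (|(m : ℝ)| ^ 3)⁻¹ * w⁻¹ * (|(m : ℝ)| ^ 2 * w)⁻¹ := by
            have : |(m : ℝ)| ≠ 0 := by linarith
            field_simp
        _ ≤ 3 * Real.pi * (|(m : ℝ)| ^ 3)⁻¹ * w⁻¹ * 1 := by
            gcongr
            apply inv_le_one_of_one_le₀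
            nlinarith
        _ = 3 * Real.pi * (|(m : ℝ)| ^ 3)⁻¹ * w⁻¹ := mul_one _
    refine tendsto_tsum_of_dominated_convergence
      (bound := fun m : ℤ => 3 * Real.pi * ‖g3 m‖) (summable_g3.mul_left _)
      (fun m => ?_) ?_
    · rcases eq_or_ne m 0 with rfl | hm
      · simp only [if_true]
        exact tendsto_const_nhds
      · simp only [if_neg hm]
        rw [tendsto_zero_iff_norm_tendsto_zero]
        have h2 : Tendsto (fun w : ℝ => 3 * Real.pi * ‖g3 m‖ * w⁻¹) atTop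
            (𝓝 (3 * Real.pi * ‖g3 m‖ * 0)) := tendsto_inv_atTop_zero.const_mul _
        rw [mul_zero] at h2
        refine squeeze_zero_norm' ?_ h2
        filter_upwards [eventually_ge_atTop 1] with w hw
        rw [norm_norm]
        exact hb m hm w hw
    · filter_upwards [eventually_ge_atTop 1] with w hw m
      split_ifs with hm
      · rw [norm_zero]; positivity
      · refine (hb m hm w hw).trans ?_
        have : w⁻¹ ≤ 1 := inv_le_one_of_one_le₀ hw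
        calc 3 * Real.pi * ‖g3 m‖ * w⁻¹ ≤ 3 * Real.pi * ‖g3 m‖ * 1 := by gcongr
          _ = 3 * Real.pi * ‖g3 m‖ := mul_one _
  rw [tsum_zero] at hlim
  refine hlim.congr' ?_
  filter_upwards [eventually_gt_atTop 0] with w hw
  have hk := K_rows hw (p := 4) (q := 2) (by norm_num) (i, 0)
  have h0 : HasSum (fun m : ℤ => if m = 0 then row 4 2 0 0 w else 0) (row 4 2 0 0 w) :=
    hasSum_ite_eq 0 _
  have hd := (hk.sub h0).mul_left ((w : ℂ) ^ 3)
  have e : (w : ℂ) ^ 3 * K 4 2 (i, 0) w - row 4 2 0 0 1 * (w : ℂ) ^ 3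
      = (w : ℂ) ^ 3 * (K 4 2 (i, 0) w - row 4 2 0 0 w) := by
    rw [row_zero 4 2 0 1 w]; ring
  rw [e, ← hd.tsum_eq]
  refine tsum_congr (fun m => ?_)
  split_ifs with hm
  · rw [hm, e6_zero_right]; ring
  · ring

/-! ### the regularised sum of weight `(1,1)` -/

/-- real row sums of `|g|⁻²` -/
noncomputable def rw2 (m : ℤ) (w : ℝ) : ℝ := ∑' n : ℤ, an w (m, n) ^ 2

theorem an_zero_row (n : ℤ) (w : ℝ) : an w (0, n) ^ 2 = 1 / (n : ℝ) ^ 2 := by
  rw [an]
  have : gm w (0, n) = (n : ℂ) := by simp [gm]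
  rw [this, norm_intCast, inv_pow, sq_abs, one_div]

theorem summable_rw2 (m : ℤ) {w : ℝ} (hw : 0 < w) : Summable fun n : ℤ => an w (m, n) ^ 2 := by
  rcases eq_or_ne m 0 with rfl | hm
  · refine (Real.summable_one_div_int_pow.mpr (by norm_num : 1 < 2)).congr (fun n => ?_)
    rw [an_zero_row]
  · exact (row_an2 hm hw).1

theorem rw2_zero (w : ℝ) : rw2 0 w = Real.pi ^ 2 / 3 := by
  have h : ((rw2 0 w : ℝ) : ℂ) = z2 0 := by
    rw [rw2, z2_eq, ofReal_tsum]
    refine tsum_congr (fun n => ?_)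
    rw [an_zero_row, e6_zero_left, gz]
    push_cast
    rw [one_mul, one_div]
  rw [z2_zero] at h
  exact_mod_cast h

theorem rw2_sub_le {m : ℤ} (hm : m ≠ 0) {w : ℝ} (hw : 1 ≤ w) :
    |rw2 m w - Real.pi / (|(m : ℝ)| * w)| ≤ 2 * Real.pi * (|(m : ℝ)| ^ 2)⁻¹ * w⁻¹ := by
  have hw0 : 0 < w := by linarith
  have h := (row_an2 hm hw0).2
  have hm0 : 0 < |(m : ℝ)| := abs_pos.mpr (Int.cast_ne_zero.mpr hm)
  rw [rw2]
  refine h.trans ?_
  have e : 2 * Real.pi / (|(m : ℝ)| * w) ^ 2 = 2 * Real.pi * (|(m : ℝ)| ^ 2)⁻¹ * w⁻¹ * w⁻¹ := by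
    field_simp
  rw [e]
  have : w⁻¹ ≤ 1 := inv_le_one_of_one_le₀ hw
  have h3 : 0 ≤ 2 * Real.pi * (|(m : ℝ)| ^ 2)⁻¹ * w⁻¹ := by positivity
  nlinarith

theorem rw2_nonneg (m : ℤ) (w : ℝ) : 0 ≤ rw2 m w :=
  tsum_nonneg (fun _ => pow_nonneg (an_nonneg _ _) 2)

theorem rw2_le {m : ℤ} (hm : m ≠ 0) {w : ℝ} (hw : 1 ≤ w) : rw2 m w ≤ 3 * Real.pi * w⁻¹ := by
  have h := (row_an_le 0 hm hw).2
  have hm1 : (1 : ℝ) ≤ |(m : ℝ)| := by
    rw [← Int.cast_abs]
    exact_mod_cast Int.one_le_abs hm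
  rw [rw2]
  refine h.trans ?_
  have hw0 : 0 < w := by linarith
  rw [zero_add, pow_one, div_eq_mul_inv]
  gcongr
  nlinarith

/-- the bound of the differences of consecutive rows -/
noncomputable def bd (m : ℤ) : ℝ := 4 * Real.pi * ((|(m : ℝ)| ^ 2)⁻¹ + (|((m - 1 : ℤ) : ℝ)| ^ 2)⁻¹)
  + ((if m = 0 then Real.pi ^ 2 + 3 * Real.pi else 0)
    + (if m = 1 then Real.pi ^ 2 + 3 * Real.pi else 0))

theorem summable_bd : Summable bd := by
  have h1 : Summable fun m : ℤ => (|(m : ℝ)| ^ 2)⁻¹ := by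
    refine (Real.summable_one_div_int_pow.mpr (by norm_num : 1 < 2)).congr (fun n => ?_)
    rw [sq_abs, one_div]
  have h2 : Summable fun m : ℤ => (|((m - 1 : ℤ) : ℝ)| ^ 2)⁻¹ :=
    (Equiv.subRight (1 : ℤ)).summable_iff.mpr h1
  exact ((h1.add h2).mul_left _).add ((hasSum_ite_eq (0 : ℤ) _).summable.add
    (hasSum_ite_eq (1 : ℤ) _).summable)

theorem diff_le {m : ℤ} (h0 : m ≠ 0) (h1 : m ≠ 1) {w : ℝ} (hw : 1 ≤ w) :
    |rw2 m w - rw2 (m - 1) w| ≤ bd m * w⁻¹ := by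
  have hm1 : m - 1 ≠ 0 := sub_ne_zero.mpr h1
  have a := rw2_sub_le h0 hw
  have b := rw2_sub_le hm1 hw
  have hw0 : 0 < w := by linarith
  set x := |(m : ℝ)| with hx
  set y := |((m - 1 : ℤ) : ℝ)| with hy
  have hx0 : 0 < x := abs_pos.mpr (Int.cast_ne_zero.mpr h0)
  have hy0 : 0 < y := abs_pos.mpr (Int.cast_ne_zero.mpr hm1)
  have hxy : |y - x| ≤ 1 := by
    have h3 := abs_abs_sub_abs_le (((m - 1 : ℤ) : ℝ)) (m : ℝ)
    rw [hx, hy]
    refine h3.trans ?_
    push_cast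
    rw [show ((m : ℝ) - 1 - m) = -1 by ring]
    norm_num
  have c : |Real.pi / (x * w) - Real.pi / (y * w)| ≤ Real.pi * ((x ^ 2)⁻¹ + (y ^ 2)⁻¹) * w⁻¹ := by
    have e : Real.pi / (x * w) - Real.pi / (y * w) = Real.pi * w⁻¹ * (x⁻¹ * y⁻¹) * (y - x) := by
      field_simp
    rw [e, abs_mul, abs_of_nonneg (by positivity : 0 ≤ Real.pi * w⁻¹ * (x⁻¹ * y⁻¹))]
    have h4 : x⁻¹ * y⁻¹ ≤ (x ^ 2)⁻¹ + (y ^ 2)⁻¹ := by
      rw [← inv_pow, ← inv_pow]
      nlinarith [sq_nonneg (x⁻¹ - y⁻¹), sq_nonneg x⁻¹, sq_nonneg y⁻¹]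
    calc Real.pi * w⁻¹ * (x⁻¹ * y⁻¹) * |y - x| ≤ Real.pi * w⁻¹ * ((x ^ 2)⁻¹ + (y ^ 2)⁻¹) * 1 := by
          gcongr
      _ = Real.pi * ((x ^ 2)⁻¹ + (y ^ 2)⁻¹) * w⁻¹ := by ring
  have hbd : bd m = 4 * Real.pi * ((x ^ 2)⁻¹ + (y ^ 2)⁻¹) := by
    rw [bd, if_neg h0, if_neg h1]; ring
  rw [hbd]
  have tri : |rw2 m w - rw2 (m - 1) w| ≤ |rw2 m w - Real.pi / (x * w)|
      + |Real.pi / (x * w) - Real.pi / (y * w)| + |rw2 (m - 1) w - Real.pi / (y * w)| := by
    have e : rw2 m w - rw2 (m - 1) w = (rw2 m w - Real.pi / (x * w))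
        + (Real.pi / (x * w) - Real.pi / (y * w)) - (rw2 (m - 1) w - Real.pi / (y * w)) := by ring
    rw [e]
    exact (abs_sub _ _).trans (add_le_add (abs_add_le _ _) le_rfl)
  have hxi : 0 ≤ (x ^ 2)⁻¹ := by positivity
  have hyi : 0 ≤ (y ^ 2)⁻¹ := by positivity
  have hwi : 0 < w⁻¹ := by positivity
  have hpi := Real.pi_pos
  have f1 : 0 ≤ Real.pi * (x ^ 2)⁻¹ * w⁻¹ := by positivity
  have f2 : 0 ≤ Real.pi * (y ^ 2)⁻¹ * w⁻¹ := by positivity
  nlinarith

theorem Kreg_rows {w : ℝ} (hw : 0 < w) (i : ℤ) :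
    Kreg 1 1 (i, 0) w
      = (1 - e6 i 1)⁻¹ * ∑' m : ℤ, e6 i m * ((rw2 m w - rw2 (m - 1) w : ℝ) : ℂ) := by
  rw [Kreg_eq_mon]
  have e0 : ch (i, 0) (1, 0) = e6 i 1 := by
    rw [ch_eq_e6]
    simp only [e6_zero_right, mul_one]
  rw [e0]
  congr 1
  have hs := summable_mon_diff hw (p := 1) (q := 1) rfl (i, 0)
  rw [hs.tsum_prod]
  refine tsum_congr (fun m => ?_)
  have e1 : ∀ n : ℤ, ch (i, 0) (m, n) * (mon 1 1 (gm w (m, n)) - mon 1 1 (gm w ((m, n) - (1, 0))))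
      = e6 i m * ((an w (m, n) ^ 2 - an w (m - 1, n) ^ 2 : ℝ) : ℂ) := by
    intro n
    have e2 : ((m, n) : ℤ × ℤ) - (1, 0) = (m - 1, n) := by
      ext <;> simp
    have e3 : ∀ v : ℤ × ℤ, mon 1 1 (gm w v) = ((an w v ^ 2 : ℝ) : ℂ) := by
      intro v
      rw [mon, pow_one, pow_one, mul_conj, an, inv_pow, ← normSq_eq_norm_sq]
      push_cast
      rw [one_div]
    rw [ch_eq_e6, e2, e3, e3]
    simp only [e6_zero_left, mul_one]
    push_cast
    ring
  rw [tsum_congr e1, tsum_mul_left, ← ofReal_tsum,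
    (summable_rw2 m hw).tsum_sub (summable_rw2 (m - 1) hw)]
  rfl

theorem tendsto_rw2 {m : ℤ} (hm : m ≠ 0) : Tendsto (fun w : ℝ => rw2 m w) atTop (𝓝 0) := by
  have h2 : Tendsto (fun w : ℝ => 3 * Real.pi * w⁻¹) atTop (𝓝 (3 * Real.pi * 0)) :=
    tendsto_inv_atTop_zero.const_mul _
  rw [mul_zero] at h2
  refine squeeze_zero' (Eventually.of_forall (fun w => rw2_nonneg m w)) ?_ h2
  filter_upwards [eventually_ge_atTop 1] with w hw
  exact rw2_le hm hw

theorem tendsto_Kreg {i : ℤ} (hi : ¬ (6 ∣ i)) :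
    Tendsto (fun w : ℝ => Kreg 1 1 (i, 0) w) atTop (𝓝 ((Real.pi ^ 2 / 3 : ℝ) : ℂ)) := by
  have hne : 1 - e6 i 1 ≠ 0 := by
    intro h
    exact hi ((e6_one_eq_one_iff i).mp (sub_eq_zero.mp h).symm)
  set c : ℝ := Real.pi ^ 2 / 3 with hc
  have hr0 : rw2 0 = fun _ => c := funext (fun w => rw2_zero w)
  have hlim : Tendsto (fun w : ℝ => ∑' m : ℤ, e6 i m * ((rw2 m w - rw2 (m - 1) w : ℝ) : ℂ)) atTop
      (𝓝 (∑' m : ℤ, e6 i m * (((if m = 0 then c else 0) - (if m = 1 then c else 0) : ℝ) : ℂ))) := by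
    refine tendsto_tsum_of_dominated_convergence (bound := bd) summable_bd (fun m => ?_) ?_
    · refine Tendsto.const_mul _ ((Complex.continuous_ofReal.tendsto _).comp ?_)
      refine Tendsto.sub ?_ ?_
      · split_ifs with h
        · subst h
          rw [hr0]
          exact tendsto_const_nhds
        · exact tendsto_rw2 h
      · split_ifs with h
        · subst h
          rw [sub_self, hr0]
          exact tendsto_const_nhds
        · exact tendsto_rw2 (sub_ne_zero.mpr h)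
    · filter_upwards [eventually_ge_atTop 1] with w hw m
      rw [norm_mul, norm_e6, one_mul, norm_real, Real.norm_eq_abs]
      have hw0 : 0 < w := by linarith
      have hwi : w⁻¹ ≤ 1 := inv_le_one_of_one_le₀ hw
      have hpi := Real.pi_pos
      have hp2 : 0 ≤ Real.pi ^ 2 := sq_nonneg _
      have hp3 : 3 * Real.pi * w⁻¹ ≤ 3 * Real.pi := by nlinarith
      rcases eq_or_ne m 0 with h0 | h0
      · subst h0
        have h1 := rw2_nonneg (-1) w
        have h2 := rw2_le (m := -1) (by norm_num) hw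
        rw [rw2_zero, show (0 : ℤ) - 1 = -1 by norm_num]
        have h3 : (0 : ℝ) ≤ 4 * Real.pi * ((|((0 : ℤ) : ℝ)| ^ 2)⁻¹
          + (|((0 - 1 : ℤ) : ℝ)| ^ 2)⁻¹) := by positivity
        have h4 : bd 0 ≥ Real.pi ^ 2 + 3 * Real.pi := by
          rw [bd, if_pos rfl, if_neg (by norm_num)]
          linarith
        refine le_trans ?_ h4
        rw [abs_le]
        constructor
        · linarith
        · linarith
      · rcases eq_or_ne m 1 with h1 | h1
        · subst h1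
          have e : (1 : ℤ) - 1 = 0 := by norm_num
          rw [e, rw2_zero]
          have h1 := rw2_nonneg 1 w
          have h2 := rw2_le (m := 1) (by norm_num) hw
          have h3 : (0 : ℝ) ≤ 4 * Real.pi * ((|((1 : ℤ) : ℝ)| ^ 2)⁻¹
            + (|((1 - 1 : ℤ) : ℝ)| ^ 2)⁻¹) := by positivity
          have h4 : bd 1 ≥ Real.pi ^ 2 + 3 * Real.pi := by
            rw [bd, if_neg (by norm_num), if_pos rfl]
            linarith
          refine le_trans ?_ h4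
          rw [abs_le]
          constructor
          · linarith
          · linarith
        · have h2 := diff_le h0 h1 hw
          have h3 : 0 ≤ bd m := by
            rw [bd, if_neg h0, if_neg h1]; positivity
          nlinarith
  have e1 : ∑' m : ℤ, e6 i m * (((if m = 0 then c else 0) - (if m = 1 then c else 0) : ℝ) : ℂ)
      = (1 - e6 i 1) * (c : ℂ) := by
    have h0 : HasSum (fun m : ℤ => if m = 0 then e6 i 0 * (c : ℂ) else 0) (e6 i 0 * (c : ℂ)) :=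
      hasSum_ite_eq 0 _
    have h1 : HasSum (fun m : ℤ => if m = 1 then e6 i 1 * (c : ℂ) else 0) (e6 i 1 * (c : ℂ)) :=
      hasSum_ite_eq 1 _
    rw [e6_zero_right] at h0
    have h2 := (h0.sub h1).tsum_eq
    rw [show (1 - e6 i 1) * (c : ℂ) = 1 * (c : ℂ) - e6 i 1 * (c : ℂ) by ring, ← h2]
    refine tsum_congr (fun m => ?_)
    split_ifs with ha hb hb
    · exfalso; omega
    · rw [ha, e6_zero_right]; push_cast; ring
    · rw [hb]; push_cast; ring
    · push_cast; ring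
  rw [e1] at hlim
  have h3 := hlim.const_mul (1 - e6 i 1)⁻¹
  rw [← mul_assoc, inv_mul_cancel₀ hne, one_mul] at h3
  refine h3.congr' ?_
  filter_upwards [eventually_gt_atTop 0] with w hw
  rw [Kreg_rows hw]

theorem tendsto_Kx : Tendsto (fun w : ℝ => Kx 1 1 w) atTop
    (𝓝 ((4 * Real.pi ^ 2 / 3 : ℝ) : ℂ)) := by
  have h1 := (tendsto_Kreg (i := 1) (by norm_num)).const_mul 2
  have h3 := (tendsto_Kreg (i := 3) (by norm_num)).const_mul 2
  have h := h1.add h3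
  refine (h.congr (fun w => rfl)).trans_eq ?_
  congr 1
  push_cast
  ring

/-- the product term -/
theorem tendsto_prod : Tendsto (fun w : ℝ => (w : ℂ) ^ 3 / 2 * Kx 1 1 w * Ke 3 1 w) atTop
    (𝓝 ((-(7 * Real.pi ^ 3 / 36) * zeta3 : ℝ) : ℂ)) := by
  have h := (tendsto_Kx.mul tendsto_Ke31).const_mul (1 / 2)
  refine (h.congr (fun w => by ring)).trans_eq ?_
  congr 1
  push_cast
  ring

/-- the one-loop part of `Psi` -/
theorem tendsto_K42_sum : Tendsto (fun w : ℝ =>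
    (w : ℂ) ^ 3 * (4 * K 4 2 (0, 0) w + 6 * K 4 2 (1, 0) w + 9 * K 4 2 (2, 0) w)
      - 19 * row 4 2 0 0 1 * (w : ℂ) ^ 3) atTop (𝓝 0) := by
  have h := (((tendsto_K42 0).const_mul 4).add ((tendsto_K42 1).const_mul 6)).add
    ((tendsto_K42 2).const_mul 9)
  simp only [mul_zero, add_zero] at h
  exact h.congr (fun w => by ring)

end Pool.RV
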