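import Pool.Agent.Work.MP_5955e5_nt.Defs

/-!
# Cell RV, block (b6): Riemann sums over a shifted copy of the integers
-/

set_option autoImplicit false

open Complex MeasureTheory Filter Topology

namespace Pool.RV

/-- On a unit interval the value at the left end differs from the mean by at most the integral
of the derivative. -/
theorem unit_step {Φ Φ' : ℝ → ℂ} (hd : ∀ t, HasDerivAt Φ (Φ' t) t) (hi' : Integrable Φ')
    (y : ℝ) (t : ℝ) (ht : t ∈ Set.Icc y (y + 1)) :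
    ‖Φ t - Φ y‖ ≤ ∫ s in y..(y + 1), ‖Φ' s‖ := by
  have h1 : ∫ s in y..t, Φ' s = Φ t - Φ y :=
    intervalIntegral.integral_eq_sub_of_hasDerivAt (fun s _ => hd s) hi'.intervalIntegrable
  rw [← h1]
  have hyt : y ≤ t := ht.1
  have hi2 : IntervalIntegrable (fun s => ‖Φ' s‖) volume y t := hi'.norm.intervalIntegrable
  have hi3 : IntervalIntegrable (fun s => ‖Φ' s‖) volume t (y + 1) :=
    hi'.norm.intervalIntegrable
  calc ‖∫ s in y..t, Φ' s‖ ≤ ∫ s in y..t, ‖Φ' s‖ :=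
        intervalIntegral.norm_integral_le_integral_norm hyt
    _ ≤ (∫ s in y..t, ‖Φ' s‖) + ∫ s in t..(y + 1), ‖Φ' s‖ := by
        have : 0 ≤ ∫ s in t..(y + 1), ‖Φ' s‖ :=
          intervalIntegral.integral_nonneg ht.2 (fun s _ => norm_nonneg _)
        linarith
    _ = ∫ s in y..(y + 1), ‖Φ' s‖ := intervalIntegral.integral_add_adjacent_intervals hi2 hi3

theorem unit_mean {Φ Φ' : ℝ → ℂ} (hd : ∀ t, HasDerivAt Φ (Φ' t) t) (hi' : Integrable Φ')
    (y : ℝ) : ‖Φ y - ∫ t in y..(y + 1), Φ t‖ ≤ ∫ s in y..(y + 1), ‖Φ' s‖ := by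
  have hcont : Continuous Φ := continuous_iff_continuousAt.mpr fun t => (hd t).continuousAt
  have h1 : Φ y - ∫ t in y..(y + 1), Φ t = ∫ t in y..(y + 1), (Φ y - Φ t) := by
    rw [intervalIntegral.integral_sub intervalIntegrable_const (hcont.intervalIntegrable _ _)]
    simp
  rw [h1]
  have h2 := intervalIntegral.norm_integral_le_of_norm_le_const
    (a := y) (b := y + 1) (f := fun t => Φ y - Φ t) (C := ∫ s in y..(y + 1), ‖Φ' s‖) (by
      intro t ht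
      rw [Set.uIoc_of_le (by linarith)] at ht
      rw [norm_sub_rev]
      exact unit_step hd hi' y t ⟨ht.1.le, ht.2⟩)
  simpa using h2

/-- RIEMANN SUMS: the sum of `Φ` over a shift of `ℤ` differs from the integral by at most
`∫ |Φ'|`. -/
theorem riem {Φ Φ' : ℝ → ℂ} (hd : ∀ t, HasDerivAt Φ (Φ' t) t) (hi : Integrable Φ)
    (hi' : Integrable Φ') (x : ℝ) :
    Summable (fun n : ℤ => Φ (x + n)) ∧
      ‖∑' n : ℤ, Φ (x + n) - ∫ t, Φ t‖ ≤ ∫ t, ‖Φ' t‖ := by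
  have hs1 := hi.hasSum_intervalIntegral x
  have hs2 := hi'.norm.hasSum_intervalIntegral x
  have hb : ∀ n : ℤ, ‖Φ (x + n) - ∫ t in (x + n)..(x + n + 1), Φ t‖ ≤
      ∫ s in (x + n)..(x + n + 1), ‖Φ' s‖ := fun n => unit_mean hd hi' (x + n)
  have hs3 : Summable (fun n : ℤ => Φ (x + n) - ∫ t in (x + n)..(x + n + 1), Φ t) :=
    Summable.of_norm_bounded hs2.summable hb
  have hs4 : Summable (fun n : ℤ => Φ (x + n)) := by
    have := hs3.add hs1.summable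
    simpa using this
  refine ⟨hs4, ?_⟩
  have h5 : ∑' n : ℤ, Φ (x + n) - ∫ t, Φ t =
      ∑' n : ℤ, (Φ (x + n) - ∫ t in (x + n)..(x + n + 1), Φ t) := by
    rw [hs4.tsum_sub hs1.summable, hs1.tsum_eq]
  rw [h5, ← hs2.tsum_eq]
  exact tsum_of_norm_bounded hs2.summable.hasSum hb

/-- The twisted sum is bounded by `∫ |Φ'| / |1 - ζ|`. -/
theorem riem_char {Φ Φ' : ℝ → ℂ} (hd : ∀ t, HasDerivAt Φ (Φ' t) t) (hi : Integrable Φ)
    (hi' : Integrable Φ') (x : ℝ) (ζ : ℂ) (hζ : ‖ζ‖ = 1) (hζ1 : ζ ≠ 1) :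
    ‖∑' n : ℤ, ζ ^ n * Φ (x + n)‖ ≤ (∫ t, ‖Φ' t‖) / ‖1 - ζ‖ := by
  have hζ0 : ζ ≠ 0 := by
    intro h
    rw [h, norm_zero] at hζ
    exact zero_ne_one hζ
  obtain ⟨hs, -⟩ := riem hd hi hi' x
  have hsn : Summable (fun n : ℤ => ζ ^ n * Φ (x + n)) := by
    apply Summable.of_norm
    have : (fun n : ℤ => ‖ζ ^ n * Φ (x + n)‖) = fun n : ℤ => ‖Φ (x + n)‖ := by
      ext n
      rw [norm_mul, norm_zpow, hζ, one_zpow, one_mul]
    rw [this]
    exact hs.norm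
  have hs2 := hi'.norm.hasSum_intervalIntegral x
  set S := ∑' n : ℤ, ζ ^ n * Φ (x + n) with hS
  -- shift
  have hshift : ∑' n : ℤ, ζ ^ (n + 1) * Φ (x + ((n + 1 : ℤ) : ℝ)) = S :=
    (Equiv.addRight (1 : ℤ)).tsum_eq (fun n : ℤ => ζ ^ n * Φ (x + n))
  have hsn' : Summable (fun n : ℤ => ζ ^ (n + 1) * Φ (x + ((n + 1 : ℤ) : ℝ))) :=
    (Equiv.addRight (1 : ℤ)).summable_iff.mpr hsn
  have key : (ζ - 1) * S = ∑' n : ℤ, ζ ^ (n + 1) * (Φ (x + n) - Φ (x + n + 1)) := by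
    have e1 : ζ * S = ∑' n : ℤ, ζ ^ (n + 1) * Φ (x + n) := by
      rw [hS, ← tsum_mul_left]
      refine tsum_congr fun n => ?_
      rw [zpow_add_one₀ hζ0]
      ring
    have hsn'' : Summable (fun n : ℤ => ζ ^ (n + 1) * Φ (x + n)) := by
      have := hsn.mul_left ζ
      refine this.congr fun n => ?_
      rw [zpow_add_one₀ hζ0]
      ring
    rw [sub_mul, one_mul, e1, ← hshift]
    rw [← hsn''.tsum_sub hsn']
    refine tsum_congr fun n => ?_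
    push_cast
    rw [mul_sub, add_assoc]
  have hb : ∀ n : ℤ, ‖ζ ^ (n + 1) * (Φ (x + n) - Φ (x + n + 1))‖ ≤
      ∫ s in (x + n)..(x + n + 1), ‖Φ' s‖ := by
    intro n
    rw [norm_mul, norm_zpow, hζ, one_zpow, one_mul, norm_sub_rev]
    exact unit_step hd hi' (x + n) _ ⟨by linarith, le_rfl⟩
  have h2 : ‖(ζ - 1) * S‖ ≤ ∫ t, ‖Φ' t‖ := by
    rw [key, ← hs2.tsum_eq]
    exact tsum_of_norm_bounded hs2.summable.hasSum hb
  have h3 : 0 < ‖1 - ζ‖ := norm_pos_iff.mpr (sub_ne_zero.mpr (Ne.symm hζ1))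
  rw [le_div_iff₀ h3]
  calc ‖S‖ * ‖1 - ζ‖ = ‖(ζ - 1) * S‖ := by rw [norm_mul, norm_sub_rev, mul_comm]
    _ ≤ _ := h2

end Pool.RV
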