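import Pool.Agent.Work.MP_5955e5_nt.B.LimDefs

/-!
# Cell RV, block (b6): row sums (helper64)
-/

set_option autoImplicit false

open Complex MeasureTheory Filter Topology

namespace Pool.RV

/-- the purely imaginary part of the row `m` -/
noncomputable def cim (m : ℤ) (w : ℝ) : ℂ := (((m : ℝ) * w : ℝ) : ℂ) * I

theorem cim_re (m : ℤ) (w : ℝ) : (cim m w).re = 0 := by simp [cim]

theorem cim_im (m : ℤ) (w : ℝ) : (cim m w).im = m * w := by simp [cim]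

theorem abs_cim_im (m : ℤ) {w : ℝ} (hw : 0 < w) : |(cim m w).im| = |(m : ℝ)| * w := by
  rw [cim_im, abs_mul, abs_of_pos hw]

theorem cim_im_ne {m : ℤ} (hm : m ≠ 0) {w : ℝ} (hw : 0 < w) : (cim m w).im ≠ 0 := by
  rw [cim_im]
  exact mul_ne_zero (Int.cast_ne_zero.mpr hm) hw.ne'

theorem gm_eq_cim (w : ℝ) (m n : ℤ) :
    gm w (m, n) = ((-(m : ℝ) / 2 + (n : ℝ) : ℝ) : ℂ) + cim m w := by
  rw [gm, tau, cim]
  push_cast
  ring

theorem row_term (p q : ℕ) (m n : ℤ) (w : ℝ) :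
    ui w (m, n) ^ p * ub w (m, n) ^ q = Ker p q (cim m w) (-(m : ℝ) / 2 + n) := by
  rw [Ker, ui, ub, gm_eq_cim, conj_shift, inv_pow, inv_pow]

theorem an_pow_term (k : ℕ) (m n : ℤ) (w : ℝ) :
    an w (m, n) ^ k = (‖((-(m : ℝ) / 2 + (n : ℝ) : ℝ) : ℂ) + cim m w‖ ^ k)⁻¹ := by
  rw [an, gm_eq_cim, inv_pow]

/-- one over the norm is at most `1 / (|m| w)` -/
theorem an_row_le {m : ℤ} (hm : m ≠ 0) {w : ℝ} (hw : 0 < w) (n : ℤ) :
    an w (m, n) ≤ (|(m : ℝ)| * w)⁻¹ := by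
  rw [an, gm_eq_cim, ← abs_cim_im m hw]
  exact inv_anti₀ (abs_pos.mpr (cim_im_ne hm hw)) (im_le_norm_shift _ _)

theorem row_riem (p q : ℕ) (hpq : 2 ≤ p + q) {m : ℤ} (hm : m ≠ 0) {w : ℝ} (hw : 0 < w) :
    Summable (fun n : ℤ => ui w (m, n) ^ p * ub w (m, n) ^ q) ∧
      ‖∑' n : ℤ, ui w (m, n) ^ p * ub w (m, n) ^ q - ∫ t, Ker p q (cim m w) t‖ ≤
        ((p + q : ℕ) : ℝ) * Real.pi / (|(m : ℝ)| * w) ^ (p + q) := by
  have hc := cim_re m w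
  have hi := cim_im_ne hm hw
  obtain ⟨h1, h2⟩ := riem (fun t => hasDerivAt_Ker p q hc hi t) (integrable_Ker p q hpq hc hi)
    (integrable_Ker' p q (by omega) hc hi) (-(m : ℝ) / 2)
  have h3 := integral_norm_Ker'_le p q (by omega) hc hi
  rw [abs_cim_im m hw] at h3
  simp_rw [row_term]
  exact ⟨h1, h2.trans h3⟩

/-- the sum of `|g|⁻²` over the row -/
theorem row_an2 {m : ℤ} (hm : m ≠ 0) {w : ℝ} (hw : 0 < w) :
    Summable (fun n : ℤ => an w (m, n) ^ 2) ∧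
      |∑' n : ℤ, an w (m, n) ^ 2 - Real.pi / (|(m : ℝ)| * w)| ≤
        2 * Real.pi / (|(m : ℝ)| * w) ^ 2 := by
  obtain ⟨h1, h2⟩ := row_riem 1 1 le_rfl hm hw
  have e : ∀ n : ℤ, ui w (m, n) ^ 1 * ub w (m, n) ^ 1 = ((an w (m, n) ^ 2 : ℝ) : ℂ) := by
    intro n
    rw [pow_one, pow_one, ui, ub, an, ← mul_inv, mul_conj, normSq_eq_norm_sq, inv_pow, ofReal_inv]
  simp_rw [e] at h1 h2
  have h3 : Summable (fun n : ℤ => an w (m, n) ^ 2) := by exact_mod_cast h1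
  refine ⟨h3, ?_⟩
  have hc := cim_re m w
  have hi := cim_im_ne hm hw
  have e2 : ∫ t, Ker 1 1 (cim m w) t = ((Real.pi / (|(m : ℝ)| * w) : ℝ) : ℂ) := by
    have i4 : ((∫ t : ℝ, (‖(t : ℂ) + cim m w‖ ^ 2)⁻¹ : ℝ) : ℂ) =
        ∫ t : ℝ, (((‖(t : ℂ) + cim m w‖ ^ 2)⁻¹ : ℝ) : ℂ) := integral_ofReal.symm
    rw [← abs_cim_im m hw, ← integral_inv_sq hc hi, i4]
    congr 1
    funext t
    rw [Ker, pow_one, pow_one, ← mul_inv, conj_shift, mul_conj, normSq_eq_norm_sq, ofReal_inv]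
  rw [e2, ← ofReal_tsum, ← ofReal_sub, norm_real, Real.norm_eq_abs] at h2
  simpa using h2

/-- crude bound of the row sums of `|g|^(-k-2)` -/
theorem row_an_le (k : ℕ) {m : ℤ} (hm : m ≠ 0) {w : ℝ} (hw : 1 ≤ w) :
    Summable (fun n : ℤ => an w (m, n) ^ (k + 2)) ∧
      ∑' n : ℤ, an w (m, n) ^ (k + 2) ≤ 3 * Real.pi / (|(m : ℝ)| * w) ^ (k + 1) := by
  have hw0 : 0 < w := by linarith
  obtain ⟨h1, h2⟩ := row_an2 hm hw0
  have hm1 : (1 : ℝ) ≤ |(m : ℝ)| := by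
    rw [← Int.cast_abs]
    exact_mod_cast Int.one_le_abs hm
  set Y := |(m : ℝ)| * w with hY
  have hY1 : 1 ≤ Y := by
    rw [hY]; nlinarith
  have hY0 : 0 < Y := by linarith
  have hb : ∀ n : ℤ, an w (m, n) ^ (k + 2) ≤ (Y ^ k)⁻¹ * an w (m, n) ^ 2 := by
    intro n
    rw [pow_add, ← inv_pow]
    exact mul_le_mul_of_nonneg_right (pow_le_pow_left₀ (an_nonneg _ _) (an_row_le hm hw0 n) k)
      (pow_nonneg (an_nonneg _ _) 2)
  have hs : Summable (fun n : ℤ => an w (m, n) ^ (k + 2)) :=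
    Summable.of_nonneg_of_le (fun n => pow_nonneg (an_nonneg _ _) _) hb (h1.mul_left _)
  refine ⟨hs, ?_⟩
  have h3 : ∑' n : ℤ, an w (m, n) ^ (k + 2) ≤ (Y ^ k)⁻¹ * ∑' n : ℤ, an w (m, n) ^ 2 := by
    rw [← tsum_mul_left]
    exact hs.tsum_le_tsum hb (h1.mul_left _)
  have h4 : ∑' n : ℤ, an w (m, n) ^ 2 ≤ 3 * Real.pi / Y := by
    have h5 := (abs_le.mp h2).2
    have h6 : 2 * Real.pi / Y ^ 2 ≤ 2 * Real.pi / Y := by
      apply div_le_div_of_nonneg_left (by positivity) hY0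
      nlinarith
    have h7 : 3 * Real.pi / Y = Real.pi / Y + 2 * Real.pi / Y := by ring
    linarith
  calc ∑' n : ℤ, an w (m, n) ^ (k + 2) ≤ (Y ^ k)⁻¹ * ∑' n : ℤ, an w (m, n) ^ 2 := h3
    _ ≤ (Y ^ k)⁻¹ * (3 * Real.pi / Y) := by gcongr
    _ = 3 * Real.pi / Y ^ (k + 1) := by
        rw [pow_succ]; field_simp

theorem norm_row_term (p q : ℕ) (j m n : ℤ) (w : ℝ) :
    ‖e6 j n * (ui w (m, n) ^ p * ub w (m, n) ^ q)‖ = an w (m, n) ^ (p + q) := by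
  rw [norm_mul, norm_e6, norm_mul, norm_pow, norm_pow, norm_ui, norm_ub, one_mul, pow_add]

theorem summable_row (p q : ℕ) (hpq : 2 ≤ p + q) (j : ℤ) {m : ℤ} (hm : m ≠ 0) {w : ℝ}
    (hw : 0 < w) : Summable (fun n : ℤ => e6 j n * (ui w (m, n) ^ p * ub w (m, n) ^ q)) := by
  obtain ⟨h1, -⟩ := row_riem p q hpq hm hw
  apply Summable.of_norm
  have h2 := h1.norm
  refine h2.congr fun n => ?_
  rw [norm_mul, norm_mul, norm_e6, one_mul, norm_mul]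

/-- the crude bound -/
theorem norm_row_le (p q : ℕ) (hpq : 2 ≤ p + q) (j : ℤ) {m : ℤ} (hm : m ≠ 0) {w : ℝ}
    (hw : 1 ≤ w) : ‖row p q j m w‖ ≤ 3 * Real.pi / (|(m : ℝ)| * w) ^ (p + q - 1) := by
  obtain ⟨k, hk⟩ : ∃ k, p + q = k + 2 := ⟨p + q - 2, by omega⟩
  obtain ⟨h1, h2⟩ := row_an_le k hm hw
  have e : p + q - 1 = k + 1 := by omega
  rw [e]
  refine le_trans ?_ h2
  rw [row]
  refine tsum_of_norm_bounded h1.hasSum (fun n => ?_)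
  rw [norm_row_term, hk]

/-- trivial character: the row sum is the integral up to `O((|m| w)^(-(p+q)))` -/
theorem row_triv (p q : ℕ) (hpq : 2 ≤ p + q) {j : ℤ} (hj : 6 ∣ j) {m : ℤ} (hm : m ≠ 0) {w : ℝ}
    (hw : 0 < w) : ‖row p q j m w - ∫ t, Ker p q (cim m w) t‖ ≤
      ((p + q : ℕ) : ℝ) * Real.pi / (|(m : ℝ)| * w) ^ (p + q) := by
  obtain ⟨-, h⟩ := row_riem p q hpq hm hw
  have e : row p q j m w = ∑' n : ℤ, ui w (m, n) ^ p * ub w (m, n) ^ q := by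
    rw [row]
    exact tsum_congr fun n => by rw [e6_of_dvd hj, one_mul]
  rw [e]
  exact h

/-- nontrivial character: the row sum is `O((|m| w)^(-(p+q)))` -/
theorem row_nontriv (p q : ℕ) (hpq : 2 ≤ p + q) {j : ℤ} (hj : ¬ 6 ∣ j) {m : ℤ} (hm : m ≠ 0)
    {w : ℝ} (hw : 0 < w) : ‖row p q j m w‖ ≤
      ((p + q : ℕ) : ℝ) * Real.pi / (|(m : ℝ)| * w) ^ (p + q) / ‖1 - e6 j 1‖ := by
  have hc := cim_re m w
  have hi := cim_im_ne hm hw
  have h1 := riem_char (fun t => hasDerivAt_Ker p q hc hi t) (integrable_Ker p q hpq hc hi)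
    (integrable_Ker' p q (by omega) hc hi) (-(m : ℝ) / 2) (e6 j 1) (norm_e6 j 1)
    (fun h => hj ((e6_one_eq_one_iff j).mp h))
  have h3 := integral_norm_Ker'_le p q (by omega) hc hi
  rw [abs_cim_im m hw] at h3
  have e : row p q j m w = ∑' n : ℤ, (e6 j 1) ^ n * Ker p q (cim m w) (-(m : ℝ) / 2 + n) := by
    rw [row]
    refine tsum_congr fun n => ?_
    rw [row_term, ← e6_zpow]
  rw [e]
  refine h1.trans ?_
  gcongr

/-- the error of `w³ ×` a weight-four row tends to zero -/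
theorem tendsto_err {m : ℤ} (hm : m ≠ 0) (C : ℝ) :
    Tendsto (fun w : ℝ => w ^ 3 * (C / (|(m : ℝ)| * w) ^ 4)) atTop (𝓝 0) := by
  have h0 : |(m : ℝ)| ≠ 0 := abs_ne_zero.mpr (Int.cast_ne_zero.mpr hm)
  have h1 : Tendsto (fun w : ℝ => (C / |(m : ℝ)| ^ 4) * w⁻¹) atTop (𝓝 ((C / |(m : ℝ)| ^ 4) * 0)) :=
    tendsto_inv_atTop_zero.const_mul _
  rw [mul_zero] at h1
  refine h1.congr' ?_
  filter_upwards [eventually_gt_atTop 0] with w hw
  field_simp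

/-- limit of the rows of weight four, given the integral -/
theorem tendsto_row4 (p q : ℕ) (hpq : p + q = 4) (I0 : ℝ) (j : ℤ) {m : ℤ} (hm : m ≠ 0)
    (hI : ∀ w : ℝ, 0 < w → ∫ t, Ker p q (cim m w) t = ((I0 / (|(m : ℝ)| * w) ^ 3 : ℝ) : ℂ)) :
    Tendsto (fun w : ℝ => (w : ℂ) ^ 3 * row p q j m w) atTop
      (𝓝 (if 6 ∣ j then ((I0 / |(m : ℝ)| ^ 3 : ℝ) : ℂ) else 0)) := by
  have h0 : |(m : ℝ)| ≠ 0 := abs_ne_zero.mpr (Int.cast_ne_zero.mpr hm)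
  split_ifs with hj
  · rw [tendsto_iff_norm_sub_tendsto_zero]
    refine squeeze_zero_norm' ?_ (tendsto_err hm (4 * Real.pi))
    filter_upwards [eventually_gt_atTop 0] with w hw
    have h1 := row_triv p q (by omega) hj hm hw
    rw [hI w hw, hpq] at h1
    rw [norm_norm]
    have e : (w : ℂ) ^ 3 * row p q j m w - ((I0 / |(m : ℝ)| ^ 3 : ℝ) : ℂ) =
        (w : ℂ) ^ 3 * (row p q j m w - ((I0 / (|(m : ℝ)| * w) ^ 3 : ℝ) : ℂ)) := by
      have hw' : (w : ℂ) ≠ 0 := by exact_mod_cast hw.ne'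
      have h0' : ((|(m : ℝ)| : ℝ) : ℂ) ≠ 0 := by exact_mod_cast h0
      push_cast
      field_simp
    rw [e, norm_mul, norm_pow, norm_real, Real.norm_eq_abs, abs_of_pos hw]
    have e2 : ((4 : ℕ) : ℝ) = 4 := by norm_num
    rw [e2] at h1
    gcongr
  · rw [tendsto_zero_iff_norm_tendsto_zero]
    refine squeeze_zero_norm' ?_ (tendsto_err hm (4 * Real.pi / ‖1 - e6 j 1‖))
    filter_upwards [eventually_gt_atTop 0] with w hw
    have h1 := row_nontriv p q (by omega) hj hm hw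
    rw [hpq] at h1
    have e2 : ((4 : ℕ) : ℝ) = 4 := by norm_num
    rw [e2] at h1
    rw [norm_norm, norm_mul, norm_pow, norm_real, Real.norm_eq_abs, abs_of_pos hw]
    have e3 : 4 * Real.pi / ‖1 - e6 j 1‖ / (|(m : ℝ)| * w) ^ 4
        = 4 * Real.pi / (|(m : ℝ)| * w) ^ 4 / ‖1 - e6 j 1‖ := by
      rw [div_right_comm]
    rw [e3]
    gcongr

theorem tendsto_row31 (j : ℤ) {m : ℤ} (hm : m ≠ 0) :
    Tendsto (fun w : ℝ => (w : ℂ) ^ 3 * row 3 1 j m w) atTop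
      (𝓝 (if 6 ∣ j then ((-(Real.pi / 4) / |(m : ℝ)| ^ 3 : ℝ) : ℂ) else 0)) := by
  refine tendsto_row4 3 1 rfl _ j hm (fun w hw => ?_)
  rw [integral_Ker31 (cim_re m w) (cim_im_ne hm hw), abs_cim_im m hw]
  congr 1
  have h0 : |(m : ℝ)| ≠ 0 := abs_ne_zero.mpr (Int.cast_ne_zero.mpr hm)
  field_simp

theorem tendsto_row22 (j : ℤ) {m : ℤ} (hm : m ≠ 0) :
    Tendsto (fun w : ℝ => (w : ℂ) ^ 3 * row 2 2 j m w) atTop
      (𝓝 (if 6 ∣ j then ((Real.pi / 2 / |(m : ℝ)| ^ 3 : ℝ) : ℂ) else 0)) := by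
  refine tendsto_row4 2 2 rfl _ j hm (fun w hw => ?_)
  rw [integral_Ker22 (cim_re m w) (cim_im_ne hm hw), abs_cim_im m hw]
  congr 1
  have h0 : |(m : ℝ)| ≠ 0 := abs_ne_zero.mpr (Int.cast_ne_zero.mpr hm)
  field_simp

/-- uniform bound of `w³ ×` a weight-four row -/
theorem norm_w3_row_le (p q : ℕ) (hpq : p + q = 4) (j : ℤ) {m : ℤ} (hm : m ≠ 0) {w : ℝ}
    (hw : 1 ≤ w) : ‖(w : ℂ) ^ 3 * row p q j m w‖ ≤ 3 * Real.pi / |(m : ℝ)| ^ 3 := by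
  have hw0 : 0 < w := by linarith
  have h1 := norm_row_le p q (by omega) j hm hw
  have e : p + q - 1 = 3 := by omega
  rw [e] at h1
  have h0 : |(m : ℝ)| ≠ 0 := abs_ne_zero.mpr (Int.cast_ne_zero.mpr hm)
  rw [norm_mul, norm_pow, norm_real, Real.norm_eq_abs, abs_of_pos hw0]
  calc w ^ 3 * ‖row p q j m w‖ ≤ w ^ 3 * (3 * Real.pi / (|(m : ℝ)| * w) ^ 3) := by gcongr
    _ = 3 * Real.pi / |(m : ℝ)| ^ 3 := by field_simp

end Pool.RV
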