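import Pool.Agent.Work.MP_5955e5_nt.B.Cocycle
import Pool.Agent.Work.MP_5955e5_nt.B.LimRow

/-!
# Cell RV, block (b6): limit of `w³ T(a,b)(w)` at infinity, up to a multiple of `w³` (helper16)
-/

set_option autoImplicit false

open Complex MeasureTheory Filter Topology

namespace Pool.RV.LimTw

lemma sum_an_le {s : ℕ} (hs : 3 ≤ s) : ∃ C : ℝ, 0 ≤ C ∧ ∀ m : ℤ, m ≠ 0 → ∀ w : ℝ, 1 ≤ w →
    ∑' n : ℤ, an w (m, n) ^ s ≤ C / (|(m : ℝ)| * w) ^ (s - 1) := by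
  refine ⟨3 * Real.pi, by positivity, fun m hm w hw => ?_⟩
  have h := (row_an_le (s - 2) hm hw).2
  have e1 : s - 2 + 2 = s := by omega
  have e2 : s - 2 + 1 = s - 1 := by omega
  rwa [e1, e2] at h

/-! ### bounds on rows -/

lemma gm_row_zero (w : ℝ) (n : ℤ) : gm w (0, n) = (n : ℂ) := by
  simp [gm]

lemma ui_row_zero (w : ℝ) (n : ℤ) : ui w (0, n) = (n : ℂ)⁻¹ := by
  rw [ui, gm_row_zero]

lemma ub_row_zero (w : ℝ) (n : ℤ) : ub w (0, n) = (n : ℂ)⁻¹ := by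
  rw [ub, gm_row_zero, map_intCast]

lemma an_row_le {w : ℝ} (hw : 0 < w) {m : ℤ} (hm : m ≠ 0) (n : ℤ) :
    an w (m, n) ≤ (|(m : ℝ)| * w)⁻¹ := by
  have hm' : 0 < |(m : ℝ)| := abs_pos.mpr (by exact_mod_cast hm)
  have h1 : |(m : ℝ)| * w ≤ ‖gm w (m, n)‖ := by
    have h2 := abs_im_le_norm (gm w (m, n))
    rw [gm_im, abs_mul, abs_of_pos hw] at h2
    exact h2
  exact inv_anti₀ (by positivity) h1

lemma summable_row {w : ℝ} (hw : 0 < w) {s : ℕ} (hs : 3 ≤ s) (m : ℤ) :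
    Summable fun n : ℤ => an w (m, n) ^ s := by
  have h := summable_an_pow hw hs
  exact h.comp_injective (i := fun n : ℤ => (m, n)) (fun a b hab => by simpa using hab)

lemma summable_row_shift {w : ℝ} (hw : 0 < w) {s : ℕ} (hs : 3 ≤ s) (m k : ℤ) :
    Summable fun n : ℤ => an w (m, n + k) ^ s :=
  (Equiv.addRight k).summable_iff.mpr (summable_row hw hs m)

lemma tsum_row_shift (w : ℝ) (s : ℕ) (m k : ℤ) :
    ∑' n : ℤ, an w (m, n + k) ^ s = ∑' n : ℤ, an w (m, n) ^ s :=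
  (Equiv.addRight k).tsum_eq (fun n => an w (m, n) ^ s)

/-! ### the inner sums with one vector in the row `0` -/

/-- inner sum, `f` one of the weight-2 functions -/
noncomputable def inn (p q : ℕ) (j m k : ℤ) (w : ℝ) : ℂ :=
  ∑' n : ℤ, e6 j n * (F2 1 1 w (m, n) * F2 p q w (m, n + k))

lemma norm_inn_term {p q : ℕ} (h2 : p + q = 2) (j m k : ℤ) (w : ℝ) (n : ℤ) :
    ‖e6 j n * (F2 1 1 w (m, n) * F2 p q w (m, n + k))‖
      ≤ 1 / 2 * (an w (m, n) ^ 4 + an w (m, n + k) ^ 4) := by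
  rw [norm_mul, norm_e6, one_mul, norm_mul, norm_F2, norm_F2, h2]
  have h1 := an_nonneg w (m, n)
  have h3 := an_nonneg w (m, n + k)
  nlinarith [sq_nonneg (an w (m, n) ^ 2 - an w (m, n + k) ^ 2)]

lemma summable_inn {w : ℝ} (hw : 0 < w) {p q : ℕ} (h2 : p + q = 2) (j m k : ℤ) :
    Summable fun n : ℤ => e6 j n * (F2 1 1 w (m, n) * F2 p q w (m, n + k)) :=
  Summable.of_norm_bounded
    (((summable_row hw (by norm_num) m).add (summable_row_shift hw (by norm_num) m k)).mul_left _)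
    (fun n => norm_inn_term h2 j m k w n)

lemma norm_inn_le {w : ℝ} (hw : 0 < w) {p q : ℕ} (h2 : p + q = 2) (j m k : ℤ) :
    ‖inn p q j m k w‖ ≤ ∑' n : ℤ, an w (m, n) ^ 4 := by
  have h3 := (summable_row hw (s := 4) (by norm_num) m)
  have h4 := (summable_row_shift hw (s := 4) (by norm_num) m k)
  refine (tsum_of_norm_bounded ((h3.add h4).mul_left (1 / 2)).hasSum
    (fun n => norm_inn_term h2 j m k w n)).trans ?_
  rw [tsum_mul_left, h3.tsum_add h4, tsum_row_shift]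
  linarith

lemma row_eq_inn (p q : ℕ) (j m : ℤ) (w : ℝ) :
    row (p + 1) (q + 1) j m w = ∑' n : ℤ, e6 j n * (F2 1 1 w (m, n) * F2 p q w (m, n)) := by
  rw [row]
  refine tsum_congr (fun n => ?_)
  rw [F2, F2]
  ring

lemma inn_sub_row {p q : ℕ} (h2 : p + q = 2) (j m k : ℤ) {w : ℝ} (hw : 0 < w) (hm : m ≠ 0) :
    ‖inn p q j m k w - row (p + 1) (q + 1) j m w‖
      ≤ 4 * |(k : ℝ)| * (|(m : ℝ)| * w)⁻¹ ^ 2 * ∑' n : ℤ, an w (m, n) ^ 3 := by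
  have h0 : Summable fun n : ℤ => e6 j n * (F2 1 1 w (m, n) * F2 p q w (m, n)) := by
    simpa using summable_inn hw h2 j m 0
  rw [row_eq_inn, inn, ← (summable_inn hw h2 j m k).tsum_sub h0]
  have h3 := (summable_row hw (s := 3) (by norm_num) m)
  have h4 := (summable_row_shift hw (s := 3) (by norm_num) m k)
  have hb : ∀ n : ℤ, ‖e6 j n * (F2 1 1 w (m, n) * F2 p q w (m, n + k))
      - e6 j n * (F2 1 1 w (m, n) * F2 p q w (m, n))‖
      ≤ 2 * |(k : ℝ)| * (|(m : ℝ)| * w)⁻¹ ^ 2 * (an w (m, n) ^ 3 + an w (m, n + k) ^ 3) := by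
    intro n
    have e : e6 j n * (F2 1 1 w (m, n) * F2 p q w (m, n + k))
      - e6 j n * (F2 1 1 w (m, n) * F2 p q w (m, n))
      = e6 j n * (F2 1 1 w (m, n) * (F2 p q w (m, n + k) - F2 p q w (m, n))) := by ring
    rw [e, norm_mul, norm_e6, one_mul, norm_mul, norm_F2]
    have h5 := norm_F2_sub_le hw h2 (m, n + k) (0, k)
    have e2 : ((m, n + k) : ℤ × ℤ) - (0, k) = (m, n) := by simp
    rw [e2, gm_row_zero] at h5
    have e3 : ‖(k : ℂ)‖ = |(k : ℝ)| := by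
      rw [← Complex.ofReal_intCast, Complex.norm_real, Real.norm_eq_abs]
    rw [e3] at h5
    have h6 := an_row_le hw hm n
    have h7 := an_nonneg w (m, n)
    have h8 : an w (m, n) ^ (1 + 1) ≤ (|(m : ℝ)| * w)⁻¹ ^ 2 := pow_le_pow_left₀ h7 h6 2
    have h9 : 0 ≤ (|(m : ℝ)| * w)⁻¹ ^ 2 := by positivity
    calc an w (m, n) ^ (1 + 1) * ‖F2 p q w (m, n + k) - F2 p q w (m, n)‖
        ≤ (|(m : ℝ)| * w)⁻¹ ^ 2 * (2 * |(k : ℝ)| * (an w (m, n + k) ^ 3 + an w (m, n) ^ 3)) :=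
          mul_le_mul h8 h5 (norm_nonneg _) h9
      _ = _ := by ring
  refine (tsum_of_norm_bounded ((h3.add h4).mul_left _).hasSum hb).trans ?_
  rw [tsum_mul_left, h3.tsum_add h4, tsum_row_shift]
  apply le_of_eq
  ring

/-- the inner sums have the same limit as the rows -/
lemma tendsto_inn {p q : ℕ} (h2 : p + q = 2) (j k : ℤ) {m : ℤ} (hm : m ≠ 0) {l : ℂ}
    (hl : Tendsto (fun w : ℝ => (w : ℂ) ^ 3 * row (p + 1) (q + 1) j m w) atTop (𝓝 l)) :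
    Tendsto (fun w : ℝ => (w : ℂ) ^ 3 * inn p q j m k w) atTop (𝓝 l) := by
  obtain ⟨C, hC, hb⟩ := sum_an_le (s := 3) le_rfl
  have hm' : 0 < |(m : ℝ)| := abs_pos.mpr (by exact_mod_cast hm)
  have hz : Tendsto (fun w : ℝ => (w : ℂ) ^ 3 * (inn p q j m k w - row (p + 1) (q + 1) j m w))
      atTop (𝓝 0) := by
    have hb2 : ∀ᶠ w : ℝ in atTop,
        ‖(w : ℂ) ^ 3 * (inn p q j m k w - row (p + 1) (q + 1) j m w)‖
          ≤ (4 * |(k : ℝ)| * |(m : ℝ)|⁻¹ ^ 4 * C) * w⁻¹ := by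
      filter_upwards [eventually_ge_atTop (1 : ℝ)] with w hw
      have hw0 : 0 < w := by linarith
      have h5 := inn_sub_row h2 j m k hw0 hm
      have h6 := hb m hm w hw
      have h7 : ‖inn p q j m k w - row (p + 1) (q + 1) j m w‖
          ≤ 4 * |(k : ℝ)| * (|(m : ℝ)| * w)⁻¹ ^ 2 * (C / (|(m : ℝ)| * w) ^ (3 - 1)) :=
        h5.trans (mul_le_mul_of_nonneg_left h6 (by positivity))
      rw [norm_mul, norm_pow, Complex.norm_real, Real.norm_eq_abs, abs_of_pos hw0]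
      calc w ^ 3 * ‖inn p q j m k w - row (p + 1) (q + 1) j m w‖
          ≤ w ^ 3 * (4 * |(k : ℝ)| * (|(m : ℝ)| * w)⁻¹ ^ 2 * (C / (|(m : ℝ)| * w) ^ (3 - 1))) :=
            mul_le_mul_of_nonneg_left h7 (by positivity)
        _ = _ := by
            simp only [show 3 - 1 = 2 from rfl]
            field_simp
    refine squeeze_zero_norm' hb2 ?_
    have := (tendsto_inv_atTop_zero (𝕜 := ℝ)).const_mul (4 * |(k : ℝ)| * |(m : ℝ)|⁻¹ ^ 4 * C)
    simpa using this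
  have := hz.add hl
  rw [zero_add] at this
  refine this.congr (fun w => ?_)
  ring

/-- uniform bound for the inner sums -/
lemma norm_inn_bound {p q : ℕ} (h2 : p + q = 2) : ∃ C : ℝ, 0 ≤ C ∧ ∀ (j m k : ℤ), m ≠ 0 →
    ∀ w : ℝ, 1 ≤ w → ‖(w : ℂ) ^ 3 * inn p q j m k w‖ ≤ C * (|(m : ℝ)| ^ 3)⁻¹ := by
  obtain ⟨C, hC, hb⟩ := sum_an_le (s := 4) (by norm_num)
  refine ⟨C, hC, ?_⟩
  intro j m k hm w hw
  have hm' : 0 < |(m : ℝ)| := abs_pos.mpr (by exact_mod_cast hm)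
  have hw0 : 0 < w := by linarith
  rw [norm_mul, norm_pow, Complex.norm_real, Real.norm_eq_abs, abs_of_pos hw0]
  calc w ^ 3 * ‖inn p q j m k w‖ ≤ w ^ 3 * (C / (|(m : ℝ)| * w) ^ (4 - 1)) :=
        mul_le_mul_of_nonneg_left ((norm_inn_le hw0 h2 j m k).trans (hb m hm w hw)) (by positivity)
    _ = _ := by
        simp only [show 4 - 1 = 3 from rfl]
        field_simp

/-! ### classes of pairs -/

/-- which of the three rows vanish -/
def cls (x : (ℤ × ℤ) × (ℤ × ℤ)) : Fin 5 :=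
  if x.1.1 = 0 then (if x.2.1 = 0 then 0 else 1)
  else if x.2.1 = 0 then 2 else if x.1.1 + x.2.1 = 0 then 3 else 4

/-- the part of `T(a,b)` of class `i` -/
noncomputable def PT (i : Fin 5) (a b : ℤ × ℤ) (w : ℝ) : ℂ :=
  ∑' x : (ℤ × ℤ) × (ℤ × ℤ), if cls x = i then Tterm a b w x else 0

lemma summable_PT {w : ℝ} (hw : 0 < w) (i : Fin 5) (a b : ℤ × ℤ) :
    Summable fun x : (ℤ × ℤ) × (ℤ × ℤ) => if cls x = i then Tterm a b w x else 0 := by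
  refine Summable.of_norm_bounded (summable_Tterm hw a b).norm (fun x => ?_)
  by_cases h : cls x = i
  · rw [if_pos h]
  · rw [if_neg h, norm_zero]; exact norm_nonneg _

lemma T_eq_PT {w : ℝ} (hw : 0 < w) (a b : ℤ × ℤ) :
    T a b w = PT 0 a b w + PT 1 a b w + PT 2 a b w + PT 3 a b w + PT 4 a b w := by
  have hs := fun i => summable_PT hw i a b
  rw [PT, PT, PT, PT, PT, ← (hs 0).tsum_add (hs 1), ← ((hs 0).add (hs 1)).tsum_add (hs 2),
    ← (((hs 0).add (hs 1)).add (hs 2)).tsum_add (hs 3),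
    ← ((((hs 0).add (hs 1)).add (hs 2)).add (hs 3)).tsum_add (hs 4), T]
  refine tsum_congr (fun x => ?_)
  have h5 : ∀ i : Fin 5, i = 0 ∨ i = 1 ∨ i = 2 ∨ i = 3 ∨ i = 4 := by decide
  rcases h5 (cls x) with h | h | h | h | h <;> rw [h] <;> simp

lemma PT0_const (a b : ℤ × ℤ) (w : ℝ) : PT 0 a b w = PT 0 a b 1 := by
  rw [PT, PT]
  refine tsum_congr (fun x => ?_)
  by_cases h : cls x = 0
  · rw [if_pos h, if_pos h]
    have h1 : x.1.1 = 0 ∧ x.2.1 = 0 := by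
      unfold cls at h
      split_ifs at h with h1 h2 h3 h4
      · exact ⟨h1, h2⟩
      all_goals exact absurd h (by decide)
    obtain ⟨⟨m1, n1⟩, ⟨m2, n2⟩⟩ := x
    obtain ⟨rfl, rfl⟩ := h1
    simp only [Tterm, gm, Prod.mk_add_mk]
    simp
  · rw [if_neg h, if_neg h]

/-! ### class 1 -/

/-- parametrisation of class 1 -/
def ph1 (y : (ℤ × ℤ) × ℤ) : (ℤ × ℤ) × (ℤ × ℤ) := ((0, y.1.1), (y.1.2, y.2))

lemma ph1_inj : Function.Injective ph1 := by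
  rintro ⟨⟨k, m⟩, n⟩ ⟨⟨k', m'⟩, n'⟩ h
  simp only [ph1, Prod.mk.injEq] at h
  obtain ⟨⟨-, h1⟩, h2, h3⟩ := h
  rw [h1, h2, h3]

lemma cls_ph1 (y : (ℤ × ℤ) × ℤ) : cls (ph1 y) = 1 ↔ y.1.2 ≠ 0 := by
  simp only [cls, ph1]
  by_cases h : y.1.2 = 0 <;> simp [h]

lemma Tterm_ph1 (a b : ℤ × ℤ) (w : ℝ) (k m n : ℤ) :
    Tterm a b w (ph1 ((k, m), n)) = (e6 a.2 k * ((k : ℂ) ^ 2)⁻¹ * e6 b.1 m) *
      (e6 b.2 n * (F2 1 1 w (m, n) * F2 2 0 w (m, n + k))) := by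
  have e1 : ((0, k) : ℤ × ℤ) + (m, n) = (m, n + k) := by
    ext
    · simp
    · simp [add_comm]
  rw [Tterm_eq, ch_eq_e6, ch_eq_e6]
  simp only [ph1]
  rw [e1, e6_zero_right, ui_row_zero, ub_row_zero, F2, F2]
  simp only [pow_one, pow_zero, mul_one, one_mul]
  ring

lemma support_sub_ph1 (a b : ℤ × ℤ) (w : ℝ) :
    (Function.support fun x : (ℤ × ℤ) × (ℤ × ℤ) => if cls x = 1 then Tterm a b w x else 0)
      ⊆ Set.range ph1 := by
  intro x hx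
  rw [Function.mem_support] at hx
  have h : cls x = 1 := by
    by_contra h
    exact hx (if_neg h)
  have h1 : x.1.1 = 0 := by
    unfold cls at h
    split_ifs at h with h1 h2 h3 h4
    · exact h1
    · exact h1
    all_goals exact absurd h (by decide)
  refine ⟨((x.1.2, x.2.1), x.2.2), ?_⟩
  rw [ph1, ← h1]

lemma PT1_eq {w : ℝ} (hw : 0 < w) (a b : ℤ × ℤ) :
    PT 1 a b w = ∑' y : ℤ × ℤ, (e6 a.2 y.1 * ((y.1 : ℂ) ^ 2)⁻¹ * e6 b.1 y.2) *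
      (if y.2 = 0 then 0 else inn 2 0 b.2 y.2 y.1 w) := by
  have hs : Summable fun y : (ℤ × ℤ) × ℤ =>
      if cls (ph1 y) = 1 then Tterm a b w (ph1 y) else 0 :=
    (summable_PT hw 1 a b).comp_injective ph1_inj
  rw [PT, ← ph1_inj.tsum_eq (support_sub_ph1 a b w), hs.tsum_prod]
  refine tsum_congr (fun y => ?_)
  obtain ⟨k, m⟩ := y
  by_cases hm : m = 0
  · subst hm
    simp [cls_ph1]
  · rw [if_neg hm, inn, ← tsum_mul_left]
    refine tsum_congr (fun n => ?_)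
    rw [if_pos ((cls_ph1 ((k, m), n)).mpr hm), Tterm_ph1]

lemma summable_k2 : Summable fun k : ℤ => ((k : ℝ) ^ 2)⁻¹ := by
  have := (Real.summable_one_div_int_pow (p := 2)).mpr (by norm_num)
  simpa using this

lemma summable_m3 : Summable fun m : ℤ => (|(m : ℝ)| ^ 3)⁻¹ := by
  have h := (Real.summable_one_div_int_pow (p := 3)).mpr (by norm_num)
  have := h.abs
  refine this.congr (fun m => ?_)
  rw [abs_div, abs_one, abs_pow, one_div]

lemma norm_k2 (k : ℤ) : ‖((k : ℂ) ^ 2)⁻¹‖ = ((k : ℝ) ^ 2)⁻¹ := by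
  rw [norm_inv, norm_pow, ← Complex.ofReal_intCast, Complex.norm_real, Real.norm_eq_abs, sq_abs]

lemma norm_m3 (m : ℤ) : ‖(((|(m : ℝ)| ^ 3)⁻¹ : ℝ) : ℂ)‖ = (|(m : ℝ)| ^ 3)⁻¹ := by
  rw [Complex.norm_real, Real.norm_eq_abs, abs_of_nonneg (by positivity)]

lemma tsum_z2_L3 (i j : ℤ) (ε : ℂ) :
    ∑' y : ℤ × ℤ, (e6 i y.1 * ((y.1 : ℂ) ^ 2)⁻¹ * e6 j y.2) *
      (ε * (((|(y.2 : ℝ)| ^ 3)⁻¹ : ℝ) : ℂ)) = ε * (z2 i * L3 j) := by
  have h1 : Summable fun k : ℤ => ‖e6 i k * ((k : ℂ) ^ 2)⁻¹‖ := by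
    refine summable_k2.congr (fun k => ?_)
    rw [norm_mul, norm_e6, one_mul, norm_k2]
  have h2 : Summable fun m : ℤ => ‖e6 j m * (((|(m : ℝ)| ^ 3)⁻¹ : ℝ) : ℂ)‖ := by
    refine summable_m3.congr (fun m => ?_)
    rw [norm_mul, norm_e6, one_mul, norm_m3]
  rw [z2, L3, tsum_mul_tsum_of_summable_norm h1 h2, ← tsum_mul_left]
  refine tsum_congr (fun y => ?_)
  ring

/-- the common dominated convergence argument -/
lemma tendsto_outer {p q : ℕ} (h2 : p + q = 2) (i j l : ℤ) (s : ℤ → ℤ) (ε : ℂ)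
    (hl : ∀ m : ℤ, m ≠ 0 → Tendsto (fun w : ℝ => (w : ℂ) ^ 3 * row (p + 1) (q + 1) l m w) atTop
      (𝓝 (ε * (((|(m : ℝ)| ^ 3)⁻¹ : ℝ) : ℂ)))) :
    Tendsto (fun w : ℝ => (w : ℂ) ^ 3 *
      ∑' y : ℤ × ℤ, (e6 i y.1 * ((y.1 : ℂ) ^ 2)⁻¹ * e6 j y.2) *
        (if y.2 = 0 then 0 else inn p q l y.2 (s y.1) w)) atTop (𝓝 (ε * (z2 i * L3 j))) := by
  obtain ⟨C, hC, hb⟩ := norm_inn_bound h2
  rw [← tsum_z2_L3]
  have e : ∀ w : ℝ, (w : ℂ) ^ 3 *
      ∑' y : ℤ × ℤ, (e6 i y.1 * ((y.1 : ℂ) ^ 2)⁻¹ * e6 j y.2) *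
        (if y.2 = 0 then 0 else inn p q l y.2 (s y.1) w)
      = ∑' y : ℤ × ℤ, (e6 i y.1 * ((y.1 : ℂ) ^ 2)⁻¹ * e6 j y.2) *
        (if y.2 = 0 then 0 else (w : ℂ) ^ 3 * inn p q l y.2 (s y.1) w) := by
    intro w
    rw [← tsum_mul_left]
    refine tsum_congr (fun y => ?_)
    by_cases h : y.2 = 0
    · simp [h]
    · rw [if_neg h, if_neg h]; ring
  refine Tendsto.congr (fun w => (e w).symm) ?_
  have hsum : Summable fun y : ℤ × ℤ => ((y.1 : ℝ) ^ 2)⁻¹ * (C * (|(y.2 : ℝ)| ^ 3)⁻¹) :=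
    summable_k2.mul_of_nonneg (summable_m3.mul_left C) (fun k => by positivity)
      (fun m => by positivity)
  refine tendsto_tsum_of_dominated_convergence hsum ?_ ?_
  · rintro ⟨k, m⟩
    refine Tendsto.const_mul _ ?_
    by_cases h : m = 0
    · subst h
      simp
    · simp only [if_neg h]
      exact tendsto_inn h2 l (s k) h (hl m h)
  · filter_upwards [eventually_ge_atTop (1 : ℝ)] with w hw
    rintro ⟨k, m⟩
    rw [norm_mul, norm_mul, norm_mul, norm_e6, norm_e6, one_mul, mul_one, norm_k2]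
    refine mul_le_mul_of_nonneg_left ?_ (by positivity)
    by_cases h : m = 0
    · simp only [if_pos h, norm_zero]
      positivity
    · simp only [if_neg h]
      exact hb l m (s k) h w hw

lemma tendsto_PT1 (a b : ℤ × ℤ) :
    Tendsto (fun w : ℝ => (w : ℂ) ^ 3 * PT 1 a b w) atTop
      (𝓝 ((if 6 ∣ b.2 then -((Real.pi : ℂ) / 4) else 0) * (z2 a.2 * L3 b.1))) := by
  have h := tendsto_outer (p := 2) (q := 0) (by norm_num) a.2 b.1 b.2 (fun k => k)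
    (if 6 ∣ b.2 then -((Real.pi : ℂ) / 4) else 0) (fun m hm => by
      have := tendsto_row31 b.2 hm
      refine (this.congr (fun w => rfl)).trans (le_of_eq ?_)
      congr 1
      by_cases h6 : 6 ∣ b.2
      · rw [if_pos h6, if_pos h6]
        push_cast
        ring
      · rw [if_neg h6, if_neg h6]; ring)
  refine h.congr' ?_
  filter_upwards [eventually_gt_atTop (0 : ℝ)] with w hw
  rw [PT1_eq hw]

/-! ### class 2 -/

lemma Tterm_swap (a b : ℤ × ℤ) (w : ℝ) (x : (ℤ × ℤ) × (ℤ × ℤ)) :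
    Tterm a b w x.swap = Tterm b a w x := by
  rw [Tterm_eq, Tterm_eq, Prod.fst_swap, Prod.snd_swap, add_comm x.2 x.1]
  ring

lemma cls_swap (x : (ℤ × ℤ) × (ℤ × ℤ)) : cls x.swap = 2 ↔ cls x = 1 := by
  simp only [cls, Prod.fst_swap, Prod.snd_swap]
  by_cases h1 : x.1.1 = 0
  · by_cases h2 : x.2.1 = 0
    · simp [h1, h2]
    · simp [h1, h2]
  · by_cases h2 : x.2.1 = 0
    · simp [h1, h2]
    · simp only [h1, h2, if_false]
      by_cases h3 : x.2.1 + x.1.1 = 0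
      · rw [if_pos h3, if_pos (by rw [add_comm]; exact h3)]; decide
      · rw [if_neg h3, if_neg (by rw [add_comm]; exact h3)]; decide

lemma PT2_eq (a b : ℤ × ℤ) (w : ℝ) : PT 2 a b w = PT 1 b a w := by
  rw [PT, PT, ← (Equiv.prodComm (ℤ × ℤ) (ℤ × ℤ)).tsum_eq]
  refine tsum_congr (fun x => ?_)
  simp only [Equiv.prodComm_apply]
  by_cases h : cls x = 1
  · rw [if_pos h, if_pos ((cls_swap x).mpr h), Tterm_swap]
  · rw [if_neg h, if_neg (fun h' => h ((cls_swap x).mp h'))]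

/-! ### class 3 -/

/-- parametrisation of class 3 -/
def ph3 (y : (ℤ × ℤ) × ℤ) : (ℤ × ℤ) × (ℤ × ℤ) := ((y.1.2, y.2), (-y.1.2, y.1.1 - y.2))

lemma ph3_inj : Function.Injective ph3 := by
  rintro ⟨⟨k, m⟩, n⟩ ⟨⟨k', m'⟩, n'⟩ h
  simp only [ph3, Prod.mk.injEq] at h
  obtain ⟨⟨h1, h2⟩, -, h3⟩ := h
  subst h1 h2
  have : k = k' := by linarith
  rw [this]

lemma cls_ph3 (y : (ℤ × ℤ) × ℤ) : cls (ph3 y) = 3 ↔ y.1.2 ≠ 0 := by
  simp only [cls, ph3]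
  by_cases h : y.1.2 = 0 <;> simp [h]

lemma Tterm_ph3 (a b : ℤ × ℤ) (w : ℝ) (k m n : ℤ) :
    Tterm a b w (ph3 ((k, m), n)) = (e6 b.2 k * ((k : ℂ) ^ 2)⁻¹ * e6 (a.1 - b.1) m) *
      (e6 (a.2 - b.2) n * (F2 1 1 w (m, n) * F2 1 1 w (m, n + -k))) := by
  have e1 : ((m, n) : ℤ × ℤ) + (-m, k - n) = (0, k) := by
    ext
    · simp
    · simp
  have e2 : ((-m, k - n) : ℤ × ℤ) = -(m, n + -k) := by
    ext
    · simp
    · simp; ring
  have e3 : (ui w (-m, k - n) * ub w (-m, k - n)) = F2 1 1 w (m, n + -k) := by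
    rw [e2, ui_neg, ub_neg, F2]
    ring
  have e4 : e6 (a.1 - b.1) m = e6 a.1 m * e6 b.1 (-m) := by
    rw [sub_eq_add_neg, e6_add_left, e6_neg_left, e6_neg_right]
  have e5 : e6 a.2 n * e6 b.2 (k - n) = e6 b.2 k * e6 (a.2 - b.2) n := by
    rw [sub_eq_add_neg, sub_eq_add_neg, e6_add_left, e6_add_right, e6_neg_left, e6_neg_right]
    ring
  rw [Tterm_eq, ch_eq_e6, ch_eq_e6]
  simp only [ph3]
  rw [e1, e3, e4, ui_row_zero]
  have e6' : F2 1 1 w (m, n) = ui w (m, n) * ub w (m, n) := by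
    rw [F2, pow_one, pow_one]
  rw [e6']
  linear_combination (e6 a.1 m * e6 b.1 (-m) * (ui w (m, n) * ub w (m, n))
    * F2 1 1 w (m, n + -k) * ((k : ℂ)⁻¹) ^ 2) * e5

lemma support_sub_ph3 (a b : ℤ × ℤ) (w : ℝ) :
    (Function.support fun x : (ℤ × ℤ) × (ℤ × ℤ) => if cls x = 3 then Tterm a b w x else 0)
      ⊆ Set.range ph3 := by
  intro x hx
  rw [Function.mem_support] at hx
  have h : cls x = 3 := by
    by_contra h
    exact hx (if_neg h)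
  have h1 : x.1.1 + x.2.1 = 0 := by
    unfold cls at h
    split_ifs at h with h1 h2 h3 h4
    · exact absurd h (by decide)
    · exact absurd h (by decide)
    · exact absurd h (by decide)
    · exact h4
    · exact absurd h (by decide)
  refine ⟨((x.1.2 + x.2.2, x.1.1), x.1.2), ?_⟩
  obtain ⟨⟨m1, n1⟩, ⟨m2, n2⟩⟩ := x
  simp only [ph3, Prod.mk.injEq, true_and]
  simp only at h1
  constructor
  · linarith
  · ring

lemma PT3_eq {w : ℝ} (hw : 0 < w) (a b : ℤ × ℤ) :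
    PT 3 a b w = ∑' y : ℤ × ℤ, (e6 b.2 y.1 * ((y.1 : ℂ) ^ 2)⁻¹ * e6 (a.1 - b.1) y.2) *
      (if y.2 = 0 then 0 else inn 1 1 (a.2 - b.2) y.2 (-y.1) w) := by
  have hs : Summable fun y : (ℤ × ℤ) × ℤ =>
      if cls (ph3 y) = 3 then Tterm a b w (ph3 y) else 0 :=
    (summable_PT hw 3 a b).comp_injective ph3_inj
  rw [PT, ← ph3_inj.tsum_eq (support_sub_ph3 a b w), hs.tsum_prod]
  refine tsum_congr (fun y => ?_)
  obtain ⟨k, m⟩ := y
  by_cases hm : m = 0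
  · subst hm
    simp [cls_ph3]
  · rw [if_neg hm, inn, ← tsum_mul_left]
    refine tsum_congr (fun n => ?_)
    rw [if_pos ((cls_ph3 ((k, m), n)).mpr hm), Tterm_ph3]

lemma tendsto_PT3 (a b : ℤ × ℤ) :
    Tendsto (fun w : ℝ => (w : ℂ) ^ 3 * PT 3 a b w) atTop
      (𝓝 ((if 6 ∣ a.2 - b.2 then ((Real.pi : ℂ) / 2) else 0) * (z2 b.2 * L3 (a.1 - b.1)))) := by
  have h := tendsto_outer (p := 1) (q := 1) (by norm_num) b.2 (a.1 - b.1) (a.2 - b.2)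
    (fun k => -k) (if 6 ∣ a.2 - b.2 then ((Real.pi : ℂ) / 2) else 0) (fun m hm => by
      have := tendsto_row22 (a.2 - b.2) hm
      refine (this.congr (fun w => rfl)).trans (le_of_eq ?_)
      congr 1
      by_cases h6 : 6 ∣ a.2 - b.2
      · rw [if_pos h6, if_pos h6]
        push_cast
        ring
      · rw [if_neg h6, if_neg h6]; ring)
  refine h.congr' ?_
  filter_upwards [eventually_gt_atTop (0 : ℝ)] with w hw
  rw [PT3_eq hw]

/-! ### class 4: all three rows nonzero -/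

/-- `|g|^(-3)` outside the row `0` -/
noncomputable def bb (w : ℝ) (v : ℤ × ℤ) : ℝ := if v.1 = 0 then 0 else an w v ^ 3

lemma bb_nonneg (w : ℝ) (v : ℤ × ℤ) : 0 ≤ bb w v := by
  rw [bb]
  split_ifs
  · exact le_rfl
  · exact pow_nonneg (an_nonneg w v) 3

lemma bb_le (w : ℝ) (v : ℤ × ℤ) : bb w v ≤ an w v ^ 3 := by
  rw [bb]
  split_ifs
  · exact pow_nonneg (an_nonneg w v) 3
  · exact le_rfl

lemma summable_bb {w : ℝ} (hw : 0 < w) : Summable (bb w) :=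
  Summable.of_nonneg_of_le (bb_nonneg w) (bb_le w) (summable_an3 hw)

lemma tsum_bb_le : ∃ C : ℝ, 0 ≤ C ∧ ∀ w : ℝ, 1 ≤ w → ∑' v : ℤ × ℤ, bb w v ≤ C * (w ^ 2)⁻¹ := by
  obtain ⟨C, hC, hb⟩ := sum_an_le (s := 3) le_rfl
  refine ⟨C * ∑' m : ℤ, ((m : ℝ) ^ 2)⁻¹, mul_nonneg hC (tsum_nonneg fun m => by positivity), ?_⟩
  intro w hw
  have hw0 : 0 < w := by linarith
  have hs := summable_bb hw0
  rw [hs.tsum_prod]
  have h1 : Summable fun m : ℤ => C * ((m : ℝ) ^ 2)⁻¹ * (w ^ 2)⁻¹ :=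
    (summable_k2.mul_left C).mul_right _
  have h2 : ∑' m : ℤ, C * ((m : ℝ) ^ 2)⁻¹ * (w ^ 2)⁻¹
      = C * (∑' m : ℤ, ((m : ℝ) ^ 2)⁻¹) * (w ^ 2)⁻¹ := by
    rw [tsum_mul_right, tsum_mul_left]
  rw [← h2]
  refine hs.prod.tsum_le_tsum (fun m => ?_) h1
  by_cases hm : m = 0
  · subst hm
    simp [bb]
  · have h3 := hb m hm w hw
    have h4 : ∑' n : ℤ, bb w (m, n) = ∑' n : ℤ, an w (m, n) ^ 3 :=
      tsum_congr (fun n => by rw [bb, if_neg hm])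
    rw [h4]
    refine h3.trans (le_of_eq ?_)
    have hm' : |(m : ℝ)| ^ 2 = (m : ℝ) ^ 2 := sq_abs _
    simp only [show 3 - 1 = 2 from rfl]
    rw [mul_pow, hm', div_eq_mul_inv, mul_inv]
    ring

/-- the majorant of class 4 -/
noncomputable def M4 (w : ℝ) (x : (ℤ × ℤ) × (ℤ × ℤ)) : ℝ :=
  bb w x.1 * bb w x.2 + bb w x.1 * bb w (x.1 + x.2) + bb w x.2 * bb w (x.1 + x.2)

lemma M4_nonneg (w : ℝ) (x : (ℤ × ℤ) × (ℤ × ℤ)) : 0 ≤ M4 w x := by
  have h1 := bb_nonneg w x.1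
  have h2 := bb_nonneg w x.2
  have h3 := bb_nonneg w (x.1 + x.2)
  rw [M4]
  positivity

lemma summable_bb_mul {w : ℝ} (hw : 0 < w) :
    Summable fun x : (ℤ × ℤ) × (ℤ × ℤ) => bb w x.1 * bb w x.2 :=
  (summable_bb hw).mul_of_nonneg (summable_bb hw) (bb_nonneg w) (bb_nonneg w)

lemma hasSum_bb_mul {w : ℝ} (hw : 0 < w) :
    HasSum (fun x : (ℤ × ℤ) × (ℤ × ℤ) => bb w x.1 * bb w x.2) ((∑' v, bb w v) ^ 2) := by
  have h := (summable_bb hw).tsum_mul_tsum (summable_bb hw) (summable_bb_mul hw)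
  rw [pow_two, h]
  exact (summable_bb_mul hw).hasSum

lemma hasSum_M4 {w : ℝ} (hw : 0 < w) : HasSum (M4 w) (3 * (∑' v, bb w v) ^ 2) := by
  have h1 := hasSum_bb_mul hw
  have h2 : HasSum (fun x : (ℤ × ℤ) × (ℤ × ℤ) => bb w x.1 * bb w (x.1 + x.2))
      ((∑' v, bb w v) ^ 2) := eqr.hasSum_iff.mpr h1
  have h3 : HasSum (fun x : (ℤ × ℤ) × (ℤ × ℤ) => bb w x.2 * bb w (x.1 + x.2))
      ((∑' v, bb w v) ^ 2) := eql.hasSum_iff.mpr h1
  have h := (h1.add h2).add h3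
  have e : 3 * (∑' v, bb w v) ^ 2
      = (∑' v, bb w v) ^ 2 + (∑' v, bb w v) ^ 2 + (∑' v, bb w v) ^ 2 := by ring
  rw [e]
  exact h

lemma cls_four {x : (ℤ × ℤ) × (ℤ × ℤ)} (h : cls x = 4) :
    x.1.1 ≠ 0 ∧ x.2.1 ≠ 0 ∧ (x.1 + x.2).1 ≠ 0 := by
  unfold cls at h
  split_ifs at h with h1 h2 h3 h4
  · exact absurd h (by decide)
  · exact absurd h (by decide)
  · exact absurd h (by decide)
  · exact absurd h (by decide)
  · exact ⟨h1, h3, h4⟩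

lemma norm_PT4_le {w : ℝ} (hw : 0 < w) (a b : ℤ × ℤ) :
    ‖PT 4 a b w‖ ≤ 3 * (∑' v, bb w v) ^ 2 := by
  refine tsum_of_norm_bounded (hasSum_M4 hw) (fun x => ?_)
  by_cases h : cls x = 4
  · rw [if_pos h]
    obtain ⟨h1, h2, h3⟩ := cls_four h
    refine (norm_Tterm_le a b w x).trans (le_of_eq ?_)
    rw [MM, M4, bb, bb, bb, if_neg h1, if_neg h2, if_neg h3]
  · rw [if_neg h, norm_zero]
    exact M4_nonneg w x

lemma tendsto_PT4 (a b : ℤ × ℤ) :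
    Tendsto (fun w : ℝ => (w : ℂ) ^ 3 * PT 4 a b w) atTop (𝓝 0) := by
  obtain ⟨C, hC, hb⟩ := tsum_bb_le
  have hb2 : ∀ᶠ w : ℝ in atTop, ‖(w : ℂ) ^ 3 * PT 4 a b w‖ ≤ (3 * C ^ 2) * w⁻¹ := by
    filter_upwards [eventually_ge_atTop (1 : ℝ)] with w hw
    have hw0 : 0 < w := by linarith
    have h1 := norm_PT4_le hw0 a b
    have h2 := hb w hw
    have h3 : 0 ≤ ∑' v, bb w v := tsum_nonneg (bb_nonneg w)
    have h4 : (∑' v, bb w v) ^ 2 ≤ (C * (w ^ 2)⁻¹) ^ 2 := pow_le_pow_left₀ h3 h2 2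
    rw [norm_mul, norm_pow, Complex.norm_real, Real.norm_eq_abs, abs_of_pos hw0]
    calc w ^ 3 * ‖PT 4 a b w‖ ≤ w ^ 3 * (3 * (C * (w ^ 2)⁻¹) ^ 2) :=
          mul_le_mul_of_nonneg_left (by linarith) (by positivity)
      _ = _ := by field_simp
  refine squeeze_zero_norm' hb2 ?_
  have := (tendsto_inv_atTop_zero (𝕜 := ℝ)).const_mul (3 * C ^ 2)
  simpa using this

/-! ### the limit of `T(a,b)` -/

/-- the constant term of `w³ T(a,b)` -/
noncomputable def cT (a b : ℤ × ℤ) : ℂ :=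
  (if 6 ∣ b.2 then -((Real.pi : ℂ) / 4) else 0) * (z2 a.2 * L3 b.1)
    + (if 6 ∣ a.2 then -((Real.pi : ℂ) / 4) else 0) * (z2 b.2 * L3 a.1)
    + (if 6 ∣ a.2 - b.2 then ((Real.pi : ℂ) / 2) else 0) * (z2 b.2 * L3 (a.1 - b.1))

theorem tendsto_T (a b : ℤ × ℤ) :
    Tendsto (fun w : ℝ => (w : ℂ) ^ 3 * T a b w - PT 0 a b 1 * (w : ℂ) ^ 3) atTop
      (𝓝 (cT a b)) := by
  have h := ((tendsto_PT1 a b).add (tendsto_PT1 b a)).add ((tendsto_PT3 a b).add (tendsto_PT4 a b))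
  rw [add_zero, ← cT] at h
  refine h.congr' ?_
  filter_upwards [eventually_gt_atTop (0 : ℝ)] with w hw
  rw [T_eq_PT hw, PT0_const a b w, PT2_eq]
  ring

end Pool.RV.LimTw
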