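import Pool.Agent.Work.MP_5955e5_nt.B.LimRow

/-!
# Cell RV, block (b6): the two-loop sums with one vanishing `m_i`, inner sums (helper64)
-/

set_option autoImplicit false

open Complex MeasureTheory Filter Topology

namespace Pool.RV

theorem summable_inv_sq_int : Summable (fun n : ℤ => ((n : ℝ) ^ 2)⁻¹) := by
  have := (Real.summable_one_div_int_pow (p := 2)).mpr (by norm_num)
  simpa [one_div] using this

theorem summable_inv_abs3_int : Summable (fun m : ℤ => (|(m : ℝ)| ^ 3)⁻¹) := by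
  have := ((Real.summable_one_div_int_pow (p := 3)).mpr (by norm_num)).abs
  refine this.congr (fun m => ?_)
  rw [one_div, abs_inv, abs_pow]

/-- limits of doubly indexed sums -/
theorem tendsto_double {u s : ℤ → ℂ} (hu : ∀ N, ‖u N‖ ≤ ((N : ℝ) ^ 2)⁻¹) (hs : ∀ m, ‖s m‖ ≤ 1)
    {R : ℤ → ℤ → ℝ → ℂ} {C : ℝ} {c : ℂ}
    (hR : ∀ N m : ℤ, m ≠ 0 → ∀ w : ℝ, 1 ≤ w → ‖R N m w‖ ≤ C * (|(m : ℝ)| ^ 3)⁻¹)
    (hlim : ∀ N m : ℤ, m ≠ 0 →
      Tendsto (R N m) atTop (𝓝 (c * (((|(m : ℝ)| ^ 3)⁻¹ : ℝ) : ℂ)))) :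
    Tendsto (fun w => ∑' x : ℤ × ℤ, u x.1 * (if x.2 = 0 then 0 else s x.2 * R x.1 x.2 w)) atTop
      (𝓝 ((∑' N, u N) * (c * ∑' m, s m * (((|(m : ℝ)| ^ 3)⁻¹ : ℝ) : ℂ)))) := by
  have hC0 : 0 ≤ C := by
    have h1 := (norm_nonneg _).trans (hR 0 1 one_ne_zero 1 le_rfl)
    simpa using h1
  have hsum1 : Summable (fun N : ℤ => ‖u N‖) :=
    Summable.of_nonneg_of_le (fun N => norm_nonneg _) hu summable_inv_sq_int
  have hsum2 : Summable (fun m : ℤ => ‖s m * (((|(m : ℝ)| ^ 3)⁻¹ : ℝ) : ℂ)‖) := by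
    refine Summable.of_nonneg_of_le (fun N => norm_nonneg _) (fun m => ?_) summable_inv_abs3_int
    rw [norm_mul, norm_real, Real.norm_eq_abs, abs_of_nonneg (by positivity)]
    have := hs m
    have h0 : 0 ≤ (|(m : ℝ)| ^ 3)⁻¹ := by positivity
    nlinarith
  have e1 : (∑' N, u N) * (c * ∑' m, s m * (((|(m : ℝ)| ^ 3)⁻¹ : ℝ) : ℂ)) =
      ∑' x : ℤ × ℤ, u x.1 * (c * (s x.2 * (((|(x.2 : ℝ)| ^ 3)⁻¹ : ℝ) : ℂ))) := by
    rw [← tsum_mul_left]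
    refine tsum_mul_tsum_of_summable_norm hsum1 ?_
    simp_rw [norm_mul c]
    exact hsum2.mul_left _
  rw [e1]
  have hbound : Summable (fun x : ℤ × ℤ => ((x.1 : ℝ) ^ 2)⁻¹ * (C * (|(x.2 : ℝ)| ^ 3)⁻¹)) :=
    summable_inv_sq_int.mul_of_nonneg (summable_inv_abs3_int.mul_left C)
      (fun n => by positivity) (fun m => by positivity)
  refine tendsto_tsum_of_dominated_convergence hbound ?_ ?_
  · intro x
    by_cases hx : x.2 = 0
    · simp [hx]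
    · simp only [if_neg hx]
      refine Tendsto.const_mul _ ?_
      have := (hlim x.1 x.2 hx).const_mul (s x.2)
      refine this.congr' (Eventually.of_forall fun w => rfl) |>.trans ?_
      have e : s x.2 * (c * (((|(x.2 : ℝ)| ^ 3)⁻¹ : ℝ) : ℂ)) =
          c * (s x.2 * (((|(x.2 : ℝ)| ^ 3)⁻¹ : ℝ) : ℂ)) := by ring
      rw [e]
  · filter_upwards [eventually_ge_atTop 1] with w hw x
    by_cases hx : x.2 = 0
    · simp [hx]
    · simp only [if_neg hx]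
      rw [norm_mul, norm_mul]
      have h1 := hu x.1
      have h2 := hs x.2
      have h3 := hR x.1 x.2 hx w hw
      have h4 : ‖s x.2‖ * ‖R x.1 x.2 w‖ ≤ 1 * (C * (|(x.2 : ℝ)| ^ 3)⁻¹) :=
        mul_le_mul h2 h3 (norm_nonneg _) zero_le_one
      rw [one_mul] at h4
      exact mul_le_mul h1 h4 (by positivity) (by positivity)

/-! the inner sums -/

/-- shifting the row -/
theorem row_shift (k : ℕ) {m : ℤ} (hm : m ≠ 0) {w : ℝ} (hw : 1 ≤ w) (M : ℤ) :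
    Summable (fun n : ℤ => an w (m, n + M) ^ (k + 2)) ∧
      ∑' n : ℤ, an w (m, n + M) ^ (k + 2) = ∑' n : ℤ, an w (m, n) ^ (k + 2) := by
  obtain ⟨h1, -⟩ := row_an_le k hm hw
  exact ⟨(Equiv.addRight M).summable_iff.mpr h1,
    (Equiv.addRight M).tsum_eq (fun n : ℤ => an w (m, n) ^ (k + 2))⟩

theorem ab22 (A B : ℝ) : A ^ 2 * B ^ 2 ≤ 1 / 2 * A ^ 4 + 1 / 2 * B ^ 4 := by
  nlinarith [sq_nonneg (A ^ 2 - B ^ 2)]

/-- an inner sum dominated by `A² B²` -/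
theorem inner_bound {m : ℤ} (hm : m ≠ 0) {w : ℝ} (hw : 1 ≤ w) (M : ℤ) {F : ℤ → ℂ}
    (hF : ∀ n, ‖F n‖ ≤ an w (m, n) ^ 2 * an w (m, n + M) ^ 2) :
    Summable F ∧ ‖∑' n, F n‖ ≤ 3 * Real.pi / (|(m : ℝ)| * w) ^ 3 := by
  obtain ⟨h1, h2⟩ := row_an_le 2 hm hw
  obtain ⟨h3, h4⟩ := row_shift 2 hm hw M
  norm_num at h1 h2 h3 h4
  have hb : ∀ n, ‖F n‖ ≤ 1 / 2 * an w (m, n) ^ 4 + 1 / 2 * an w (m, n + M) ^ 4 := fun n =>
    (hF n).trans (ab22 _ _)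
  have hs := (h1.mul_left (1 / 2)).add (h3.mul_left (1 / 2))
  refine ⟨Summable.of_norm_bounded hs hb, ?_⟩
  refine (tsum_of_norm_bounded hs.hasSum hb).trans ?_
  rw [(h1.mul_left (1 / 2)).tsum_add (h3.mul_left (1 / 2)), tsum_mul_left, tsum_mul_left, h4]
  linarith

/-- the inner sums differ little from the ones with `N = 0` -/
theorem inner_diff {m : ℤ} (hm : m ≠ 0) {w : ℝ} (hw : 1 ≤ w) (M : ℤ) {F : ℤ → ℂ}
    (hF : ∀ n, ‖F n‖ ≤ |(M : ℝ)| * (an w (m, n) ^ 4 * an w (m, n + M)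
      + an w (m, n) ^ 3 * an w (m, n + M) ^ 2)) :
    ‖∑' n, F n‖ ≤ 6 * Real.pi * |(M : ℝ)| / (|(m : ℝ)| * w) ^ 4 := by
  obtain ⟨h1, h2⟩ := row_an_le 2 hm hw
  obtain ⟨h3, h4⟩ := row_shift 2 hm hw M
  norm_num at h1 h2 h3 h4
  have hw0 : 0 < w := by linarith
  have hmpos : 0 < |(m : ℝ)| := abs_pos.mpr (Int.cast_ne_zero.mpr hm)
  set Y := |(m : ℝ)| * w with hY
  have hY0 : 0 < Y := by positivity
  have hb : ∀ n, ‖F n‖ ≤ |(M : ℝ)| * Y⁻¹ * (3 / 2 * an w (m, n) ^ 4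
      + 1 / 2 * an w (m, n + M) ^ 4) := by
    intro n
    refine (hF n).trans ?_
    have hA := an_row_le hm hw0 n
    have hB := an_row_le hm hw0 (n + M)
    have hA0 := an_nonneg w (m, n)
    have hB0 := an_nonneg w (m, n + M)
    have hM0 : 0 ≤ |(M : ℝ)| := abs_nonneg _
    set A := an w (m, n)
    set B := an w (m, n + M)
    have k1 : A ^ 4 * B ≤ A ^ 4 * Y⁻¹ := by gcongr
    have k2 : A ^ 3 * B ^ 2 ≤ Y⁻¹ * (A ^ 2 * B ^ 2) := by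
      have : A ^ 3 * B ^ 2 = A * (A ^ 2 * B ^ 2) := by ring
      rw [this]
      gcongr
    have k3 : Y⁻¹ * (A ^ 2 * B ^ 2) ≤ Y⁻¹ * (1 / 2 * A ^ 4 + 1 / 2 * B ^ 4) := by
      have := ab22 A B
      gcongr
    calc |(M : ℝ)| * (A ^ 4 * B + A ^ 3 * B ^ 2)
        ≤ |(M : ℝ)| * (A ^ 4 * Y⁻¹ + Y⁻¹ * (1 / 2 * A ^ 4 + 1 / 2 * B ^ 4)) :=
          mul_le_mul_of_nonneg_left (add_le_add k1 (k2.trans k3)) hM0
      _ = _ := by ring
  have hs := ((h1.mul_left (3 / 2)).add (h3.mul_left (1 / 2))).mul_left (|(M : ℝ)| * Y⁻¹)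
  refine (tsum_of_norm_bounded hs.hasSum hb).trans ?_
  rw [tsum_mul_left, (h1.mul_left (3 / 2)).tsum_add (h3.mul_left (1 / 2)), tsum_mul_left,
    tsum_mul_left, h4]
  calc |(M : ℝ)| * Y⁻¹ * (3 / 2 * ∑' n : ℤ, an w (m, n) ^ 4 + 1 / 2 * ∑' n : ℤ, an w (m, n) ^ 4)
      = |(M : ℝ)| * Y⁻¹ * 2 * ∑' n : ℤ, an w (m, n) ^ 4 := by ring
    _ ≤ |(M : ℝ)| * Y⁻¹ * 2 * (3 * Real.pi / Y ^ 3) := by gcongr
    _ = 6 * Real.pi * |(M : ℝ)| / Y ^ 4 := by field_simp; ring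

theorem gm_row_ne {m : ℤ} (hm : m ≠ 0) {w : ℝ} (hw : 0 < w) (n : ℤ) : gm w (m, n) ≠ 0 :=
  gm_ne_zero hw (fun h => hm (congrArg Prod.fst h))

/-- difference of inverses in a row -/
theorem ui_sub {m : ℤ} (hm : m ≠ 0) {w : ℝ} (hw : 0 < w) (n M : ℤ) :
    ui w (m, n + M) - ui w (m, n) = -(M : ℂ) * (ui w (m, n) * ui w (m, n + M)) := by
  have h1 := gm_row_ne hm hw n
  have h2 := gm_row_ne hm hw (n + M)
  have h3 : gm w (m, n + M) = gm w (m, n) + M := by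
    simp only [gm]; push_cast; ring
  rw [ui, ui]
  rw [h3] at h2 ⊢
  field_simp
  ring

theorem norm_ui_sub {m : ℤ} (hm : m ≠ 0) {w : ℝ} (hw : 0 < w) (n M : ℤ) :
    ‖ui w (m, n + M) - ui w (m, n)‖ = |(M : ℝ)| * (an w (m, n) * an w (m, n + M)) := by
  rw [ui_sub hm hw, norm_mul, norm_neg, norm_mul, norm_ui, norm_ui, Complex.norm_intCast]

theorem norm_ub_sub {m : ℤ} (hm : m ≠ 0) {w : ℝ} (hw : 0 < w) (n M : ℤ) :
    ‖ub w (m, n + M) - ub w (m, n)‖ = |(M : ℝ)| * (an w (m, n) * an w (m, n + M)) := by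
  rw [← norm_ui_sub hm hw, ← conj_ui, ← conj_ui, ← map_sub, RCLike.norm_conj]

/-- inner sum of type `m₁ = 0` -/
noncomputable def R1 (j N m : ℤ) (w : ℝ) : ℂ :=
  ∑' n : ℤ, e6 j n * (ui w (m, n) * ub w (m, n) * ui w (m, n + N) ^ 2)

/-- inner sum of type `m₁ + m₂ = 0` -/
noncomputable def R3 (j N m : ℤ) (w : ℝ) : ℂ :=
  ∑' n : ℤ, e6 j n * (ui w (m, n) * ub w (m, n) * (ui w (m, n + (-N)) * ub w (m, n + (-N))))

theorem norm_R1_term (j N m n : ℤ) (w : ℝ) :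
    ‖e6 j n * (ui w (m, n) * ub w (m, n) * ui w (m, n + N) ^ 2)‖
      ≤ an w (m, n) ^ 2 * an w (m, n + N) ^ 2 := by
  rw [norm_mul, norm_e6, norm_mul, norm_mul, norm_pow, norm_ui, norm_ub, norm_ui]
  apply le_of_eq; ring

theorem norm_R3_term (j N m n : ℤ) (w : ℝ) :
    ‖e6 j n * (ui w (m, n) * ub w (m, n) * (ui w (m, n + (-N)) * ub w (m, n + (-N))))‖
      ≤ an w (m, n) ^ 2 * an w (m, n + (-N)) ^ 2 := by
  rw [norm_mul, norm_e6, norm_mul, norm_mul, norm_mul, norm_ui, norm_ub, norm_ui, norm_ub]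
  apply le_of_eq; ring

theorem R1_diff (j N : ℤ) {m : ℤ} (hm : m ≠ 0) {w : ℝ} (hw : 1 ≤ w) :
    ‖R1 j N m w - row 3 1 j m w‖ ≤ 6 * Real.pi * |(N : ℝ)| / (|(m : ℝ)| * w) ^ 4 := by
  have hw0 : 0 < w := by linarith
  obtain ⟨h1, -⟩ := inner_bound hm hw N (fun n => norm_R1_term j N m n w)
  have h2 := summable_row 3 1 (by norm_num) j hm hw0
  rw [R1, row, ← h1.tsum_sub h2]
  refine inner_diff hm hw N (fun n => ?_)
  have e : e6 j n * (ui w (m, n) * ub w (m, n) * ui w (m, n + N) ^ 2) -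
      e6 j n * (ui w (m, n) ^ 3 * ub w (m, n) ^ 1) =
      e6 j n * (ui w (m, n) * ub w (m, n) * ((ui w (m, n + N) - ui w (m, n)) *
        (ui w (m, n + N) + ui w (m, n)))) := by ring
  rw [e, norm_mul, norm_e6, one_mul, norm_mul, norm_mul, norm_mul, norm_ui, norm_ub,
    norm_ui_sub hm hw0]
  have h3 : ‖ui w (m, n + N) + ui w (m, n)‖ ≤ an w (m, n + N) + an w (m, n) := by
    refine (norm_add_le _ _).trans ?_
    rw [norm_ui, norm_ui]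
  have hA0 := an_nonneg w (m, n)
  have hB0 := an_nonneg w (m, n + N)
  calc an w (m, n) * an w (m, n) * (|(N : ℝ)| * (an w (m, n) * an w (m, n + N)) *
        ‖ui w (m, n + N) + ui w (m, n)‖)
      ≤ an w (m, n) * an w (m, n) * (|(N : ℝ)| * (an w (m, n) * an w (m, n + N)) *
        (an w (m, n + N) + an w (m, n))) := by gcongr
    _ = _ := by ring

theorem R3_diff (j N : ℤ) {m : ℤ} (hm : m ≠ 0) {w : ℝ} (hw : 1 ≤ w) :
    ‖R3 j N m w - row 2 2 j m w‖ ≤ 6 * Real.pi * |(N : ℝ)| / (|(m : ℝ)| * w) ^ 4 := by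
  have hw0 : 0 < w := by linarith
  obtain ⟨h1, -⟩ := inner_bound hm hw (-N) (fun n => norm_R3_term j N m n w)
  have h2 := summable_row 2 2 (by norm_num) j hm hw0
  have hN : |(N : ℝ)| = |((-N : ℤ) : ℝ)| := by push_cast; rw [abs_neg]
  rw [R3, row, ← h1.tsum_sub h2, hN]
  refine inner_diff hm hw (-N) (fun n => ?_)
  have e : e6 j n * (ui w (m, n) * ub w (m, n) * (ui w (m, n + -N) * ub w (m, n + -N))) -
      e6 j n * (ui w (m, n) ^ 2 * ub w (m, n) ^ 2) =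
      e6 j n * (ui w (m, n) * ub w (m, n) * ((ui w (m, n + -N) - ui w (m, n)) * ub w (m, n + -N)
        + ui w (m, n) * (ub w (m, n + -N) - ub w (m, n)))) := by ring
  rw [e, norm_mul, norm_e6, one_mul, norm_mul, norm_mul, norm_ui, norm_ub]
  have h3 : ‖(ui w (m, n + -N) - ui w (m, n)) * ub w (m, n + -N)
        + ui w (m, n) * (ub w (m, n + -N) - ub w (m, n))‖ ≤
      |((-N : ℤ) : ℝ)| * (an w (m, n) * an w (m, n + -N)) * an w (m, n + -N)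
        + an w (m, n) * (|((-N : ℤ) : ℝ)| * (an w (m, n) * an w (m, n + -N))) := by
    refine (norm_add_le _ _).trans ?_
    rw [norm_mul, norm_mul, norm_ui_sub hm hw0, norm_ub_sub hm hw0, norm_ui, norm_ub]
  have hA0 := an_nonneg w (m, n)
  have hB0 := an_nonneg w (m, n + -N)
  calc an w (m, n) * an w (m, n) * ‖(ui w (m, n + -N) - ui w (m, n)) * ub w (m, n + -N)
        + ui w (m, n) * (ub w (m, n + -N) - ub w (m, n))‖
      ≤ an w (m, n) * an w (m, n) * (|((-N : ℤ) : ℝ)| * (an w (m, n) * an w (m, n + -N)) *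
          an w (m, n + -N) + an w (m, n) * (|((-N : ℤ) : ℝ)| *
            (an w (m, n) * an w (m, n + -N)))) := by gcongr
    _ = _ := by ring

/-- a perturbation of a convergent row converges -/
theorem tendsto_of_diff {m : ℤ} (hm : m ≠ 0) {F G : ℝ → ℂ} {l : ℂ} (C : ℝ)
    (hG : Tendsto (fun w : ℝ => (w : ℂ) ^ 3 * G w) atTop (𝓝 l))
    (hFG : ∀ w : ℝ, 1 ≤ w → ‖F w - G w‖ ≤ C / (|(m : ℝ)| * w) ^ 4) :
    Tendsto (fun w : ℝ => (w : ℂ) ^ 3 * F w) atTop (𝓝 l) := by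
  have h1 : Tendsto (fun w : ℝ => (w : ℂ) ^ 3 * (F w - G w)) atTop (𝓝 0) := by
    rw [tendsto_zero_iff_norm_tendsto_zero]
    refine squeeze_zero_norm' ?_ (tendsto_err hm C)
    filter_upwards [eventually_ge_atTop 1] with w hw
    have hw0 : 0 < w := by linarith
    rw [norm_norm, norm_mul, norm_pow, norm_real, Real.norm_eq_abs, abs_of_pos hw0]
    have := hFG w hw
    gcongr
  have h2 := hG.add h1
  rw [add_zero] at h2
  refine h2.congr fun w => ?_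
  ring

theorem tendsto_R1 (j N : ℤ) {m : ℤ} (hm : m ≠ 0) :
    Tendsto (fun w : ℝ => (w : ℂ) ^ 3 * R1 j N m w) atTop
      (𝓝 ((if 6 ∣ j then ((-(Real.pi / 4) : ℝ) : ℂ) else 0) *
        (((|(m : ℝ)| ^ 3)⁻¹ : ℝ) : ℂ))) := by
  have h1 := tendsto_of_diff hm (6 * Real.pi * |(N : ℝ)|) (tendsto_row31 j hm)
    (fun w hw => R1_diff j N hm hw)
  refine h1.congr' (Eventually.of_forall fun w => rfl) |>.trans (le_of_eq ?_)
  congr 1
  split_ifs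
  · rw [← ofReal_mul, div_eq_mul_inv (-(Real.pi / 4))]
  · rw [zero_mul]

theorem tendsto_R3 (j N : ℤ) {m : ℤ} (hm : m ≠ 0) :
    Tendsto (fun w : ℝ => (w : ℂ) ^ 3 * R3 j N m w) atTop
      (𝓝 ((if 6 ∣ j then ((Real.pi / 2 : ℝ) : ℂ) else 0) *
        (((|(m : ℝ)| ^ 3)⁻¹ : ℝ) : ℂ))) := by
  have h1 := tendsto_of_diff hm (6 * Real.pi * |(N : ℝ)|) (tendsto_row22 j hm)
    (fun w hw => R3_diff j N hm hw)
  refine h1.congr' (Eventually.of_forall fun w => rfl) |>.trans (le_of_eq ?_)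
  congr 1
  split_ifs
  · rw [← ofReal_mul, div_eq_mul_inv (Real.pi / 2)]
  · rw [zero_mul]

theorem w3_bound {m : ℤ} (hm : m ≠ 0) {w : ℝ} (hw : 1 ≤ w) {z : ℂ}
    (hz : ‖z‖ ≤ 3 * Real.pi / (|(m : ℝ)| * w) ^ 3) :
    ‖(w : ℂ) ^ 3 * z‖ ≤ 3 * Real.pi * (|(m : ℝ)| ^ 3)⁻¹ := by
  have hw0 : 0 < w := by linarith
  have h0 : |(m : ℝ)| ≠ 0 := abs_ne_zero.mpr (Int.cast_ne_zero.mpr hm)
  rw [norm_mul, norm_pow, norm_real, Real.norm_eq_abs, abs_of_pos hw0]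
  calc w ^ 3 * ‖z‖ ≤ w ^ 3 * (3 * Real.pi / (|(m : ℝ)| * w) ^ 3) := by gcongr
    _ = 3 * Real.pi * (|(m : ℝ)| ^ 3)⁻¹ := by field_simp

theorem norm_w3_R1_le (j N : ℤ) {m : ℤ} (hm : m ≠ 0) {w : ℝ} (hw : 1 ≤ w) :
    ‖(w : ℂ) ^ 3 * R1 j N m w‖ ≤ 3 * Real.pi * (|(m : ℝ)| ^ 3)⁻¹ :=
  w3_bound hm hw (inner_bound hm hw N (fun n => norm_R1_term j N m n w)).2

theorem norm_w3_R3_le (j N : ℤ) {m : ℤ} (hm : m ≠ 0) {w : ℝ} (hw : 1 ≤ w) :
    ‖(w : ℂ) ^ 3 * R3 j N m w‖ ≤ 3 * Real.pi * (|(m : ℝ)| ^ 3)⁻¹ :=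
  w3_bound hm hw (inner_bound hm hw (-N) (fun n => norm_R3_term j N m n w)).2

end Pool.RV
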