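import Pool.Agent.Work.MP_5955e5_nt.B.LimT1

/-!
# Cell RV, block (b6): the degenerate parts `A0`, `A1`, `A2`, `A3` of the two-loop sums (helper64)
-/

set_option autoImplicit false

open Complex MeasureTheory Filter Topology

namespace Pool.RV

/-- restricting a two-loop sum -/
theorem summable_ite {a b : ℤ × ℤ} {w : ℝ} (hw : 0 < w)
    (P : (ℤ × ℤ) × (ℤ × ℤ) → Prop) [DecidablePred P] :
    Summable (fun x => if P x then (w : ℂ) ^ 3 * Tterm a b w x else 0) := by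
  have h1 := ((summable_Tterm hw a b).mul_left ((w : ℂ) ^ 3)).norm
  refine Summable.of_norm_bounded h1 (fun x => ?_)
  split_ifs
  · exact le_rfl
  · rw [norm_zero]; exact norm_nonneg _

theorem ui_zero_row (w : ℝ) (N : ℤ) : ui w (0, N) = (N : ℂ)⁻¹ := by
  rw [ui, gm]; simp

theorem ub_zero_row (w : ℝ) (N : ℤ) : ub w (0, N) = (N : ℂ)⁻¹ := by
  rw [ub, gm]; simp

theorem ch_zero_row (a : ℤ × ℤ) (N : ℤ) : ch a (0, N) = e6 a.2 N := by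
  rw [ch_eq_e6, e6_zero_right, one_mul]

/-- parametrisation of `m₁ = 0` -/
def ph1 (y : (ℤ × ℤ) × ℤ) : (ℤ × ℤ) × (ℤ × ℤ) := ((0, y.1.1), (y.1.2, y.2))

theorem ph1_inj : Function.Injective ph1 := by
  rintro ⟨⟨N, m⟩, n⟩ ⟨⟨N', m'⟩, n'⟩ h
  simp only [ph1, Prod.mk.injEq, true_and] at h
  obtain ⟨rfl, rfl, rfl⟩ := h
  rfl

/-- parametrisation of `m₁ + m₂ = 0` -/
def ph3 (y : (ℤ × ℤ) × ℤ) : (ℤ × ℤ) × (ℤ × ℤ) := ((y.1.2, y.2), (-y.1.2, y.1.1 - y.2))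

theorem ph3_inj : Function.Injective ph3 := by
  rintro ⟨⟨N, m⟩, n⟩ ⟨⟨N', m'⟩, n'⟩ h
  simp only [ph3, Prod.mk.injEq] at h
  obtain ⟨⟨rfl, rfl⟩, -, h3⟩ := h
  have : N = N' := by omega
  rw [this]

/-- weights of the degenerate parts -/
noncomputable def uw (j N : ℤ) : ℂ := e6 j N * ((N : ℂ) ^ 2)⁻¹

theorem norm_uw (j N : ℤ) : ‖uw j N‖ ≤ ((N : ℝ) ^ 2)⁻¹ := by
  rw [uw, norm_mul, norm_e6, one_mul, norm_inv, norm_pow, Complex.norm_intCast, sq_abs]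

/-- FUBINI for `A1` -/
theorem A1_eq {a b : ℤ × ℤ} {w : ℝ} (hw : 0 < w) :
    ∑' x : (ℤ × ℤ) × (ℤ × ℤ), (if x.1.1 = 0 ∧ x.2.1 ≠ 0 then (w : ℂ) ^ 3 * Tterm a b w x else 0)
      = ∑' y : ℤ × ℤ, uw a.2 y.1 *
        (if y.2 = 0 then 0 else e6 b.1 y.2 * ((w : ℂ) ^ 3 * R1 b.2 y.1 y.2 w)) := by
  have hs := summable_ite (a := a) (b := b) hw (fun x => x.1.1 = 0 ∧ x.2.1 ≠ 0)
  have hs' := hs.comp_injective ph1_inj
  rw [← ph1_inj.tsum_eq]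
  · refine (Summable.tsum_prod hs').trans ?_
    refine tsum_congr fun y => ?_
    by_cases hy : y.2 = 0
    · simp [ph1, hy]
    · rw [if_neg hy, R1, ← tsum_mul_left, ← tsum_mul_left, ← tsum_mul_left]
      refine tsum_congr fun n => ?_
      simp only [ph1, Function.comp_apply]
      rw [if_pos ⟨trivial, hy⟩, Tterm_eq]
      have e : ((0 : ℤ), y.1) + (y.2, n) = (y.2, n + y.1) := by
        ext <;> simp [add_comm]
      rw [e, ch_zero_row, ch_eq_e6 b, ui_zero_row, ub_zero_row, uw]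
      simp only
      ring
  · intro x hx
    have hx1 : x.1.1 = 0 := by
      by_contra h
      exact hx (if_neg (fun h' => h h'.1))
    refine ⟨((x.1.2, x.2.1), x.2.2), ?_⟩
    rw [ph1]
    ext
    · exact hx1.symm
    · rfl
    · rfl
    · rfl

/-- FUBINI for `A3` -/
theorem A3_eq {a b : ℤ × ℤ} {w : ℝ} (hw : 0 < w) :
    ∑' x : (ℤ × ℤ) × (ℤ × ℤ), (if x.1.1 ≠ 0 ∧ x.2.1 ≠ 0 ∧ x.1.1 + x.2.1 = 0 then
        (w : ℂ) ^ 3 * Tterm a b w x else 0)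
      = ∑' y : ℤ × ℤ, uw b.2 y.1 *
        (if y.2 = 0 then 0 else e6 (a.1 - b.1) y.2 * ((w : ℂ) ^ 3 * R3 (a.2 - b.2) y.1 y.2 w)) := by
  have hs := summable_ite (a := a) (b := b) hw (fun x => x.1.1 ≠ 0 ∧ x.2.1 ≠ 0 ∧ x.1.1 + x.2.1 = 0)
  have hs' := hs.comp_injective ph3_inj
  rw [← ph3_inj.tsum_eq]
  · refine (Summable.tsum_prod hs').trans ?_
    refine tsum_congr fun y => ?_
    by_cases hy : y.2 = 0
    · simp [ph3, hy]
    · rw [if_neg hy, R3, ← tsum_mul_left, ← tsum_mul_left, ← tsum_mul_left]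
      refine tsum_congr fun n => ?_
      simp only [ph3, Function.comp_apply]
      rw [if_pos ⟨hy, neg_ne_zero.mpr hy, add_neg_cancel _⟩, Tterm_eq]
      have e : ((y.2, n) : ℤ × ℤ) + (-y.2, y.1 - n) = (0, y.1) := by
        ext <;> simp
      have e2 : ((-y.2, y.1 - n) : ℤ × ℤ) = -(y.2, n + -y.1) := by
        ext
        · simp
        · simp only [Prod.snd_neg]; ring
      simp only [e]
      rw [e2, ui_neg, ub_neg, ui_zero_row, ch_eq_e6, ch_eq_e6 b, uw]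
      simp only [Prod.fst_neg, Prod.snd_neg]
      have k1 : e6 (a.1 - b.1) y.2 = e6 a.1 y.2 * (e6 b.1 y.2)⁻¹ := by
        rw [sub_eq_add_neg, e6_add_left, e6_neg_left]
      have k2 : e6 (a.2 - b.2) n = e6 a.2 n * (e6 b.2 n)⁻¹ := by
        rw [sub_eq_add_neg, e6_add_left, e6_neg_left]
      have k3 : e6 b.1 (-y.2) = (e6 b.1 y.2)⁻¹ := e6_neg_right _ _
      have k4 : e6 b.2 (-(n + -y.1)) = (e6 b.2 n)⁻¹ * e6 b.2 y.1 := by
        rw [neg_add, neg_neg, e6_add_right, e6_neg_right]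
      rw [k1, k2, k3, k4]
      ring
  · intro x hx
    have hx1 : x.1.1 + x.2.1 = 0 := by
      by_contra h
      exact hx (if_neg (fun h' => h h'.2.2))
    refine ⟨((x.1.2 + x.2.2, x.1.1), x.1.2), ?_⟩
    rw [ph3]
    ext
    · rfl
    · rfl
    · show -x.1.1 = x.2.1
      omega
    · show x.1.2 + x.2.2 - x.1.2 = x.2.2
      omega

theorem tendsto_A1 (a b : ℤ × ℤ) :
    Tendsto (fun w : ℝ => ∑' x : (ℤ × ℤ) × (ℤ × ℤ),
      (if x.1.1 = 0 ∧ x.2.1 ≠ 0 then (w : ℂ) ^ 3 * Tterm a b w x else 0)) atTop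
      (𝓝 (z2 a.2 * ((if 6 ∣ b.2 then ((-(Real.pi / 4) : ℝ) : ℂ) else 0) * L3 b.1))) := by
  have h := tendsto_double (u := uw a.2) (s := e6 b.1) (norm_uw a.2) (fun m => (norm_e6 _ m).le)
    (R := fun N m w => (w : ℂ) ^ 3 * R1 b.2 N m w)
    (fun N m hm w hw => norm_w3_R1_le b.2 N hm hw) (fun N m hm => tendsto_R1 b.2 N hm)
  refine h.congr' ?_
  filter_upwards [eventually_gt_atTop 0] with w hw
  exact (A1_eq hw).symm

theorem tendsto_A3 (a b : ℤ × ℤ) :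
    Tendsto (fun w : ℝ => ∑' x : (ℤ × ℤ) × (ℤ × ℤ),
      (if x.1.1 ≠ 0 ∧ x.2.1 ≠ 0 ∧ x.1.1 + x.2.1 = 0 then
        (w : ℂ) ^ 3 * Tterm a b w x else 0)) atTop
      (𝓝 (z2 b.2 * ((if 6 ∣ a.2 - b.2 then ((Real.pi / 2 : ℝ) : ℂ) else 0) *
        L3 (a.1 - b.1)))) := by
  have h := tendsto_double (u := uw b.2) (s := e6 (a.1 - b.1)) (norm_uw b.2)
    (fun m => (norm_e6 _ m).le) (R := fun N m w => (w : ℂ) ^ 3 * R3 (a.2 - b.2) N m w)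
    (fun N m hm w hw => norm_w3_R3_le (a.2 - b.2) N hm hw)
    (fun N m hm => tendsto_R3 (a.2 - b.2) N hm)
  refine h.congr' ?_
  filter_upwards [eventually_gt_atTop 0] with w hw
  exact (A3_eq hw).symm

theorem Tterm_swap (a b : ℤ × ℤ) (w : ℝ) (x : (ℤ × ℤ) × (ℤ × ℤ)) :
    Tterm a b w x.swap = Tterm b a w x := by
  rw [Tterm_eq, Tterm_eq, Prod.fst_swap, Prod.snd_swap, add_comm x.2 x.1]
  ring

theorem tendsto_A2 (a b : ℤ × ℤ) :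
    Tendsto (fun w : ℝ => ∑' x : (ℤ × ℤ) × (ℤ × ℤ),
      (if x.1.1 ≠ 0 ∧ x.2.1 = 0 then (w : ℂ) ^ 3 * Tterm a b w x else 0)) atTop
      (𝓝 (z2 b.2 * ((if 6 ∣ a.2 then ((-(Real.pi / 4) : ℝ) : ℂ) else 0) * L3 a.1))) := by
  refine (tendsto_A1 b a).congr fun w => ?_
  rw [← (Equiv.prodComm (ℤ × ℤ) (ℤ × ℤ)).tsum_eq]
  refine tsum_congr fun x => ?_
  simp only [Equiv.prodComm_apply, Prod.fst_swap, Prod.snd_swap]
  rw [Tterm_swap]
  by_cases h1 : x.1.1 = 0 <;> by_cases h2 : x.2.1 = 0 <;> simp [h1, h2]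

/-- the constant part -/
noncomputable def C0 (a b : ℤ × ℤ) : ℂ :=
  ∑' x : (ℤ × ℤ) × (ℤ × ℤ), (if x.1.1 = 0 ∧ x.2.1 = 0 then Tterm a b 1 x else 0)

theorem A0_eq (a b : ℤ × ℤ) (w : ℝ) :
    ∑' x : (ℤ × ℤ) × (ℤ × ℤ), (if x.1.1 = 0 ∧ x.2.1 = 0 then (w : ℂ) ^ 3 * Tterm a b w x else 0)
      = C0 a b * (w : ℂ) ^ 3 := by
  rw [C0, mul_comm, ← tsum_mul_left]
  refine tsum_congr fun x => ?_
  split_ifs with h
  · congr 1
    have e : ∀ (v : ℤ × ℤ), v.1 = 0 → gm w v = gm 1 v := by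
      intro v hv
      rw [gm, gm, hv]
      simp
    rw [Tterm, Tterm, e x.1 h.1, e x.2 h.2, e (x.1 + x.2) (by
      rw [Prod.fst_add, h.1, h.2, add_zero])]
  · rw [mul_zero]

/-- the constants of the two-loop sums -/
noncomputable def Ccst (a b : ℤ × ℤ) : ℂ :=
  z2 a.2 * ((if 6 ∣ b.2 then ((-(Real.pi / 4) : ℝ) : ℂ) else 0) * L3 b.1)
    + z2 b.2 * ((if 6 ∣ a.2 then ((-(Real.pi / 4) : ℝ) : ℂ) else 0) * L3 a.1)
    + z2 b.2 * ((if 6 ∣ a.2 - b.2 then ((Real.pi / 2 : ℝ) : ℂ) else 0) * L3 (a.1 - b.1))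

/-- the limit of a two-loop sum, given the nondegenerate part -/
theorem tendsto_T_of (a b : ℤ × ℤ)
    (hA4 : Tendsto (fun w : ℝ => ∑' x : (ℤ × ℤ) × (ℤ × ℤ),
      if x.1.1 ≠ 0 ∧ x.2.1 ≠ 0 ∧ x.1.1 + x.2.1 ≠ 0 then (w : ℂ) ^ 3 * Tterm a b w x else 0)
      atTop (𝓝 0)) :
    Tendsto (fun w : ℝ => (w : ℂ) ^ 3 * T a b w - C0 a b * (w : ℂ) ^ 3) atTop
      (𝓝 (Ccst a b)) := by
  have h := (((tendsto_A1 a b).add (tendsto_A2 a b)).add (tendsto_A3 a b)).add hA4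
  rw [add_zero] at h
  refine h.congr' ?_
  filter_upwards [eventually_gt_atTop 0] with w hw
  have s0 := summable_ite (a := a) (b := b) hw (fun x => x.1.1 = 0 ∧ x.2.1 = 0)
  have s1 := summable_ite (a := a) (b := b) hw (fun x => x.1.1 = 0 ∧ x.2.1 ≠ 0)
  have s2 := summable_ite (a := a) (b := b) hw (fun x => x.1.1 ≠ 0 ∧ x.2.1 = 0)
  have s3 := summable_ite (a := a) (b := b) hw
    (fun x => x.1.1 ≠ 0 ∧ x.2.1 ≠ 0 ∧ x.1.1 + x.2.1 = 0)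
  have s4 := summable_ite (a := a) (b := b) hw
    (fun x => x.1.1 ≠ 0 ∧ x.2.1 ≠ 0 ∧ x.1.1 + x.2.1 ≠ 0)
  rw [T, ← tsum_mul_left, ← A0_eq a b w, ← s1.tsum_add s2, ← (s1.add s2).tsum_add s3,
    ← ((s1.add s2).add s3).tsum_add s4, eq_sub_iff_add_eq,
    ← (((s1.add s2).add s3).add s4).tsum_add s0]
  refine tsum_congr fun x => ?_
  by_cases h1 : x.1.1 = 0 <;> by_cases h2 : x.2.1 = 0 <;> by_cases h3 : x.1.1 + x.2.1 = 0 <;>
    simp [h1, h2, h3]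

end Pool.RV
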