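import Pool.Agent.Work.MP_5955e5_nt.B.BDefs

/-!
# Cell RV, block (b): the line function `Psi`
-/

set_option autoImplicit false

open Complex

namespace Pool.RV

/-- the line function; its derivative is `-(16 π⁵/3) w e(w) log x(w)` -/
noncomputable def Psi (w : ℝ) : ℂ :=
  (w : ℂ) ^ 3 * Tplus w + (w : ℂ) ^ 3 / 2 * Kx 1 1 w * Ke 3 1 w
    - (w : ℂ) ^ 3 * (4 * K 4 2 (0, 0) w + 6 * K 4 2 (1, 0) w + 9 * K 4 2 (2, 0) w)

end Pool.RV
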