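import Pool.Agent.Work.MP_5955e5_nt.B.Cocycle
import Pool.Agent.Work.MP_5955e5_nt.B.Psi

/-!
# Cell RV, block (b): symmetries and distribution relations of one- and two-loop sums (helper16)
-/

set_option autoImplicit false

open Complex

namespace Pool.RV

/-- reflection of characters -/
def stc (a : ℤ × ℤ) : ℤ × ℤ := (-a.1 - a.2, a.2)

lemma ch_rho' (a v : ℤ × ℤ) : ch a (rho v) = ch (stc a) v := ch_rho a v

lemma rho_rho (v : ℤ × ℤ) : rho (rho v) = v := rho.left_inv v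

lemma rho_sub (u v : ℤ × ℤ) : rho (u - v) = rho u - rho v := by
  ext
  · simp [rho]; ring
  · simp [rho]; ring

/-! one-loop sums -/

lemma K_star (p q : ℕ) (a : ℤ × ℤ) (w : ℝ) : K p q a w = K q p (stc a) w := by
  rw [K_eq, K_eq, ← rho.tsum_eq]
  refine tsum_congr (fun v => ?_)
  rw [ch_rho', ui_rho, ub_rho]
  ring

lemma K_conj (p q : ℕ) (a : ℤ × ℤ) (w : ℝ) :
    (starRingEnd ℂ) (K p q a w) = K q p (-a) w := by
  rw [K_eq, K_eq, conj_tsum]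
  refine tsum_congr (fun v => ?_)
  rw [map_mul, map_mul, map_pow, map_pow, conj_ui, conj_ub, conj_ch, ch_neg_right, ← ch_neg_left]
  ring

/-! regularised one-loop sums -/

lemma Kreg_congr (p q : ℕ) {a b : ℤ × ℤ} (w : ℝ) (h : ∀ v, ch a v = ch b v) :
    Kreg p q a w = Kreg p q b w := by
  rw [Kreg, Kreg, h]
  congr 1
  exact tsum_congr (fun v => by rw [h v])

lemma one_sub_ch_ne {a : ℤ × ℤ} (ha : ¬ (6 ∣ a.1)) : 1 - ch a (1, 0) ≠ 0 :=
  sub_ne_zero.mpr (Ne.symm (ch_tau_ne_one ha))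

lemma Cc_neg {p q : ℕ} (h2 : p + q = 2) (a : ℤ × ℤ) (w : ℝ) (h : ℤ × ℤ) :
    Cc p q (-a) w h = Cc p q a w (-h) := by
  rw [Cc, Cc, ← (Equiv.neg (ℤ × ℤ)).tsum_eq]
  refine tsum_congr (fun v => ?_)
  simp only [Equiv.neg_apply]
  rw [ch_neg_neg, F2_neg h2, ← neg_add', F2_neg h2, sub_neg_eq_add]

lemma Kreg_neg {p q : ℕ} (h2 : p + q = 2) {a : ℤ × ℤ} (ha : ¬ (6 ∣ a.1)) {w : ℝ} (hw : 0 < w) :
    Kreg p q (-a) w = Kreg p q a w := by
  have hna : ¬ (6 ∣ (-a).1) := by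
    rw [Prod.fst_neg, dvd_neg]; exact ha
  have h := Cc_neg h2 a w (1, 0)
  rw [Cc_eq hw h2 (Or.inr hna), Cc_eq hw h2 (Or.inr ha), ch_neg_right, ← ch_neg_left] at h
  exact mul_left_cancel₀ (one_sub_ch_ne hna) h

lemma F2_rho (p q : ℕ) (w : ℝ) (v : ℤ × ℤ) : F2 p q w (rho v) = F2 q p w v := by
  rw [F2, F2, ui_rho, ub_rho, mul_comm]

lemma Cc_star (p q : ℕ) (a : ℤ × ℤ) (w : ℝ) (h : ℤ × ℤ) :
    Cc p q a w h = Cc q p (stc a) w (rho h) := by
  rw [Cc, Cc, ← rho.tsum_eq]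
  refine tsum_congr (fun v => ?_)
  have e : rho v - h = rho (v - rho h) := by rw [rho_sub, rho_rho]
  rw [ch_rho', F2_rho, e, F2_rho]

lemma Kreg_star {p q : ℕ} (h2 : p + q = 2) {a : ℤ × ℤ} (ha : ¬ (6 ∣ a.1))
    (ha' : ¬ (6 ∣ a.1 + a.2)) {w : ℝ} (hw : 0 < w) :
    Kreg p q a w = Kreg q p (stc a) w := by
  have hna : ¬ (6 ∣ (stc a).1) := by
    have : (stc a).1 = -(a.1 + a.2) := by simp [stc]; ring
    rw [this, dvd_neg]; exact ha'
  have h := Cc_star p q a w (1, 0)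
  rw [Cc_eq hw h2 (Or.inr ha), Cc_eq hw (by omega) (Or.inr hna), ← ch_rho', rho_rho] at h
  exact mul_left_cancel₀ (one_sub_ch_ne ha) h

lemma conj_F2 (p q : ℕ) (w : ℝ) (v : ℤ × ℤ) : (starRingEnd ℂ) (F2 p q w v) = F2 q p w v := by
  rw [F2, F2, map_mul, map_pow, map_pow, conj_ui, conj_ub, mul_comm]

lemma Kreg_conj (p q : ℕ) (a : ℤ × ℤ) (w : ℝ) :
    (starRingEnd ℂ) (Kreg p q a w) = Kreg q p (-a) w := by
  rw [Kreg_eq, Kreg_eq, map_mul, map_inv₀, map_sub, map_one, conj_ch, ch_neg_right, ← ch_neg_left,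
    Cc, Cc, conj_tsum]
  congr 1
  refine tsum_congr (fun v => ?_)
  rw [map_mul, map_sub, conj_F2, conj_F2, conj_ch, ch_neg_right, ← ch_neg_left]

/-! two-loop sums -/

lemma FT_congr {a b a' b' : ℤ × ℤ} (w : ℝ) (ha : ∀ v, ch a v = ch a' v)
    (hb : ∀ v, ch b v = ch b' v) : FT a b w = FT a' b' w := by
  rw [FT, FT]
  refine tsum_congr (fun x => ?_)
  rw [FTterm, FTterm, ha, hb]

lemma Ft_neg (w : ℝ) (x : (ℤ × ℤ) × (ℤ × ℤ)) : Ft w (-x) = Ft w x := by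
  have e : -x.1 + -x.2 = -(x.1 + x.2) := by abel
  simp only [Ft, Prod.fst_neg, Prod.snd_neg]
  rw [e]
  simp only [ui_neg, ub_neg]
  ring

lemma FT_neg (a b : ℤ × ℤ) (w : ℝ) : FT (-a) (-b) w = FT a b w := by
  rw [FT, FT, ← (Equiv.neg ((ℤ × ℤ) × (ℤ × ℤ))).tsum_eq]
  refine tsum_congr (fun x => ?_)
  simp only [Equiv.neg_apply]
  rw [FTterm_eq, FTterm_eq, Ft_neg, Prod.fst_neg, Prod.snd_neg, ch_neg_neg, ch_neg_neg]

lemma Ft_swap (w : ℝ) (x : (ℤ × ℤ) × (ℤ × ℤ)) : Ft w x.swap = Ft w x := by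
  simp only [Ft, Prod.fst_swap, Prod.snd_swap]
  rw [add_comm x.2 x.1]
  ring

lemma FT_swap (a b : ℤ × ℤ) (w : ℝ) : FT b a w = FT a b w := by
  rw [FT, FT, ← (Equiv.prodComm (ℤ × ℤ) (ℤ × ℤ)).tsum_eq]
  refine tsum_congr (fun x => ?_)
  simp only [Equiv.prodComm_apply]
  rw [FTterm_eq, FTterm_eq, Ft_swap, Prod.fst_swap, Prod.snd_swap]
  ring

lemma Fbt_rho (w : ℝ) (x : (ℤ × ℤ) × (ℤ × ℤ)) : Fbt w (rho x.1, rho x.2) = Ft w x := by
  simp only [Ft, Fbt]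
  rw [← rho_add]
  simp only [ui_rho, ub_rho]
  ring

lemma FB_star (a b : ℤ × ℤ) (w : ℝ) : FB a b w = FT (stc a) (stc b) w := by
  rw [FB, FT, ← (Equiv.prodCongr rho rho).tsum_eq]
  refine tsum_congr (fun x => ?_)
  have e : (Equiv.prodCongr rho rho) x = (rho x.1, rho x.2) := rfl
  rw [e, FBterm_eq, FTterm_eq, Fbt_rho, ch_rho', ch_rho']

/-- unprimed pairs are invariant under the reflection -/
lemma FB_eq_FT_of_zero (i k : ℤ) (w : ℝ) : FB (i, 0) (k, 0) w = FT (i, 0) (k, 0) w := by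
  rw [FB_star, ← FT_neg (i, 0) (k, 0)]
  have e : ∀ j : ℤ, stc (j, 0) = -(j, 0) := fun j => by
    ext <;> simp [stc]
  rw [e, e]

lemma ch_mod6 {a b : ℤ × ℤ} (h1 : 6 ∣ a.1 - b.1) (h2 : 6 ∣ a.2 - b.2) (v : ℤ × ℤ) :
    ch a v = ch b v := by
  obtain ⟨c1, hc1⟩ := h1
  obtain ⟨c2, hc2⟩ := h2
  have : a = b + (6 * c1, 6 * c2) := by
    ext
    · simp; linarith
    · simp; linarith
  rw [this]
  exact ch_six b v (c1, c2)

lemma FB_eq_FT_12 (w : ℝ) : FB (1, 3) (2, 3) w = FT (1, 3) (2, 3) w := by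
  rw [FB_star, ← FT_swap (1, 3) (2, 3)]
  exact FT_congr w (ch_mod6 (by decide) (by decide)) (ch_mod6 (by decide) (by decide))

lemma FB_eq_FT_14 (w : ℝ) : FB (1, 3) (4, 3) w = FT (1, 3) (4, 3) w := by
  rw [FB_star, ← FT_swap (1, 3) (4, 3), ← FT_neg (4, 3) (1, 3)]
  exact FT_congr w (ch_mod6 (by decide) (by decide)) (ch_mod6 (by decide) (by decide))

/-! distribution by `E[2]` -/

lemma exp_pi_int (n : ℤ) : exp ((n : ℂ) * (Real.pi * I)) = if Even n then 1 else -1 := by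
  rw [exp_int_mul, exp_pi_mul_I]
  by_cases h : Even n
  · rw [if_pos h, h.neg_one_zpow]
  · rw [if_neg h, (Int.not_even_iff_odd.mp h).neg_one_zpow]

lemma ch_30 (v : ℤ × ℤ) : ch (3, 0) v = if Even v.1 then 1 else -1 := by
  rw [← exp_pi_int, ch]
  congr 1
  push_cast
  ring

lemma ch_03 (v : ℤ × ℤ) : ch (0, 3) v = if Even v.2 then 1 else -1 := by
  rw [← exp_pi_int, ch]
  congr 1
  push_cast
  ring

/-- doubling -/
def dbl (v : ℤ × ℤ) : ℤ × ℤ := (2 * v.1, 2 * v.2)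

lemma dbl_inj : Function.Injective dbl := by
  intro u v h
  simp only [dbl, Prod.mk.injEq] at h
  ext
  · omega
  · omega

lemma gm_dbl (w : ℝ) (v : ℤ × ℤ) : gm w (dbl v) = 2 * gm w v := by
  simp only [gm, dbl]
  push_cast
  ring

lemma ui_dbl (w : ℝ) (v : ℤ × ℤ) : ui w (dbl v) = ui w v / 2 := by
  rw [ui, ui, gm_dbl, mul_inv]
  ring

lemma ub_dbl (w : ℝ) (v : ℤ × ℤ) : ub w (dbl v) = ub w v / 2 := by
  rw [← conj_ui, ui_dbl, map_div₀, conj_ui]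
  congr 1
  exact Complex.conj_ofNat 2

lemma ch_dbl (a v : ℤ × ℤ) : ch a (dbl v) = ch (dbl a) v := by
  rw [ch, ch]
  congr 1
  simp only [dbl]
  push_cast
  ring

lemma dbl_sub (u v : ℤ × ℤ) : dbl (u - v) = dbl u - dbl v := by
  ext <;> simp [dbl] <;> ring

/-- the sum of the four characters of `L / 2 L` -/
lemma ch_four (a v : ℤ × ℤ) :
    ch a v + ch (a + (3, 0)) v + ch (a + (0, 3)) v + ch (a + (3, 3)) v
      = ch a v * ((1 + ch (3, 0) v) * (1 + ch (0, 3) v)) := by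
  have e : ch (3, 3) v = ch (3, 0) v * ch (0, 3) v := by
    rw [← ch_add_left]
    rfl
  rw [ch_add_left, ch_add_left, ch_add_left, e]
  ring

lemma four_eq_zero {v : ℤ × ℤ} (h : v ∉ Set.range dbl) :
    (1 + ch (3, 0) v) * (1 + ch (0, 3) v) = 0 := by
  rw [ch_30, ch_03]
  by_cases h1 : Even v.1
  · by_cases h2 : Even v.2
    · exfalso
      apply h
      obtain ⟨x, hx⟩ := h1
      obtain ⟨y, hy⟩ := h2
      refine ⟨(x, y), ?_⟩
      ext
      · simp only [dbl]; omega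
      · simp only [dbl]; omega
    · rw [if_neg h2]; simp
  · rw [if_neg h1]; simp

lemma four_dbl (v : ℤ × ℤ) :
    (1 + ch (3, 0) (dbl v)) * (1 + ch (0, 3) (dbl v)) = 4 := by
  have h1 : Even (dbl v).1 := ⟨v.1, by simp only [dbl]; ring⟩
  have h2 : Even (dbl v).2 := ⟨v.2, by simp only [dbl]; ring⟩
  rw [ch_30, ch_03, if_pos h1, if_pos h2]
  norm_num

lemma tsum_four (a : ℤ × ℤ) (g : ℤ × ℤ → ℂ) :
    ∑' v : ℤ × ℤ, (ch a v + ch (a + (3, 0)) v + ch (a + (0, 3)) v + ch (a + (3, 3)) v) * g v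
      = ∑' v : ℤ × ℤ, 4 * (ch (dbl a) v * g (dbl v)) := by
  rw [← dbl_inj.tsum_eq]
  · refine tsum_congr (fun v => ?_)
    rw [ch_four, four_dbl, ch_dbl]
    ring
  · intro v hv
    by_contra hc
    apply hv
    simp only
    rw [ch_four, four_eq_zero hc, mul_zero, zero_mul]

/-- distribution by `E[2]` -/
theorem K_dist {p q : ℕ} (h : 3 ≤ p + q) {w : ℝ} (hw : 0 < w) (a : ℤ × ℤ) :
    K p q a w + K p q (a + (3, 0)) w + K p q (a + (0, 3)) w + K p q (a + (3, 3)) w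
      = 4 / 2 ^ (p + q) * K p q (dbl a) w := by
  have hs := fun b : ℤ × ℤ => summable_K hw h b
  have h1 : K p q a w + K p q (a + (3, 0)) w + K p q (a + (0, 3)) w + K p q (a + (3, 3)) w
      = ∑' v : ℤ × ℤ, (ch a v + ch (a + (3, 0)) v + ch (a + (0, 3)) v + ch (a + (3, 3)) v)
          * (ui w v ^ p * ub w v ^ q) := by
    rw [K_eq, K_eq, K_eq, K_eq, ← (hs _).tsum_add (hs _), ← ((hs _).add (hs _)).tsum_add (hs _),
      ← (((hs _).add (hs _)).add (hs _)).tsum_add (hs _)]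
    exact tsum_congr (fun v => by ring)
  rw [h1, tsum_four, K_eq, ← tsum_mul_left]
  refine tsum_congr (fun v => ?_)
  rw [ui_dbl, ub_dbl, div_pow, div_pow, pow_add]
  field_simp

lemma F2_dbl {p q : ℕ} (h2 : p + q = 2) (w : ℝ) (v : ℤ × ℤ) :
    F2 p q w (dbl v) = F2 p q w v / 4 := by
  have e : (2 : ℂ) ^ p * 2 ^ q = 4 := by rw [← pow_add, h2]; norm_num
  rw [F2, F2, ui_dbl, ub_dbl, div_pow, div_pow, div_mul_div_comm, e]

lemma Cc_dist {p q : ℕ} (h2 : p + q = 2) {w : ℝ} (hw : 0 < w) (a h : ℤ × ℤ) :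
    Cc p q a w (dbl h) + Cc p q (a + (3, 0)) w (dbl h) + Cc p q (a + (0, 3)) w (dbl h)
      + Cc p q (a + (3, 3)) w (dbl h) = Cc p q (dbl a) w h := by
  have hs := fun b : ℤ × ℤ => summable_F2_sub hw h2 b (dbl h)
  have h1 : Cc p q a w (dbl h) + Cc p q (a + (3, 0)) w (dbl h) + Cc p q (a + (0, 3)) w (dbl h)
      + Cc p q (a + (3, 3)) w (dbl h)
      = ∑' v : ℤ × ℤ, (ch a v + ch (a + (3, 0)) v + ch (a + (0, 3)) v + ch (a + (3, 3)) v)
          * (F2 p q w v - F2 p q w (v - dbl h)) := by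
    rw [Cc, Cc, Cc, Cc, ← (hs _).tsum_add (hs _), ← ((hs _).add (hs _)).tsum_add (hs _),
      ← (((hs _).add (hs _)).add (hs _)).tsum_add (hs _)]
    exact tsum_congr (fun v => by ring)
  rw [h1, tsum_four, Cc]
  refine tsum_congr (fun v => ?_)
  rw [← dbl_sub, F2_dbl h2, F2_dbl h2]
  ring

/-- distribution by `E[2]` in weight 2 -/
theorem Kreg_dist {p q : ℕ} (h2 : p + q = 2) {w : ℝ} (hw : 0 < w) :
    Kreg p q (1, 0) w + Kreg p q (1, 3) w + Kreg p q (2, 3) w = 0 := by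
  have h := Cc_dist h2 hw (1, 0) (1, 0)
  have e0 : ((1, 0) : ℤ × ℤ) + (3, 0) = (4, 0) := rfl
  have e1 : ((1, 0) : ℤ × ℤ) + (0, 3) = (1, 3) := rfl
  have e2 : ((1, 0) : ℤ × ℤ) + (3, 3) = (4, 3) := rfl
  have e3 : dbl (1, 0) = (2, 0) := rfl
  rw [e0, e1, e2, e3, Cc_eq hw h2 (Or.inr (by decide)), Cc_eq hw h2 (Or.inr (by decide)),
    Cc_eq hw h2 (Or.inr (by decide)), Cc_eq hw h2 (Or.inr (by decide)),
    Cc_eq hw h2 (Or.inr (by decide))] at h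
  have c1 : ch (1, 0) (2, 0) = ch (2, 0) (1, 0) := by rw [ch, ch]; rfl
  have c2 : ch (4, 0) (2, 0) = ch (2, 0) (1, 0) := by
    have : ch (4, 0) (2, 0) = ch (8, 0) (1, 0) := by rw [ch, ch]; rfl
    rw [this]
    exact ch_mod6 (by decide) (by decide) _
  have c3 : ch (1, 3) (2, 0) = ch (2, 0) (1, 0) := by
    have : ch (1, 3) (2, 0) = ch (2, 6) (1, 0) := by rw [ch, ch]; rfl
    rw [this]
    exact ch_mod6 (by decide) (by decide) _
  have c4 : ch (4, 3) (2, 0) = ch (2, 0) (1, 0) := by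
    have : ch (4, 3) (2, 0) = ch (8, 6) (1, 0) := by rw [ch, ch]; rfl
    rw [this]
    exact ch_mod6 (by decide) (by decide) _
  have k1 : Kreg p q (4, 0) w = Kreg p q (2, 0) w := by
    rw [← Kreg_neg h2 (a := (2, 0)) (by decide) hw]
    exact Kreg_congr p q w (ch_mod6 (by decide) (by decide))
  have k2 : Kreg p q (4, 3) w = Kreg p q (2, 3) w := by
    rw [← Kreg_neg h2 (a := (2, 3)) (by decide) hw]
    exact Kreg_congr p q w (ch_mod6 (by decide) (by decide))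
  rw [c1, c2, c3, c4, k1, k2] at h
  have hne : 1 - ch (2, 0) (1, 0) ≠ 0 := one_sub_ch_ne (a := (2, 0)) (by decide)
  have h5 : (1 - ch (2, 0) (1, 0)) *
      (Kreg p q (1, 0) w + Kreg p q (1, 3) w + Kreg p q (2, 3) w) = 0 := by
    linear_combination h
  exact (mul_eq_zero.mp h5).resolve_left hne

end Pool.RV
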